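import Pool.Agent.K4H18.LS.L9

/-! The parts composed of small primes -/

set_option autoImplicit false

namespace Pool.Agent.K4H18.LS

open Finset
open ArithmeticFunction (cardFactors)
open Pool.Agent.W208.TL (PP sm)
open Pool.Agent.K4H18.AC (mem_PP Adm sm_sm)

/-- the parts composed of the primes up to `w` -/
noncomputable def wp {k : ℕ} (w : ℕ) (h : Fin k → ℕ) (n : ℕ) : Fin k → ℕ := fun i => sm 0 w (n + h i)

lemma sm_dvd (w y : ℕ) {n : ℕ} (hn : n ≠ 0) : sm w y n ∣ n := by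
  have h0 : ∀ S : Finset ℕ, (∀ p ∈ S, p.Prime) → (∏ l ∈ S, l ^ n.factorization l) ∣ n := by
    intro S hS
    conv_rhs => rw [← Nat.prod_factorization_pow_eq_self hn]
    unfold Finsupp.prod
    have e : ∏ l ∈ S, l ^ n.factorization l = ∏ l ∈ S.filter (fun l => l ∈ n.factorization.support), l ^ n.factorization l := by
      symm
      apply prod_subset (filter_subset _ _)
      intro p hp hp'
      rw [mem_filter, not_and] at hp'
      have := hp' hp
      rw [Finsupp.notMem_support_iff] at this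
      rw [this, pow_zero]
    rw [e]
    apply prod_dvd_prod_of_subset
    intro p hp
    exact (mem_filter.1 hp).2
  exact h0 _ PP_prime

/-- the largest coordinate -/
lemma inv_max {k : ℕ} (hk : 1 ≤ k) (s : Fin k → ℕ) (hs : ∀ i, 1 ≤ s i) : ∃ j, 1 / (s j : ℝ) ≤ ∏ i, (s i : ℝ) ^ (-(1 / (k : ℝ))) := by
  haveI : Nonempty (Fin k) := ⟨⟨0, hk⟩⟩
  obtain ⟨j, hj⟩ := exists_max_image univ s univ_nonempty
  refine ⟨j, ?_⟩
  have hk0 : (0 : ℝ) < k := by exact_mod_cast hk
  have hs0 : ∀ i, (0 : ℝ) < s i := fun i => by exact_mod_cast hs i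
  have h1 : 1 / (s j : ℝ) = ∏ _i : Fin k, (s j : ℝ) ^ (-(1 / (k : ℝ))) := by
    rw [prod_const, card_univ, Fintype.card_fin, ← Real.rpow_natCast, ← Real.rpow_mul (hs0 j).le]
    have : -(1 / (k : ℝ)) * (k : ℝ) = -1 := by field_simp
    rw [this, Real.rpow_neg_one, one_div]
  rw [h1]
  apply prod_le_prod
  · intro i _; positivity
  · intro i _
    apply Real.rpow_le_rpow_of_nonpos (hs0 i)
    · exact_mod_cast hj.2 i (mem_univ i)
    · rw [neg_nonpos]; positivity

theorem cellW (k : ℕ) (hk : 1 ≤ k) : ∃ K y0 : ℕ, 1 ≤ K ∧ ∀ (w : ℕ) (h : Fin k → ℕ), 12 * k + 144 ≤ w → Adm w h →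
    ∀ y N Z P b : ℕ, y0 ≤ y → w ≤ y → 1 ≤ PS w y → (P = 1 ∨ (P.Prime ∧ y < P)) →
    ∀ (S : Finset (Fin k → ℕ)) (J : (Fin k → ℕ) → Fin k → Finset ℕ) (M : Fin k → ℝ),
    (∀ s ∈ S, ∀ i, ((J s i).card : ℝ) ≤ M i) → ∀ (i0 : Fin k) (R : ℝ), 1 ≤ R →
    (((Icc 1 N).filter (fun n => n ≡ b [MOD P] ∧ wp w h n ∈ S ∧
      (∀ i, sm w y (n + h i) ≤ Z ∧ cardFactors (sm w y (n + h i)) ∈ J (wp w h n) i) ∧ R ≤ sm w y (n + h i0))).card : ℝ) ≤
    2 * (N / P) * (∑ s ∈ S, ∏ i, (s i : ℝ) ^ (-(1 / (k : ℝ)))) *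
      ((∏ i, M i) * (C1 / √(PS w y)) ^ k * R ^ (-(1 / Real.log y))) +
      S.card * ((Z : ℝ) ^ k * ((y : ℝ) ^ K + k + 3)) := by
  classical
  obtain ⟨K, y0, hK, hcell⟩ := cellB k hk
  refine ⟨K, y0, hK, ?_⟩
  intro w h hw hadm y N Z P b hy hwy hPS hP S J M hM i0 R hR
  have hC1 := C1_pos
  have hP1 : 1 ≤ P := by
    rcases hP with rfl | hP
    · exact le_rfl
    · exact hP.1.one_lt.le
  set T : (Fin k → ℕ) → Finset ℕ := fun s => (Icc 1 N).filter (fun n => n ≡ b [MOD P] ∧ wp w h n = s ∧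
      (∀ i, sm w y (n + h i) ≤ Z ∧ cardFactors (sm w y (n + h i)) ∈ J s i) ∧ R ≤ sm w y (n + h i0)) with hT
  have hsub : (Icc 1 N).filter (fun n => n ≡ b [MOD P] ∧ wp w h n ∈ S ∧
      (∀ i, sm w y (n + h i) ≤ Z ∧ cardFactors (sm w y (n + h i)) ∈ J (wp w h n) i) ∧ R ≤ sm w y (n + h i0)) ⊆ S.biUnion T := by
    intro n hn
    rw [mem_filter] at hn
    rw [mem_biUnion]
    refine ⟨wp w h n, hn.2.2.1, ?_⟩
    rw [hT]
    simp only [mem_filter]
    exact ⟨hn.1, hn.2.1, trivial, hn.2.2.2.1, hn.2.2.2.2⟩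
  have hTc : ∀ s ∈ S, ((T s).card : ℝ) ≤ 2 * (N / P) * (∏ i, (s i : ℝ) ^ (-(1 / (k : ℝ)))) *
      ((∏ i, M i) * (C1 / √(PS w y)) ^ k * R ^ (-(1 / Real.log y))) + (Z : ℝ) ^ k * ((y : ℝ) ^ K + k + 3) := by
    intro s hs
    have hM0 : ∀ i, 0 ≤ M i := fun i => le_trans (Nat.cast_nonneg _) (hM s hs i)
    have hpos : 0 ≤ 2 * ((N : ℝ) / P) * (∏ i, (s i : ℝ) ^ (-(1 / (k : ℝ)))) *
      ((∏ i, M i) * (C1 / √(PS w y)) ^ k * R ^ (-(1 / Real.log y))) := by
      have : 0 ≤ ∏ i, M i := prod_nonneg fun i _ => hM0 i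
      have hR0 : 0 ≤ R ^ (-(1 / Real.log y)) := by positivity
      have h0 : 0 ≤ ∏ i, (s i : ℝ) ^ (-(1 / (k : ℝ))) := prod_nonneg fun i _ => by positivity
      positivity
    rcases (T s).eq_empty_or_nonempty with he | ⟨n0, hn0⟩
    · rw [he, card_empty, Nat.cast_zero]
      have : 0 ≤ (Z : ℝ) ^ k * ((y : ℝ) ^ K + k + 3) := by positivity
      linarith
    · have hn0' := hn0
      rw [hT] at hn0'
      simp only [mem_filter, mem_Icc] at hn0'
      obtain ⟨⟨hn01, _⟩, hn02, hn03, _⟩ := hn0'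
      have hs1 : ∀ i, 1 ≤ s i := by
        intro i
        rw [← hn03]
        exact Pool.Agent.W975.TL.sm_pos _ _ _
      obtain ⟨j, hj⟩ := inv_max hk s hs1
      have hsub2 : T s ⊆ (cellS N w y Z (s j * P) n0 h (J s)).filter (fun n => R ≤ sm w y (n + h i0)) := by
        intro n hn
        rw [hT] at hn
        simp only [mem_filter, mem_Icc] at hn
        obtain ⟨⟨hn1, hnN⟩, hn2, hn3, hn4, hn5⟩ := hn
        unfold cellS
        rw [mem_filter, mem_filter, mem_Icc]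
        refine ⟨⟨⟨hn1, hnN⟩, ?_, hn4⟩, hn5⟩
        rw [← Nat.modEq_and_modEq_iff_modEq_mul]
        · constructor
          · have d1 : s j ∣ n + h j := by
              have := congrFun hn3 j
              rw [← this]
              exact sm_dvd 0 w (by omega)
            have d2 : s j ∣ n0 + h j := by
              have := congrFun hn03 j
              rw [← this]
              exact sm_dvd 0 w (by omega)
            have e1 : n + h j ≡ 0 [MOD s j] := (Nat.modEq_zero_iff_dvd).2 d1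
            have e2 : n0 + h j ≡ 0 [MOD s j] := (Nat.modEq_zero_iff_dvd).2 d2
            exact Nat.ModEq.add_right_cancel' (h j) (e1.trans e2.symm)
          · exact hn2.trans hn02.symm
        · rcases hP with rfl | hP
          · exact Nat.coprime_one_right _
          · rw [Nat.coprime_comm]
            apply (Nat.Prime.coprime_iff_not_dvd hP.1).2
            intro hd
            have := congrFun hn03 j
            rw [← this] at hd
            have h5 := (Pool.Agent.W591.TL.prime_dvd_sm hP.1 hd).1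
            rw [mem_PP] at h5
            omega
      have hL1 : 1 ≤ s j * P := Nat.mul_pos (hs1 j) hP1
      have h3 := hcell w h hw hadm y N Z (s j * P) n0 hy hPS hL1 (by
        intro l hl hd
        rcases (hl.dvd_mul).1 hd with h4 | h4
        · left
          have := congrFun hn03 j
          rw [← this] at h4
          exact (mem_PP.1 (Pool.Agent.W591.TL.prime_dvd_sm hl h4).1).1.2
        · rcases hP with rfl | hP
          · exact absurd (Nat.dvd_one.1 h4) hl.one_lt.ne'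
          · right
            rw [(Nat.prime_dvd_prime_iff_eq hl hP.1).1 h4]
            exact hP.2) (J s) i0 R hR
      have h4 : ((T s).card : ℝ) ≤ _ := (by exact_mod_cast card_le_card hsub2 : ((T s).card : ℝ) ≤
        (((cellS N w y Z (s j * P) n0 h (J s)).filter (fun n => R ≤ sm w y (n + h i0))).card : ℝ)).trans h3
      refine h4.trans ?_
      apply add_le_add _ le_rfl
      have h5 : ((N : ℝ) / ((s j * P : ℕ) : ℝ)) ≤ (N / P) * ∏ i, (s i : ℝ) ^ (-(1 / (k : ℝ))) := by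
        push_cast
        have : (N : ℝ) / ((s j : ℝ) * P) = (N / P) * (1 / (s j : ℝ)) := by
          rw [div_mul_div_comm, mul_one, mul_comm (s j : ℝ)]
        rw [this]
        exact mul_le_mul_of_nonneg_left hj (by positivity)
      have h6 : (∏ i, ((J s i).card : ℝ)) ≤ ∏ i, M i := prod_le_prod (fun i _ => Nat.cast_nonneg _) fun i _ => hM s hs i
      have hMM : 0 ≤ ∏ i, M i := prod_nonneg fun i _ => hM0 i
      calc 2 * ((N : ℝ) / ((s j * P : ℕ) : ℝ)) * ((∏ i, ((J s i).card : ℝ)) * (C1 / √(PS w y)) ^ k * R ^ (-(1 / Real.log y))) ≤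
            2 * ((N / P) * ∏ i, (s i : ℝ) ^ (-(1 / (k : ℝ)))) * ((∏ i, M i) * (C1 / √(PS w y)) ^ k * R ^ (-(1 / Real.log y))) := by
            gcongr
        _ = _ := by ring
  calc _ ≤ ((S.biUnion T).card : ℝ) := by exact_mod_cast card_le_card hsub
    _ ≤ ∑ s ∈ S, ((T s).card : ℝ) := by exact_mod_cast card_biUnion_le
    _ ≤ ∑ s ∈ S, (2 * ((N : ℝ) / P) * (∏ i, (s i : ℝ) ^ (-(1 / (k : ℝ)))) *
      ((∏ i, M i) * (C1 / √(PS w y)) ^ k * R ^ (-(1 / Real.log y))) + (Z : ℝ) ^ k * ((y : ℝ) ^ K + k + 3)) :=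
        sum_le_sum hTc
    _ = _ := by
        rw [sum_add_distrib, sum_const, nsmul_eq_mul, ← sum_mul, ← mul_sum]

/-- the numbers up to `Z` composed of the primes up to `w` -/
noncomputable def SZ (w Z : ℕ) : Finset ℕ := (Icc 1 Z).filter (fun s => sm 0 w s = s)

lemma SZ_sum (w : ℕ) {θ : ℝ} (hθ : 0 < θ) : ∃ C : ℝ, 1 ≤ C ∧ ∀ Z : ℕ, ∑ s ∈ SZ w Z, (s : ℝ) ^ (-θ) ≤ C := by
  classical
  set g : ℕ → ℝ := fun l => if l ∈ PP 0 w then (l : ℝ) ^ (-θ) else 0 with hg
  have hg0 : ∀ l, 0 ≤ g l := by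
    intro l
    rw [hg]
    dsimp only
    split_ifs <;> positivity
  have hg1 : ∀ l, g l < 1 := by
    intro l
    rw [hg]
    dsimp only
    split_ifs with hl
    · exact Real.rpow_lt_one_of_one_lt_of_neg (by exact_mod_cast (mem_PP.1 hl).2.one_lt) (by linarith)
    · exact one_pos
  refine ⟨max 1 (∏ l ∈ PP 0 w, (1 - g l)⁻¹), le_max_left _ _, ?_⟩
  intro Z
  have h1 := smo_le hg0 hg1 (S := PP 0 w) PP_prime (SZ w Z) (fun b hb => by
    unfold SZ at hb
    rw [mem_filter] at hb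
    exact smo_sm hb.2)
  refine le_trans (le_of_eq ?_) (h1.trans (le_max_right _ _))
  apply sum_congr rfl
  intro s hs
  unfold SZ at hs
  rw [mem_filter] at hs
  have h2 := smo_sm hs.2
  rw [← Fm_rpow (-θ) h2.1]
  apply Fm_congr _ h2
  intro l hl
  rw [hg]
  dsimp only
  rw [if_pos hl]

lemma two_pow_om {s : ℕ} (hs : s ≠ 0) : 2 ^ cardFactors s ≤ s := by
  have := Pool.Agent.K4H18.AC.pow_om_le (y := 1) hs (fun p hp _ => hp.one_lt)
  simpa using this

/-- the vectors of smooth parts with a large value of `Ω` -/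
noncomputable def SV (k w Z R' : ℕ) : Finset (Fin k → ℕ) :=
  open Classical in (Fintype.piFinset (fun _ : Fin k => SZ w Z)).filter (fun s => ∃ i, R' ≤ cardFactors (s i))

lemma SV_card (k w Z R' : ℕ) : (SV k w Z R').card ≤ Z ^ k := by
  classical
  unfold SV
  refine (card_filter_le _ _).trans ?_
  rw [Fintype.card_piFinset, prod_const, card_univ, Fintype.card_fin]
  apply Nat.pow_le_pow_left
  unfold SZ
  refine (card_filter_le _ _).trans ?_
  simp

theorem SV_sum (k w : ℕ) (hk : 1 ≤ k) : ∃ C : ℝ, 1 ≤ C ∧ ∀ Z R' : ℕ,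
    ∑ s ∈ SV k w Z R', ∏ i, (s i : ℝ) ^ (-(1 / (k : ℝ))) ≤ C * (2 : ℝ) ^ (-((R' : ℝ) / (2 * k))) := by
  classical
  have hk0 : (0 : ℝ) < k := by exact_mod_cast hk
  obtain ⟨C, hC, h⟩ := SZ_sum w (θ := 1 / (2 * k)) (by positivity)
  refine ⟨C ^ k, one_le_pow₀ hC, ?_⟩
  intro Z R'
  have h1 : ∀ s ∈ SV k w Z R', ∏ i, (s i : ℝ) ^ (-(1 / (k : ℝ))) ≤
      (2 : ℝ) ^ (-((R' : ℝ) / (2 * k))) * ∏ i, (s i : ℝ) ^ (-(1 / (2 * k : ℝ))) := by
    intro s hs
    unfold SV at hs
    rw [mem_filter, Fintype.mem_piFinset] at hs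
    obtain ⟨h1, i, hi⟩ := hs
    have hs1 : ∀ j, 1 ≤ s j := by
      intro j
      have := h1 j
      unfold SZ at this
      rw [mem_filter, mem_Icc] at this
      exact this.1.1
    have hs0 : ∀ j, (0 : ℝ) < s j := fun j => by exact_mod_cast hs1 j
    have e : ∏ j, (s j : ℝ) ^ (-(1 / (k : ℝ))) = (∏ j, (s j : ℝ) ^ (-(1 / (2 * k : ℝ)))) * ∏ j, (s j : ℝ) ^ (-(1 / (2 * k : ℝ))) := by
      rw [← prod_mul_distrib]
      apply prod_congr rfl
      intro j _
      rw [← Real.rpow_add (hs0 j)]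
      congr 1
      field_simp
      ring
    rw [e]
    apply mul_le_mul_of_nonneg_right _ (prod_nonneg fun j _ => by positivity)
    calc ∏ j, (s j : ℝ) ^ (-(1 / (2 * k : ℝ))) ≤ ∏ j, (if j = i then (s i : ℝ) ^ (-(1 / (2 * k : ℝ))) else 1) := by
          apply prod_le_prod
          · intro j _; positivity
          · intro j _
            split_ifs with hj
            · rw [hj]
            · apply Real.rpow_le_one_of_one_le_of_nonpos
              · exact_mod_cast hs1 j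
              · rw [neg_nonpos]; positivity
      _ = (s i : ℝ) ^ (-(1 / (2 * k : ℝ))) := by
          rw [prod_ite_eq' univ i, if_pos (mem_univ _)]
      _ ≤ ((2 : ℝ) ^ (R' : ℝ)) ^ (-(1 / (2 * k : ℝ))) := by
          apply Real.rpow_le_rpow_of_nonpos (by positivity)
          · rw [Real.rpow_natCast]
            have h5 : 2 ^ R' ≤ s i := (Nat.pow_le_pow_right (by norm_num) hi).trans (two_pow_om (by have := hs1 i; omega))
            exact_mod_cast h5
          · rw [neg_nonpos]; positivity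
      _ = (2 : ℝ) ^ (-((R' : ℝ) / (2 * k))) := by
          rw [← Real.rpow_mul (by norm_num)]
          congr 1
          field_simp
  calc ∑ s ∈ SV k w Z R', ∏ i, (s i : ℝ) ^ (-(1 / (k : ℝ))) ≤
        ∑ s ∈ SV k w Z R', (2 : ℝ) ^ (-((R' : ℝ) / (2 * k))) * ∏ i, (s i : ℝ) ^ (-(1 / (2 * k : ℝ))) := sum_le_sum h1
    _ = (2 : ℝ) ^ (-((R' : ℝ) / (2 * k))) * ∑ s ∈ SV k w Z R', ∏ i, (s i : ℝ) ^ (-(1 / (2 * k : ℝ))) := by rw [← mul_sum]
    _ ≤ (2 : ℝ) ^ (-((R' : ℝ) / (2 * k))) * ∑ s ∈ Fintype.piFinset (fun _ : Fin k => SZ w Z), ∏ i, (s i : ℝ) ^ (-(1 / (2 * k : ℝ))) := by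
        apply mul_le_mul_of_nonneg_left _ (by positivity)
        unfold SV
        apply sum_le_sum_of_subset_of_nonneg (filter_subset _ _)
        intro s _ _
        exact prod_nonneg fun j _ => by positivity
    _ = (2 : ℝ) ^ (-((R' : ℝ) / (2 * k))) * ∏ _i : Fin k, ∑ s ∈ SZ w Z, (s : ℝ) ^ (-(1 / (2 * k : ℝ))) := by
        congr 1
        exact (prod_univ_sum (fun _ : Fin k => SZ w Z) (fun _ s => (s : ℝ) ^ (-(1 / (2 * k : ℝ))))).symm
    _ ≤ (2 : ℝ) ^ (-((R' : ℝ) / (2 * k))) * ∏ _i : Fin k, C := by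
        apply mul_le_mul_of_nonneg_left _ (by positivity)
        apply prod_le_prod
        · intro i _
          exact sum_nonneg fun s _ => by positivity
        · intro i _
          exact h Z
    _ = _ := by rw [prod_const, card_univ, Fintype.card_fin, mul_comm]

end Pool.Agent.K4H18.LS
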