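import Pool.Agent.K4H18.LS.L10

/-! The integers with a large part: the critical prime -/

set_option autoImplicit false

namespace Pool.Agent.K4H18.LS

open Finset Filter Topology
open ArithmeticFunction (cardFactors)
open Pool.Agent.W208.TL (PP sm)
open Pool.Agent.TH445.OI (X Y X_eq)
open Pool.Agent.K4H18.AC (mem_PP Adm sm_sm sm_mono om_sm om_split Y_le card_shift)

/-- the integers divisible by a large power of a small prime -/
lemma big_pow_le (N a y Z1 : ℕ) (hZ : 1 ≤ Z1) :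
    (((Icc 1 N).filter (fun n => ∃ p ∈ PP 0 y, Z1 < p ^ (n + a).factorization p)).card : ℝ) ≤
      y * (((N + a : ℕ) : ℝ) / (Z1 : ℝ)) := by
  classical
  have hsub : (Icc 1 N).filter (fun n => ∃ p ∈ PP 0 y, Z1 < p ^ (n + a).factorization p) ⊆
      (PP 0 y).biUnion (fun p => (Icc 1 N).filter (fun n => Z1 < p ^ (n + a).factorization p)) := by
    intro n hn
    rw [mem_filter] at hn
    obtain ⟨h1, p, hp, h2⟩ := hn
    rw [mem_biUnion]
    exact ⟨p, hp, mem_filter.2 ⟨h1, h2⟩⟩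
  have hone : ∀ p ∈ PP 0 y, (((Icc 1 N).filter (fun n => Z1 < p ^ (n + a).factorization p)).card : ℝ) ≤
      ((N + a : ℕ) : ℝ) / (Z1 : ℝ) := by
    intro p hp
    have hpp := (mem_PP.1 hp).2
    have hex : ∃ e, Z1 < p ^ e := ⟨Z1, Nat.lt_pow_self hpp.one_lt⟩
    obtain ⟨e, he⟩ : ∃ e, e = Nat.find hex := ⟨_, rfl⟩
    have he1 : Z1 < p ^ e := by rw [he]; exact Nat.find_spec hex
    have h1 := card_shift N a (fun n => Z1 < p ^ n.factorization p)
    have h2 : (Icc 1 (N + a)).filter (fun n => Z1 < p ^ n.factorization p) ⊆ (Icc 1 (N + a)).filter (fun n => p ^ e ∣ n) := by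
      intro n hn
      rw [mem_filter, mem_Icc] at hn
      rw [mem_filter, mem_Icc]
      refine ⟨hn.1, ?_⟩
      have h3 : e ≤ n.factorization p := by rw [he]; exact Nat.find_min' hex hn.2
      exact (pow_dvd_pow p h3).trans (Nat.ordProj_dvd n p)
    have h3 := (h1.trans (card_le_card h2))
    rw [Pool.Agent.Helper480.E25.card_mult] at h3
    calc _ ≤ (((N + a) / p ^ e : ℕ) : ℝ) := by exact_mod_cast h3
      _ ≤ ((N + a : ℕ) : ℝ) / ((p ^ e : ℕ) : ℝ) := Nat.cast_div_le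
      _ ≤ _ := by
        apply div_le_div_of_nonneg_left (Nat.cast_nonneg _) (by exact_mod_cast hZ) (by exact_mod_cast he1.le)
  have hPPy : (PP 0 y).card ≤ y := by
    unfold PP
    refine (card_filter_le _ _).trans ?_
    simp
  have h0 : (0 : ℝ) ≤ ((N + a : ℕ) : ℝ) / (Z1 : ℝ) := by positivity
  calc _ ≤ (((PP 0 y).biUnion (fun p => (Icc 1 N).filter (fun n => Z1 < p ^ (n + a).factorization p))).card : ℝ) := by
        exact_mod_cast card_le_card hsub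
    _ ≤ ∑ p ∈ PP 0 y, (((Icc 1 N).filter (fun n => Z1 < p ^ (n + a).factorization p)).card : ℝ) := by
        exact_mod_cast card_biUnion_le
    _ ≤ ∑ _p ∈ PP 0 y, ((N + a : ℕ) : ℝ) / (Z1 : ℝ) := sum_le_sum hone
    _ = (PP 0 y).card * (((N + a : ℕ) : ℝ) / (Z1 : ℝ)) := by rw [sum_const, nsmul_eq_mul]
    _ ≤ _ := by
        apply mul_le_mul_of_nonneg_right _ h0
        exact_mod_cast hPPy

/-- the integers with a large part composed of small primes -/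
theorem big_small : ∃ C : ℝ, 0 < C ∧ ∀ N a ys Z1 : ℕ, 2 ≤ ys → 2 ≤ Z1 →
    (((Icc 1 N).filter (fun n => Z1 < sm 0 ys (n + a))).card : ℝ) ≤ C * Real.log ys / Real.log Z1 * ((N + a : ℕ) : ℝ) := by
  classical
  obtain ⟨C, hC, ht⟩ := Pool.Agent.W975.TL.tail
  refine ⟨C, hC, ?_⟩
  intro N a ys Z1 hys hZ
  refine le_trans ?_ (ht (N + a) ys Z1 hys hZ)
  have h1 := card_shift N a (fun n => Z1 < sm 0 ys n)
  exact_mod_cast h1

lemma sm_succ {w y n : ℕ} (h : ¬ ((y + 1).Prime ∧ w < y + 1)) : sm w (y + 1) n = sm w y n := by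
  unfold sm
  apply prod_congr _ fun _ _ => rfl
  ext l
  rw [mem_PP, mem_PP]
  constructor
  · rintro ⟨⟨h1, h2⟩, h3⟩
    refine ⟨⟨h1, ?_⟩, h3⟩
    by_contra h4
    have : l = y + 1 := by omega
    subst this
    exact h ⟨h3, h1⟩
  · rintro ⟨⟨h1, h2⟩, h3⟩
    exact ⟨⟨h1, by omega⟩, h3⟩

lemma sm_succ' {w y n : ℕ} (hp : (y + 1).Prime) (hw : w < y + 1) :
    sm w (y + 1) n = sm w y n * (y + 1) ^ (n.factorization (y + 1)) := by
  classical
  unfold sm
  have : PP w (y + 1) = insert (y + 1) (PP w y) := by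
    ext l
    rw [mem_insert, mem_PP, mem_PP]
    constructor
    · rintro ⟨⟨h1, h2⟩, h3⟩
      by_cases h4 : l = y + 1
      · exact Or.inl h4
      · exact Or.inr ⟨⟨h1, by omega⟩, h3⟩
    · rintro (rfl | ⟨⟨h1, h2⟩, h3⟩)
      · exact ⟨⟨hw, le_rfl⟩, hp⟩
      · exact ⟨⟨h1, by omega⟩, h3⟩
  rw [this, prod_insert, mul_comm]
  rw [mem_PP]
  omega

lemma sm_mono_y {w y y' : ℕ} (n : ℕ) (h : y ≤ y') : sm w y n ≤ sm w y' n := by
  unfold sm
  apply prod_le_prod_of_subset_of_one_le'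
  · intro l hl
    rw [mem_PP] at hl ⊢
    exact ⟨⟨hl.1.1, by omega⟩, hl.2⟩
  · intro l hl _
    exact Nat.one_le_pow _ _ (mem_PP.1 hl).2.pos

/-- **the critical prime** -/
lemma critical {k w y ys n Z1 : ℕ} {h : Fin k → ℕ} (hZ1 : 1 ≤ Z1)
    (h1 : ∃ i, Z1 ^ 2 < sm w y (n + h i)) (h2 : ∀ i, sm 0 ys (n + h i) ≤ Z1)
    (h3 : ∀ i, ∀ p ∈ PP 0 y, p ^ (n + h i).factorization p ≤ Z1) :
    ∃ q i0, ys ≤ q ∧ q + 1 ≤ y ∧ (q + 1).Prime ∧ (q + 1) ∣ n + h i0 ∧ (∀ i, sm w q (n + h i) ≤ Z1 ^ 2) ∧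
      Z1 < sm w q (n + h i0) := by
  classical
  have hex : ∃ t, ∃ i, Z1 ^ 2 < sm w t (n + h i) := ⟨y, h1⟩
  obtain ⟨T, hT⟩ : ∃ T, T = Nat.find hex := ⟨_, rfl⟩
  have hTs : ∃ i, Z1 ^ 2 < sm w T (n + h i) := by rw [hT]; exact Nat.find_spec hex
  have hTm : ∀ t, t < T → ∀ i, sm w t (n + h i) ≤ Z1 ^ 2 := by
    intro t ht i
    rw [hT] at ht
    have := Nat.find_min hex ht
    push Not at this
    exact this i
  have hTy : T ≤ y := by rw [hT]; exact Nat.find_min' hex h1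
  have hZ2 : 1 ≤ Z1 ^ 2 := Nat.one_le_pow _ _ hZ1
  obtain ⟨i0, hi0⟩ := hTs
  rcases T with _ | q
  · have : sm w 0 (n + h i0) = 1 := by
      unfold sm PP
      simp
    omega
  · have hq := hTm q (by omega)
    by_cases hp : (q + 1).Prime ∧ w < q + 1
    · have e := sm_succ' (n := n + h i0) hp.1 hp.2
      have hv : (q + 1) ^ (n + h i0).factorization (q + 1) ≤ Z1 := h3 i0 (q + 1) (mem_PP.2 ⟨⟨by omega, hTy⟩, hp.1⟩)
      have hlt : Z1 < sm w q (n + h i0) := by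
        by_contra hcon
        push Not at hcon
        have : sm w q (n + h i0) * (q + 1) ^ (n + h i0).factorization (q + 1) ≤ Z1 * Z1 := Nat.mul_le_mul hcon hv
        rw [e] at hi0
        nlinarith
      refine ⟨q, i0, ?_, hTy, hp.1, ?_, hq, hlt⟩
      · by_contra hcon
        push Not at hcon
        have h5 : sm w q (n + h i0) ≤ sm 0 ys (n + h i0) := (sm_mono w q _).trans (sm_mono_y _ hcon.le)
        have := h2 i0
        omega
      · by_contra hcon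
        rw [Nat.factorization_eq_zero_of_not_dvd hcon, pow_zero, mul_one] at e
        rw [e] at hi0
        have := hq i0
        omega
    · rw [sm_succ hp] at hi0
      have := hq i0
      omega

lemma X_sm (w n : ℕ) : X w n = cardFactors (sm 0 w n) := by
  rw [X_eq, om_sm]
  apply sum_congr _ fun _ _ => rfl
  ext p
  rw [mem_filter, mem_Icc, mem_PP]
  constructor
  · rintro ⟨⟨a, b⟩, c⟩
    exact ⟨⟨by omega, b⟩, c⟩
  · rintro ⟨⟨a, b⟩, c⟩
    exact ⟨⟨by omega, b⟩, c⟩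

lemma PS_mono {w y y' : ℕ} (h : y ≤ y') : PS w y ≤ PS w y' := by
  unfold PS
  apply sum_le_sum_of_subset_of_nonneg
  · intro l hl
    rw [mem_PP] at hl ⊢
    exact ⟨⟨hl.1.1, by omega⟩, hl.2⟩
  · intro l _ _
    positivity

lemma wp_mem {k w ys n Z1 : ℕ} {h : Fin k → ℕ} (hk : 1 ≤ k) (hw : w ≤ ys) (h2 : ∀ i, sm 0 ys (n + h i) ≤ Z1) {R' : ℕ}
    (hR : ∃ i, R' ≤ cardFactors (sm 0 w (n + h i))) : wp w h n ∈ SV k w Z1 R' := by
  classical
  unfold SV
  rw [mem_filter, Fintype.mem_piFinset]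
  refine ⟨?_, hR⟩
  intro i
  unfold SZ wp
  rw [mem_filter, mem_Icc]
  exact ⟨⟨Pool.Agent.W975.TL.sm_pos _ _ _, (sm_mono_y _ hw).trans (h2 i)⟩, sm_sm⟩

/-- the numerical part -/
lemma num_part {k B0 : ℕ} {u r K2 : ℝ} (hK : 1 ≤ K2) (hu : K2 ≤ u) (hr0 : 0 ≤ r) (hr : r ≤ B0 * u) :
    (1 + r) ^ k * Real.exp (-u) ≤ (1 + B0) ^ k * (2 ^ k * k.factorial) * Real.exp (-(K2 / 4)) * (4 / u) := by
  have hu1 : 1 ≤ u := hK.trans hu
  have hu0 : 0 < u := by linarith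
  have h1 : (1 + r) ^ k ≤ ((1 + B0) * u) ^ k := by
    apply pow_le_pow_left₀ (by linarith)
    nlinarith
  have h2 : u ^ k ≤ 2 ^ k * k.factorial * Real.exp (u / 2) := by
    have h3 := Real.pow_div_factorial_le_exp (u / 2) (by positivity) k
    rw [div_le_iff₀ (by positivity), div_pow, div_le_iff₀ (by positivity)] at h3
    calc u ^ k ≤ Real.exp (u / 2) * k.factorial * 2 ^ k := h3
      _ = _ := by ring
  have h3 : Real.exp (-(u / 4)) ≤ 4 / u := by
    have h4 := Real.add_one_le_exp (u / 4)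
    rw [Real.exp_neg, inv_eq_one_div, div_le_div_iff₀ (Real.exp_pos _) hu0]
    linarith
  have h4 : Real.exp (-(u / 4)) ≤ Real.exp (-(K2 / 4)) := Real.exp_le_exp.2 (by linarith)
  calc (1 + r) ^ k * Real.exp (-u) ≤ ((1 + B0) * u) ^ k * Real.exp (-u) := by gcongr
    _ = (1 + B0) ^ k * (u ^ k * Real.exp (-u)) := by rw [mul_pow]; ring
    _ ≤ (1 + B0) ^ k * ((2 ^ k * k.factorial * Real.exp (u / 2)) * Real.exp (-u)) := by gcongr
    _ = (1 + B0) ^ k * (2 ^ k * k.factorial) * (Real.exp (-(u / 4)) * Real.exp (-(u / 4))) := by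
        rw [← Real.exp_add]
        have : Real.exp (u / 2) * Real.exp (-u) = Real.exp (-(u / 4) + -(u / 4)) := by
          rw [← Real.exp_add]
          congr 1
          ring
        rw [← this]
        ring
    _ ≤ (1 + B0) ^ k * (2 ^ k * k.factorial) * (Real.exp (-(K2 / 4)) * (4 / u)) := by gcongr
    _ = _ := by ring

/-- **the integers with a large part** -/
theorem type2 (k : ℕ) (hk : 1 ≤ k) : ∃ K y0 : ℕ, 1 ≤ K ∧ ∀ (w : ℕ) (h : Fin k → ℕ), 12 * k + 144 ≤ w → Adm w h →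
    ∃ Cw : ℝ, 1 ≤ Cw ∧ ∀ K2 B0 : ℕ, 1 ≤ K2 → ∀ y ys N : ℕ, y0 ≤ ys → w ≤ ys → ys ≤ y → 1 ≤ PS w ys →
    1 ≤ N → N + w ≤ (y ^ K2) ^ B0 → ∀ a H : Fin k → ℕ, (∀ i, 1 ≤ H i) →
    (((Icc 1 N).filter (fun n => (∀ i, a i ≤ cardFactors (n + h i) ∧ cardFactors (n + h i) < a i + H i) ∧
      (∃ i, (y ^ K2) ^ 2 < sm w y (n + h i)) ∧ (∀ i, sm 0 ys (n + h i) ≤ y ^ K2) ∧
      ∀ i, ∀ p ∈ PP 0 y, p ^ (n + h i).factorization p ≤ y ^ K2)).card : ℝ) ≤
      Cw * ((1 + B0) ^ k * (2 ^ k * k.factorial)) * Real.exp (-(K2 / 4)) * N * (∏ i, (H i : ℝ)) * (1 / √(PS w ys)) ^ k +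
        k * y * (((y ^ K2 : ℕ) : ℝ) ^ k * ((((y ^ K2) ^ 2 : ℕ) : ℝ) ^ k * ((y : ℝ) ^ K + k + 3))) := by
  classical
  obtain ⟨K, y0, hK, hcell⟩ := cellW k hk
  obtain ⟨c2, hc2⟩ := Pool.Agent.Helper256.KM.mertens_log
  obtain ⟨y1, hy1⟩ := Filter.eventually_atTop.1 ((Real.tendsto_log_atTop.comp
    tendsto_natCast_atTop_atTop).eventually_ge_atTop c2 : ∀ᶠ y : ℕ in Filter.atTop, c2 ≤ Real.log (y : ℝ))
  refine ⟨K, max y0 (max y1 3), hK, ?_⟩
  intro w h hw hadm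
  obtain ⟨Cs, hCs, hsv⟩ := SV_sum k w hk
  have hC1 := C1_pos
  have hk1 : (1 : ℝ) ≤ k := by exact_mod_cast hk
  refine ⟨16 * k * Cs * C1 ^ k, ?_, ?_⟩
  · have := one_le_pow₀ hC1 (n := k)
    have h3 : (1 : ℝ) ≤ 16 * k := by linarith
    calc (1 : ℝ) = 1 * 1 * 1 := by norm_num
      _ ≤ 16 * k * Cs * C1 ^ k := by gcongr
  intro K2 B0 hK2 y ys N hys hwys hysy hPS hN hNB a H hH
  have hy0 : y0 ≤ ys := (le_max_left _ _).trans hys
  have hy1' : y1 ≤ ys := ((le_max_left _ _).trans (le_max_right _ _)).trans hys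
  have hys3 : 3 ≤ ys := ((le_max_right _ _).trans (le_max_right _ _)).trans hys
  have hy3 : 3 ≤ y := hys3.trans hysy
  obtain ⟨Z1, hZ1⟩ : ∃ Z1, Z1 = y ^ K2 := ⟨_, rfl⟩
  have hly : 0 < Real.log y := Real.log_pos (by exact_mod_cast (by omega : 1 < y))
  have hK2R : (1 : ℝ) ≤ K2 := by exact_mod_cast hK2
  have hZ1pos : 1 ≤ Z1 := by rw [hZ1]; exact Nat.one_le_pow _ _ (by omega)
  have hlZ : Real.log Z1 = K2 * Real.log y := by
    rw [hZ1]
    push_cast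
    rw [Real.log_pow]
  have hlZ0 : 0 < Real.log Z1 := by rw [hlZ]; positivity
  rw [← hZ1]
  rw [← hZ1] at hNB
  -- the sets
  set J : ℕ → (Fin k → ℕ) → Fin k → Finset ℕ := fun q s i =>
    Ico (a i - cardFactors (s i) - Nat.log (q + 1) (N + w)) (a i + H i - cardFactors (s i)) with hJ
  set U : ℕ → Fin k → Finset ℕ := fun q i0 => (Icc 1 N).filter (fun n => n ≡ q * h i0 [MOD (q + 1)] ∧
    wp w h n ∈ SV k w Z1 0 ∧ (∀ i, sm w q (n + h i) ≤ Z1 ^ 2 ∧ cardFactors (sm w q (n + h i)) ∈ J q (wp w h n) i) ∧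
    (Z1 : ℝ) ≤ sm w q (n + h i0)) with hU
  have hsub : (Icc 1 N).filter (fun n => (∀ i, a i ≤ cardFactors (n + h i) ∧ cardFactors (n + h i) < a i + H i) ∧
      (∃ i, Z1 ^ 2 < sm w y (n + h i)) ∧ (∀ i, sm 0 ys (n + h i) ≤ Z1) ∧
      ∀ i, ∀ p ∈ PP 0 y, p ^ (n + h i).factorization p ≤ Z1) ⊆
      (PP ys y).biUnion (fun p => univ.biUnion (fun i0 => U (p - 1) i0)) := by
    intro n hn
    rw [mem_filter, mem_Icc] at hn
    obtain ⟨⟨hn1, hnN⟩, hbox, h1, h2, h3⟩ := hn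
    obtain ⟨q, i0, c1, c2', c3, c4, c5, c6⟩ := critical hZ1pos h1 h2 h3
    rw [mem_biUnion]
    refine ⟨q + 1, mem_PP.2 ⟨⟨by omega, c2'⟩, c3⟩, ?_⟩
    rw [mem_biUnion]
    refine ⟨i0, mem_univ _, ?_⟩
    rw [Nat.add_sub_cancel, hU]
    simp only [mem_filter, mem_Icc]
    refine ⟨⟨hn1, hnN⟩, ?_, ?_, ?_, ?_⟩
    · have e1 : n + h i0 ≡ 0 [MOD (q + 1)] := (Nat.modEq_zero_iff_dvd).2 c4
      have e2 : q * h i0 + h i0 ≡ 0 [MOD (q + 1)] := by
        rw [Nat.modEq_zero_iff_dvd]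
        exact ⟨h i0, by ring⟩
      exact Nat.ModEq.add_right_cancel' (h i0) (e1.trans e2.symm)
    · exact wp_mem hk hwys h2 ⟨⟨0, hk⟩, Nat.zero_le _⟩
    · intro i
      refine ⟨c5 i, ?_⟩
      rw [hJ]
      simp only [mem_Ico]
      have e1 := om_split (w := w) (y := q) (n := n + h i) (hwys.trans c1) (by omega)
      rw [X_sm] at e1
      have e2 : Y q (n + h i) ≤ Nat.log (q + 1) (N + w) := by
        apply Y_le (by omega)
        calc n + h i ≤ N + w := by have := hadm.2 i; omega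
          _ < _ := Nat.lt_pow_succ_log_self c3.one_lt _
      have e3 := hbox i
      have e4 : wp w h n i = sm 0 w (n + h i) := rfl
      rw [e4]
      omega
    · exact_mod_cast c6.le
  -- the bound of one set
  have hone : ∀ p ∈ PP ys y, ∀ i0, ((U (p - 1) i0).card : ℝ) ≤
      8 * Cs * C1 ^ k * ((1 + B0) ^ k * (2 ^ k * k.factorial)) * Real.exp (-(K2 / 4)) * N * (∏ i, (H i : ℝ)) *
        (1 / √(PS w ys)) ^ k / Real.log Z1 * (Real.log p / p) +
        (Z1 : ℝ) ^ k * (((Z1 ^ 2 : ℕ) : ℝ) ^ k * ((y : ℝ) ^ K + k + 3)) := by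
    intro p hp i0
    obtain ⟨⟨hp1, hp2⟩, hpp⟩ := mem_PP.1 hp
    obtain ⟨q, rfl⟩ : ∃ q, p = q + 1 := ⟨p - 1, by omega⟩
    rw [Nat.add_sub_cancel]
    have hq1 : ys ≤ q := by omega
    have hPSq : PS w ys ≤ PS w q := PS_mono hq1
    have hp0 : (0 : ℝ) < ((q + 1 : ℕ) : ℝ) := by exact_mod_cast hpp.pos
    have hlp : 0 < Real.log ((q + 1 : ℕ) : ℝ) := Real.log_pos (by exact_mod_cast hpp.one_lt)
    have hlq : 0 < Real.log (q : ℝ) := Real.log_pos (by exact_mod_cast (by omega : 1 < q))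
    obtain ⟨r, hr⟩ : ∃ r : ℕ, r = Nat.log (q + 1) (N + w) := ⟨_, rfl⟩
    have h3 := hcell w h hw hadm q N (Z1 ^ 2) (q + 1) (q * h i0) (hy0.trans hq1) (hwys.trans hq1) (hPS.trans hPSq)
      (Or.inr ⟨hpp, by omega⟩) (SV k w Z1 0) (J q) (fun i => (H i : ℝ) + r) (by
        intro s _ i
        rw [hJ]
        simp only [Nat.card_Ico]
        rw [← hr]
        have : a i + H i - cardFactors (s i) - (a i - cardFactors (s i) - r) ≤ H i + r := by omega
        exact_mod_cast this) i0 (Z1 : ℝ) (by exact_mod_cast hZ1pos)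
    -- the size of r
    obtain ⟨u, hu⟩ : ∃ u : ℝ, u = Real.log Z1 / Real.log ((q + 1 : ℕ) : ℝ) := ⟨_, rfl⟩
    have hlpy : Real.log ((q + 1 : ℕ) : ℝ) ≤ Real.log y := Real.log_le_log hp0 (by exact_mod_cast hp2)
    have huK : (K2 : ℝ) ≤ u := by
      rw [hu, le_div_iff₀ hlp, hlZ]
      gcongr
    have hu0 : 0 < u := by linarith
    have hru : (r : ℝ) ≤ B0 * u := by
      have h5 : (q + 1) ^ r ≤ N + w := by rw [hr]; exact Nat.pow_log_le_self _ (by omega)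
      have h6 : (q + 1) ^ r ≤ Z1 ^ B0 := h5.trans hNB
      have h7 : Real.log (((q + 1 : ℕ) : ℝ) ^ r) ≤ Real.log ((Z1 : ℝ) ^ B0) := by
        apply Real.log_le_log (by positivity)
        exact_mod_cast h6
      rw [Real.log_pow, Real.log_pow] at h7
      rw [hu, mul_div_assoc', le_div_iff₀ hlp]
      exact h7
    have hnum := num_part (k := k) (B0 := B0) hK2R huK (Nat.cast_nonneg r) hru
    have hprod : (∏ i, ((H i : ℝ) + r)) ≤ (∏ i, (H i : ℝ)) * (1 + r) ^ k := by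
      calc (∏ i, ((H i : ℝ) + r)) ≤ ∏ i, ((H i : ℝ) * (1 + r)) := by
            apply Finset.prod_le_prod
            · intro i _; positivity
            · intro i _
              have : (1 : ℝ) ≤ H i := by exact_mod_cast hH i
              have hr0 : (0 : ℝ) ≤ r := Nat.cast_nonneg r
              nlinarith
        _ = _ := by rw [prod_mul_distrib, prod_const, card_univ, Fintype.card_fin]
    have hZr : (Z1 : ℝ) ^ (-(1 / Real.log q)) ≤ Real.exp (-u) := by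
      rw [Real.rpow_def_of_pos (by exact_mod_cast hZ1pos)]
      apply Real.exp_le_exp.2
      rw [hu, mul_neg, neg_le_neg_iff, mul_one_div]
      apply div_le_div_of_nonneg_left hlZ0.le hlq
      exact Real.log_le_log (by exact_mod_cast (by omega : 0 < q)) (by push_cast; linarith)
    have hsv0 := hsv Z1 0
    have e0 : (2 : ℝ) ^ (-(((0 : ℕ) : ℝ) / (2 * k))) = 1 := by simp
    rw [e0, mul_one] at hsv0
    have hsvn : 0 ≤ ∑ s ∈ SV k w Z1 0, ∏ i, (s i : ℝ) ^ (-(1 / (k : ℝ))) :=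
      sum_nonneg fun s _ => prod_nonneg fun i _ => by positivity
    have hPS0 : 0 < √(PS w ys) := Real.sqrt_pos.2 (by linarith)
    have hsq : (C1 / √(PS w q)) ^ k ≤ C1 ^ k * (1 / √(PS w ys)) ^ k := by
      rw [← mul_pow, mul_one_div]
      apply pow_le_pow_left₀ (by positivity)
      exact div_le_div_of_nonneg_left (by linarith) hPS0 (Real.sqrt_le_sqrt hPSq)
    have hHn : 0 ≤ ∏ i, (H i : ℝ) := prod_nonneg fun i _ => Nat.cast_nonneg _
    have hmain : 2 * ((N : ℝ) / ((q + 1 : ℕ) : ℝ)) * (∑ s ∈ SV k w Z1 0, ∏ i, (s i : ℝ) ^ (-(1 / (k : ℝ)))) *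
        ((∏ i, ((H i : ℝ) + r)) * (C1 / √(PS w q)) ^ k * (Z1 : ℝ) ^ (-(1 / Real.log q))) ≤
        8 * Cs * C1 ^ k * ((1 + B0) ^ k * (2 ^ k * k.factorial)) * Real.exp (-(K2 / 4)) * N * (∏ i, (H i : ℝ)) *
        (1 / √(PS w ys)) ^ k / Real.log Z1 * (Real.log ((q + 1 : ℕ) : ℝ) / ((q + 1 : ℕ) : ℝ)) := by
      have hZr0 : 0 ≤ (Z1 : ℝ) ^ (-(1 / Real.log q)) := by positivity
      have hpr0 : 0 ≤ ∏ i, ((H i : ℝ) + r) := prod_nonneg fun i _ => by positivity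
      calc 2 * ((N : ℝ) / ((q + 1 : ℕ) : ℝ)) * (∑ s ∈ SV k w Z1 0, ∏ i, (s i : ℝ) ^ (-(1 / (k : ℝ)))) *
          ((∏ i, ((H i : ℝ) + r)) * (C1 / √(PS w q)) ^ k * (Z1 : ℝ) ^ (-(1 / Real.log q)))
          ≤ 2 * ((N : ℝ) / ((q + 1 : ℕ) : ℝ)) * Cs *
          (((∏ i, (H i : ℝ)) * (1 + r) ^ k) * (C1 ^ k * (1 / √(PS w ys)) ^ k) * Real.exp (-u)) := by gcongr
        _ = 2 * ((N : ℝ) / ((q + 1 : ℕ) : ℝ)) * Cs * (∏ i, (H i : ℝ)) * (C1 ^ k * (1 / √(PS w ys)) ^ k) *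
            ((1 + r) ^ k * Real.exp (-u)) := by ring
        _ ≤ 2 * ((N : ℝ) / ((q + 1 : ℕ) : ℝ)) * Cs * (∏ i, (H i : ℝ)) * (C1 ^ k * (1 / √(PS w ys)) ^ k) *
            ((1 + B0) ^ k * (2 ^ k * k.factorial) * Real.exp (-(K2 / 4)) * (4 / u)) := by
            apply mul_le_mul_of_nonneg_left hnum
            positivity
        _ = _ := by
            rw [hu]
            field_simp
            ring
    have herr : ((SV k w Z1 0).card : ℝ) * (((Z1 ^ 2 : ℕ) : ℝ) ^ k * ((q : ℝ) ^ K + k + 3)) ≤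
        (Z1 : ℝ) ^ k * (((Z1 ^ 2 : ℕ) : ℝ) ^ k * ((y : ℝ) ^ K + k + 3)) := by
      have h8 : ((SV k w Z1 0).card : ℝ) ≤ (Z1 : ℝ) ^ k := by exact_mod_cast SV_card k w Z1 0
      have h9 : (q : ℝ) ≤ y := by exact_mod_cast (by omega : q ≤ y)
      gcongr
    calc ((U q i0).card : ℝ) ≤ _ := h3
      _ ≤ _ := add_le_add hmain herr
  obtain ⟨E, hE⟩ : ∃ E : ℝ, E = 8 * Cs * C1 ^ k * ((1 + B0) ^ k * (2 ^ k * k.factorial)) * Real.exp (-(K2 / 4)) * N *
    (∏ i, (H i : ℝ)) * (1 / √(PS w ys)) ^ k := ⟨_, rfl⟩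
  have hHn : 0 ≤ ∏ i, (H i : ℝ) := prod_nonneg fun i _ => Nat.cast_nonneg _
  have hE0 : 0 ≤ E := by rw [hE]; positivity
  obtain ⟨F, hF⟩ : ∃ F : ℝ, F = (Z1 : ℝ) ^ k * (((Z1 ^ 2 : ℕ) : ℝ) ^ k * ((y : ℝ) ^ K + k + 3)) := ⟨_, rfl⟩
  have hF0 : 0 ≤ F := by rw [hF]; positivity
  rw [← hF]
  have hone' : ∀ p ∈ PP ys y, ∀ i0, ((U (p - 1) i0).card : ℝ) ≤ E / Real.log Z1 * (Real.log p / p) + F := by
    intro p hp i0
    rw [hE, hF]
    exact hone p hp i0
  have hlogsum : ∑ p ∈ PP ys y, Real.log p / p ≤ 2 * Real.log y := by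
    have h5 := (abs_le.1 (hc2 y (by omega))).2
    have h6 : ∑ p ∈ PP ys y, Real.log p / p ≤ ∑ p ∈ (Icc 1 y).filter Nat.Prime, Real.log p / p := by
      apply sum_le_sum_of_subset_of_nonneg
      · intro l hl
        rw [mem_PP] at hl
        rw [mem_filter, mem_Icc]
        exact ⟨⟨hl.2.one_lt.le, hl.1.2⟩, hl.2⟩
      · intro l hl _
        rw [mem_filter] at hl
        exact div_nonneg (Real.log_nonneg (by exact_mod_cast hl.2.one_lt.le)) (Nat.cast_nonneg _)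
    have h7 : c2 ≤ Real.log y := hy1 y (hy1'.trans hysy)
    linarith
  have hPPy : ((PP ys y).card : ℝ) ≤ y := by
    have : (PP ys y).card ≤ y := by
      unfold PP
      refine (card_filter_le _ _).trans ?_
      simp
    exact_mod_cast this
  calc _ ≤ (((PP ys y).biUnion (fun p => univ.biUnion (fun i0 => U (p - 1) i0))).card : ℝ) := by
        exact_mod_cast card_le_card hsub
    _ ≤ ∑ p ∈ PP ys y, ((univ.biUnion (fun i0 => U (p - 1) i0)).card : ℝ) := by exact_mod_cast card_biUnion_le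
    _ ≤ ∑ p ∈ PP ys y, ∑ i0 : Fin k, ((U (p - 1) i0).card : ℝ) := by
        apply sum_le_sum
        intro p _
        exact_mod_cast card_biUnion_le
    _ ≤ ∑ p ∈ PP ys y, ∑ _i0 : Fin k, (E / Real.log Z1 * (Real.log p / p) + F) := by
        apply sum_le_sum
        intro p hp
        apply sum_le_sum
        intro i0 _
        exact hone' p hp i0
    _ = k * (E / Real.log Z1 * ∑ p ∈ PP ys y, Real.log p / p) + k * ((PP ys y).card * F) := by
        simp only [sum_const, card_univ, Fintype.card_fin, nsmul_eq_mul]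
        rw [← mul_sum, sum_add_distrib, ← mul_sum, sum_const, nsmul_eq_mul]
        ring
    _ ≤ k * (E / Real.log Z1 * (2 * Real.log y)) + k * (y * F) := by gcongr
    _ ≤ k * (2 * E) + k * (y * F) := by
        have h8 : E / Real.log Z1 * (2 * Real.log y) ≤ 2 * E := by
          rw [hlZ]
          have : E / (K2 * Real.log y) * (2 * Real.log y) = 2 * E / K2 := by
            field_simp
          rw [this, div_le_iff₀ (by linarith)]
          nlinarith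
        gcongr
    _ = _ := by
        rw [hE]
        ring

end Pool.Agent.K4H18.LS
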