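import Pool.Agent.K4H18.LS.L11

/-! The parameters -/

set_option autoImplicit false

namespace Pool.Agent.K4H18.LS

open Finset Filter Topology
open Pool.Agent.W208.TL (PP sm)
open Pool.Agent.TH445.OI (P1)
open Pool.Agent.K4H18.AC (mem_PP rt rt_pow lt_rt rt_tendsto)

/-- the integer part of `exp (√(log N))` -/
noncomputable def ysN (N : ℕ) : ℕ := ⌊Real.exp (√(Real.log N))⌋₊

lemma tlog : Tendsto (fun N : ℕ => Real.log (N : ℝ)) atTop atTop := Real.tendsto_log_atTop.comp tendsto_natCast_atTop_atTop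

lemma tsqrt : Tendsto (fun N : ℕ => √(Real.log (N : ℝ))) atTop atTop := Real.tendsto_sqrt_atTop.comp tlog

lemma tll : Tendsto (fun N : ℕ => Real.log (Real.log (N : ℝ))) atTop atTop := Real.tendsto_log_atTop.comp tlog

lemma tys : Tendsto ysN atTop atTop := tendsto_nat_floor_atTop.comp (Real.tendsto_exp_atTop.comp tsqrt)

lemma log_succ_le {y : ℕ} (hy : 2 ≤ y) : Real.log ((y : ℝ) + 1) ≤ 2 * Real.log y := by
  have h0 : (2 : ℝ) ≤ y := by exact_mod_cast hy
  have h1 : Real.log ((y : ℝ) + 1) ≤ Real.log ((y : ℝ) ^ 2) := Real.log_le_log (by positivity) (by nlinarith)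
  rw [Real.log_pow] at h1
  exact_mod_cast h1

lemma log_rt {A N : ℕ} (hA : 1 ≤ A) (hN : 1 ≤ N) (hy : 2 ≤ rt A N) : Real.log N / (2 * A) ≤ Real.log (rt A N) := by
  have hA0 : (0 : ℝ) < A := by exact_mod_cast hA
  have h1 := lt_rt hA N
  have h2 : Real.log (N : ℝ) ≤ Real.log (((rt A N : ℝ) + 1) ^ A) :=
    Real.log_le_log (by exact_mod_cast hN) (by exact_mod_cast h1.le)
  rw [Real.log_pow] at h2
  have h3 := log_succ_le hy
  rw [div_le_iff₀ (by positivity)]
  nlinarith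

lemma log_ys {N : ℕ} (hy : 2 ≤ ysN N) : √(Real.log N) / 2 ≤ Real.log (ysN N) := by
  have h1 : Real.exp (√(Real.log N)) < (ysN N : ℝ) + 1 := Nat.lt_floor_add_one _
  have h2 : √(Real.log N) ≤ Real.log ((ysN N : ℝ) + 1) := by
    rw [← Real.log_exp (√(Real.log N))]
    exact Real.log_le_log (Real.exp_pos _) h1.le
  have h3 := log_succ_le hy
  linarith

lemma PS_eq {w y : ℕ} (h : w ≤ y) : PS w y = P1 y - P1 w := Pool.Agent.K4H18.AC.sum_PP h

theorem facts (k w A : ℕ) (hA : 1 ≤ A) (c : ℝ) (hc : 0 < c) (M0 : ℕ) (v0 : ℝ) : ∃ N0 : ℕ, ∀ N : ℕ, N0 ≤ N →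
    v0 ≤ Real.log (Real.log N) ∧ M0 ≤ ysN N ∧ ysN N ≤ rt A N ∧ Real.log (Real.log N) / 4 ≤ PS w (ysN N) ∧
    N + w ≤ (rt A N) ^ (A + 1) ∧ N + w < (rt A N + 1) ^ (A + 1) ∧ √(Real.log (Real.log N)) ^ k ≤ c * √(Real.log N) ∧
    Real.log (ysN N) ≤ √(Real.log N) ∧ Real.log N / (2 * A) ≤ Real.log (rt A N) ∧ √(Real.log N) ≤ rt A N ∧
    1 ≤ N ∧ w ≤ N ∧ √(Real.log N) ≤ √(N : ℝ) := by
  obtain ⟨c1, hc1⟩ := Pool.Agent.Helper256.KM.mertens_inv
  have hA0 : (0 : ℝ) < A := by exact_mod_cast hA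
  have e1 : ∀ᶠ N : ℕ in atTop, v0 ≤ Real.log (Real.log N) := tll.eventually_ge_atTop v0
  have e1' : ∀ᶠ N : ℕ in atTop, 4 * (Real.log 2 + c1 + P1 w) ≤ Real.log (Real.log N) := tll.eventually_ge_atTop _
  have e2 : ∀ᶠ N : ℕ in atTop, max M0 (max 3 w) ≤ ysN N := tys.eventually_ge_atTop _
  have e3 : ∀ᶠ N : ℕ in atTop, max 2 (2 ^ A + w) ≤ rt A N := (rt_tendsto hA).eventually_ge_atTop _
  have e4 : ∀ᶠ N : ℕ in atTop, max 1 (2 * (A : ℝ)) ≤ √(Real.log N) := tsqrt.eventually_ge_atTop _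
  have e5 : ∀ᶠ x : ℝ in atTop, Real.log x ^ k ≤ c ^ 2 * x := by
    have := (Real.isLittleO_pow_log_id_atTop (n := k)).bound (show (0 : ℝ) < c ^ 2 by positivity)
    filter_upwards [this, eventually_ge_atTop (1 : ℝ)] with x hx hx1
    simp only [id_eq, Real.norm_eq_abs] at hx
    rw [abs_of_nonneg (pow_nonneg (Real.log_nonneg hx1) _), abs_of_nonneg (by linarith)] at hx
    exact hx
  have e5' : ∀ᶠ N : ℕ in atTop, Real.log (Real.log N) ^ k ≤ c ^ 2 * Real.log N := tlog.eventually e5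
  have e6 : ∀ᶠ N : ℕ in atTop, max 1 w ≤ N := eventually_ge_atTop _
  have e7 : ∀ᶠ N : ℕ in atTop, 0 ≤ Real.log (Real.log N) := tll.eventually_ge_atTop 0
  obtain ⟨N0, hN0⟩ := eventually_atTop.1 (e1.and (e1'.and (e2.and (e3.and (e4.and (e5'.and (e6.and e7)))))))
  refine ⟨N0, ?_⟩
  intro N hN
  obtain ⟨a1, a1', a2, a3, a4, a5, a6, a7⟩ := hN0 N hN
  have hN1 : 1 ≤ N := (le_max_left _ _).trans a6
  have hN0R : (0 : ℝ) < N := by exact_mod_cast hN1
  have hys3 : 3 ≤ ysN N := ((le_max_left _ _).trans (le_max_right _ _)).trans a2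
  have hysw : w ≤ ysN N := ((le_max_right _ _).trans (le_max_right _ _)).trans a2
  have hy2 : 2 ≤ rt A N := (le_max_left _ _).trans a3
  have hyA : 2 ^ A + w ≤ rt A N := (le_max_right _ _).trans a3
  have hs1 : 1 ≤ √(Real.log N) := (le_max_left _ _).trans a4
  have hsA : 2 * (A : ℝ) ≤ √(Real.log N) := (le_max_right _ _).trans a4
  have hL0 : 0 < Real.log N := by
    by_contra hcon
    rw [Real.sqrt_eq_zero_of_nonpos (by linarith)] at hs1
    linarith
  have hss : √(Real.log N) * √(Real.log N) = Real.log N := Real.mul_self_sqrt hL0.le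
  have hlogy := log_rt hA hN1 hy2
  have hsL : √(Real.log N) ≤ Real.log N / (2 * A) := by
    rw [le_div_iff₀ (by positivity)]
    nlinarith
  have hy0 : (0 : ℝ) < rt A N := by exact_mod_cast (by omega : 0 < rt A N)
  have hexp : Real.exp (√(Real.log N)) ≤ rt A N := by
    rw [← Real.log_exp (√(Real.log N))] at hsL
    have h5 : Real.log (Real.exp (√(Real.log N))) ≤ Real.log (rt A N) := hsL.trans hlogy
    exact (Real.log_le_log_iff (Real.exp_pos _) hy0).1 h5
  have hLsq : 0 < √(Real.log N) := by linarith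
  refine ⟨a1, (le_max_left _ _).trans a2, ?_, ?_, ?_, ?_, ?_, ?_, hlogy, ?_, hN1, (le_max_right _ _).trans a6, ?_⟩
  · have h5 : (ysN N : ℝ) ≤ Real.exp (√(Real.log N)) := Nat.floor_le (Real.exp_nonneg _)
    exact_mod_cast h5.trans hexp
  · rw [PS_eq hysw]
    have h5 := (abs_le.1 (hc1 (ysN N) hys3)).1
    have h6 : P1 (ysN N) = ∑ p ∈ (Icc 1 (ysN N)).filter Nat.Prime, (1 : ℝ) / p := rfl
    rw [← h6] at h5
    have h7 := log_ys (N := N) (by omega)
    have h8 : Real.log (√(Real.log N) / 2) ≤ Real.log (Real.log (ysN N)) := Real.log_le_log (by positivity) h7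
    rw [Real.log_div hLsq.ne' (by norm_num), Real.log_sqrt hL0.le] at h8
    linarith
  · have h5 := lt_rt hA N
    have h6 : (rt A N + 1) ^ A ≤ 2 ^ A * (rt A N) ^ A := by
      rw [← Nat.mul_pow]
      exact Nat.pow_le_pow_left (by omega) _
    have h7 : 1 ≤ (rt A N) ^ A := Nat.one_le_pow _ _ (by omega)
    calc N + w ≤ 2 ^ A * (rt A N) ^ A + w * (rt A N) ^ A := by nlinarith
      _ = (2 ^ A + w) * (rt A N) ^ A := by ring
      _ ≤ rt A N * (rt A N) ^ A := Nat.mul_le_mul_right _ hyA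
      _ = _ := by rw [pow_succ, mul_comm]
  · have h5 := lt_rt hA N
    have h7 : 1 ≤ (rt A N + 1) ^ A := Nat.one_le_pow _ _ (by omega)
    have h8 : w ≤ rt A N := by
      have : 0 < 2 ^ A := by positivity
      omega
    calc N + w < (rt A N + 1) ^ A + w := by omega
      _ ≤ (rt A N + 1) ^ A + rt A N * (rt A N + 1) ^ A := by nlinarith
      _ = _ := by rw [pow_succ]; ring
  · have h5 : √(Real.log (Real.log N)) ^ k = √(Real.log (Real.log N) ^ k) := by
      rw [Real.sqrt_eq_rpow, Real.sqrt_eq_rpow, ← Real.rpow_natCast, ← Real.rpow_natCast, ← Real.rpow_mul a7,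
        ← Real.rpow_mul a7]
      congr 1
      ring
    rw [h5]
    calc √(Real.log (Real.log N) ^ k) ≤ √(c ^ 2 * Real.log N) := Real.sqrt_le_sqrt a5
      _ = _ := by rw [Real.sqrt_mul (by positivity), Real.sqrt_sq hc.le]
  · have h5 : (ysN N : ℝ) ≤ Real.exp (√(Real.log N)) := Nat.floor_le (Real.exp_nonneg _)
    have h6 : Real.log (ysN N) ≤ Real.log (Real.exp (√(Real.log N))) :=
      Real.log_le_log (by exact_mod_cast (by omega : 0 < ysN N)) h5
    rwa [Real.log_exp] at h6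
  · have h5 := Real.add_one_le_exp (√(Real.log N))
    linarith
  · apply Real.sqrt_le_sqrt
    have := Real.log_le_sub_one_of_pos hN0R
    linarith

/-- the sum of the `1 / l` is close to `log log N` -/
theorem PS_near (w A : ℕ) (hA : 1 ≤ A) : ∃ (C : ℝ) (N0 : ℕ), 0 ≤ C ∧ ∀ N : ℕ, N0 ≤ N → |PS w (rt A N) - Real.log (Real.log N)| ≤ C := by
  obtain ⟨c1, hc1⟩ := Pool.Agent.Helper256.KM.mertens_inv
  have hc10 : 0 ≤ c1 := (abs_nonneg _).trans (hc1 3 le_rfl)
  have hA0 : (1 : ℝ) ≤ A := by exact_mod_cast hA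
  have hPw := Pool.Agent.TH445.OI.P1_nonneg w
  have hlA : 0 ≤ Real.log (2 * A) := Real.log_nonneg (by linarith)
  obtain ⟨N0, hN0⟩ := facts 0 w A hA 1 one_pos 3 4
  obtain ⟨N1, hN1⟩ := eventually_atTop.1 ((rt_tendsto hA).eventually_ge_atTop (max 3 w))
  refine ⟨Real.log (2 * A) + c1 + P1 w, max N0 N1, by linarith, ?_⟩
  intro N hN
  obtain ⟨a1, a2, a3, _, _, _, _, _, a4, _, a5, _⟩ := hN0 N ((le_max_left _ _).trans hN)
  have h1 := hN1 N ((le_max_right _ _).trans hN)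
  have hy3 : 3 ≤ rt A N := (le_max_left _ _).trans h1
  have hyw : w ≤ rt A N := (le_max_right _ _).trans h1
  rw [PS_eq hyw]
  have h5 := abs_le.1 (hc1 (rt A N) hy3)
  have h6 : P1 (rt A N) = ∑ p ∈ (Icc 1 (rt A N)).filter Nat.Prime, (1 : ℝ) / p := rfl
  rw [← h6] at h5
  have hL1 : 1 ≤ Real.log N := by
    by_contra hcon
    push Not at hcon
    rcases le_or_gt (Real.log N) 0 with h7 | h7
    · have hN1' : (1 : ℝ) ≤ N := by exact_mod_cast a5
      have := Real.log_nonneg hN1'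
      have h8 : Real.log N = 0 := by linarith
      rw [h8, Real.log_zero] at a1
      linarith
    · have := Real.log_neg h7 hcon
      linarith
  have hLpos : 0 < Real.log N := by linarith
  have hlow : Real.log (Real.log N) - Real.log (2 * A) ≤ Real.log (Real.log (rt A N)) := by
    rw [← Real.log_div hLpos.ne' (by positivity)]
    exact Real.log_le_log (by positivity) a4
  have hup : Real.log (Real.log (rt A N)) ≤ Real.log (Real.log N) := by
    apply Real.log_le_log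
    · exact Real.log_pos (by exact_mod_cast (by omega : 1 < rt A N))
    · apply Real.log_le_log (by exact_mod_cast (by omega : 0 < rt A N))
      have h7 : rt A N ≤ N := (Nat.le_self_pow (by omega) _).trans (rt_pow hA N)
      exact_mod_cast h7
  rw [abs_le]
  constructor <;> linarith [h5.1, h5.2]

end Pool.Agent.K4H18.LS
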