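import Pool.Agent.K4H18.LS.L12

/-! Boxes -/

set_option autoImplicit false

namespace Pool.Agent.K4H18.LS

open Finset
open ArithmeticFunction (cardFactors)
open Pool.Agent.W208.TL (PP sm)
open Pool.Agent.TH445.OI (X Y)
open Pool.Agent.K4H18.AC (mem_PP Adm om_split Y_le)

/-- the integers of a box -/
def Bx {k : ℕ} (N : ℕ) (h a H : Fin k → ℕ) : Finset ℕ :=
  (Icc 1 N).filter (fun n => ∀ i, a i ≤ cardFactors (n + h i) ∧ cardFactors (n + h i) < a i + H i)

/-- the integers with all the parts small and one large value on the small primes -/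
noncomputable def T1 {k : ℕ} (N w y Z1 R' : ℕ) (h : Fin k → ℕ) (J : (Fin k → ℕ) → Fin k → Finset ℕ) (i0 : Fin k) : Finset ℕ :=
  (Icc 1 N).filter (fun n => n ≡ 0 [MOD 1] ∧ wp w h n ∈ SV k w Z1 R' ∧
      (∀ i, sm w y (n + h i) ≤ Z1 ^ 2 ∧ cardFactors (sm w y (n + h i)) ∈ J (wp w h n) i) ∧ (1 : ℝ) ≤ sm w y (n + h i0))

/-- the integers with a large part -/
noncomputable def T2 {k : ℕ} (N w y ys Z1 : ℕ) (h a H : Fin k → ℕ) : Finset ℕ :=
  (Icc 1 N).filter (fun n => (∀ i, a i ≤ cardFactors (n + h i) ∧ cardFactors (n + h i) < a i + H i) ∧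
      (∃ i, Z1 ^ 2 < sm w y (n + h i)) ∧ (∀ i, sm 0 ys (n + h i) ≤ Z1) ∧
      ∀ i, ∀ p ∈ PP 0 y, p ^ (n + h i).factorization p ≤ Z1)

noncomputable def G1 (N ys Z1 a : ℕ) : Finset ℕ := (Icc 1 N).filter (fun n => Z1 < sm 0 ys (n + a))

noncomputable def G3 (N y Z1 a : ℕ) : Finset ℕ :=
  (Icc 1 N).filter (fun n => ∃ p ∈ PP 0 y, Z1 < p ^ (n + a).factorization p)

lemma box_upper {k : ℕ} (hk : 1 ≤ k) {N w y ys Z1 A R' : ℕ} {h a H : Fin k → ℕ} (hh : ∀ i, h i ≤ w) (hw : w ≤ ys)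
    (hys : ys ≤ y) (hN : N + w < (y + 1) ^ (A + 1)) (i0 : Fin k) :
    Bx N h a H ⊆ cellS N w y (Z1 ^ 2) 1 0 h (fun i => Ico (a i - (R' + A)) (a i + H i)) ∪
      T1 N w y Z1 R' h (fun s i => Ico (a i - cardFactors (s i) - A) (a i + H i - cardFactors (s i))) i0 ∪
      T2 N w y ys Z1 h a H ∪ univ.biUnion (fun i => G1 N ys Z1 (h i)) ∪ univ.biUnion (fun i => G3 N y Z1 (h i)) := by
  classical
  intro n hn
  unfold Bx at hn
  rw [mem_filter, mem_Icc] at hn
  obtain ⟨⟨hn1, hnN⟩, hbox⟩ := hn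
  by_cases hG1 : ∃ i, Z1 < sm 0 ys (n + h i)
  · obtain ⟨i, hi⟩ := hG1
    apply mem_union_left
    apply mem_union_right
    rw [mem_biUnion]
    exact ⟨i, mem_univ _, mem_filter.2 ⟨mem_Icc.2 ⟨hn1, hnN⟩, hi⟩⟩
  by_cases hG3 : ∃ i, ∃ p ∈ PP 0 y, Z1 < p ^ (n + h i).factorization p
  · obtain ⟨i, hi⟩ := hG3
    apply mem_union_right
    rw [mem_biUnion]
    exact ⟨i, mem_univ _, mem_filter.2 ⟨mem_Icc.2 ⟨hn1, hnN⟩, hi⟩⟩
  push Not at hG1 hG3
  apply mem_union_left
  apply mem_union_left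
  by_cases hT2 : ∃ i, Z1 ^ 2 < sm w y (n + h i)
  · apply mem_union_right
    unfold T2
    rw [mem_filter, mem_Icc]
    exact ⟨⟨hn1, hnN⟩, hbox, hT2, hG1, hG3⟩
  push Not at hT2
  apply mem_union_left
  have hsplit : ∀ i, cardFactors (sm 0 w (n + h i)) + cardFactors (sm w y (n + h i)) + Y y (n + h i) = cardFactors (n + h i) := by
    intro i
    have e1 := om_split (w := w) (y := y) (n := n + h i) (hw.trans hys) (by omega)
    rwa [X_sm] at e1
  have hY : ∀ i, Y y (n + h i) ≤ A := by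
    intro i
    apply Y_le (by omega)
    have := hh i
    omega
  by_cases hT1 : ∃ i, R' ≤ cardFactors (sm 0 w (n + h i))
  · apply mem_union_right
    unfold T1
    rw [mem_filter, mem_Icc]
    refine ⟨⟨hn1, hnN⟩, Nat.modEq_one, wp_mem hk hw hG1 hT1, ?_, ?_⟩
    · intro i
      refine ⟨hT2 i, ?_⟩
      have h1 := hsplit i
      have h2 := hY i
      have h3 := hbox i
      have e4 : wp w h n i = sm 0 w (n + h i) := rfl
      show cardFactors (sm w y (n + h i)) ∈ Ico (a i - cardFactors (wp w h n i) - A) (a i + H i - cardFactors (wp w h n i))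
      rw [e4, mem_Ico]
      omega
    · exact_mod_cast Pool.Agent.W975.TL.sm_pos _ _ _
  · push Not at hT1
    apply mem_union_left
    unfold cellS
    rw [mem_filter, mem_Icc]
    refine ⟨⟨hn1, hnN⟩, Nat.modEq_one, ?_⟩
    intro i
    refine ⟨hT2 i, ?_⟩
    have h1 := hsplit i
    have h2 := hY i
    have h3 := hbox i
    have h4 := hT1 i
    rw [mem_Ico]
    omega

lemma box_lower {k : ℕ} (hk : 1 ≤ k) {N w y ys Z1 A R' : ℕ} {h a H : Fin k → ℕ} (hh : ∀ i, h i ≤ w) (hw : w ≤ ys)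
    (hys : ys ≤ y) (hN : N + w < (y + 1) ^ (A + 1)) (i0 : Fin k) :
    cellS N w y (Z1 ^ 2) 1 0 h (fun i => Ico (a i) (a i + H i - (R' + A))) ⊆
      Bx N h a H ∪ T1 N w y Z1 R' h (fun _ i => Ico (a i) (a i + H i)) i0 ∪ univ.biUnion (fun i => G1 N ys Z1 (h i)) := by
  classical
  intro n hn
  unfold cellS at hn
  rw [mem_filter, mem_Icc] at hn
  obtain ⟨⟨hn1, hnN⟩, _, hcell⟩ := hn
  by_cases hG1 : ∃ i, Z1 < sm 0 ys (n + h i)
  · obtain ⟨i, hi⟩ := hG1
    apply mem_union_right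
    rw [mem_biUnion]
    exact ⟨i, mem_univ _, mem_filter.2 ⟨mem_Icc.2 ⟨hn1, hnN⟩, hi⟩⟩
  push Not at hG1
  apply mem_union_left
  have hsplit : ∀ i, cardFactors (sm 0 w (n + h i)) + cardFactors (sm w y (n + h i)) + Y y (n + h i) = cardFactors (n + h i) := by
    intro i
    have e1 := om_split (w := w) (y := y) (n := n + h i) (hw.trans hys) (by omega)
    rwa [X_sm] at e1
  have hY : ∀ i, Y y (n + h i) ≤ A := by
    intro i
    apply Y_le (by omega)
    have := hh i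
    omega
  by_cases hT1 : ∃ i, R' ≤ cardFactors (sm 0 w (n + h i))
  · apply mem_union_right
    unfold T1
    rw [mem_filter, mem_Icc]
    refine ⟨⟨hn1, hnN⟩, Nat.modEq_one, wp_mem hk hw hG1 hT1, ?_, ?_⟩
    · intro i
      refine ⟨(hcell i).1, ?_⟩
      have h3 := (hcell i).2
      rw [mem_Ico] at h3 ⊢
      omega
    · exact_mod_cast Pool.Agent.W975.TL.sm_pos _ _ _
  · push Not at hT1
    apply mem_union_left
    unfold Bx
    rw [mem_filter, mem_Icc]
    refine ⟨⟨hn1, hnN⟩, ?_⟩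
    intro i
    have h1 := hsplit i
    have h2 := hY i
    have h3 := (hcell i).2
    have h4 := hT1 i
    rw [mem_Ico] at h3
    omega

lemma cellS_sum {k : ℕ} (N w y Z L b : ℕ) (h : Fin k → ℕ) (J : Fin k → Finset ℕ) :
    (cellS N w y Z L b h J).card = ∑ m ∈ Fintype.piFinset J, (cellS N w y Z L b h (fun i => {m i})).card := by
  classical
  rw [card_eq_sum_card_fiberwise (f := fun n => fun i => cardFactors (sm w y (n + h i))) (t := Fintype.piFinset J)]
  · apply sum_congr rfl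
    intro m hm
    congr 1
    ext n
    unfold cellS
    rw [mem_filter, mem_filter, mem_filter]
    constructor
    · rintro ⟨⟨h1, h2, h3⟩, h4⟩
      refine ⟨h1, h2, fun i => ⟨(h3 i).1, ?_⟩⟩
      rw [mem_singleton]
      exact congrFun h4 i
    · rintro ⟨h1, h2, h3⟩
      refine ⟨⟨h1, h2, fun i => ⟨(h3 i).1, ?_⟩⟩, ?_⟩
      · have h5 := (h3 i).2
        rw [mem_singleton] at h5
        rw [h5]
        exact (Fintype.mem_piFinset.1 hm) i
      · funext i
        have h5 := (h3 i).2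
        rwa [mem_singleton] at h5
  · intro n hn
    rw [mem_coe] at hn
    unfold cellS at hn
    rw [mem_filter] at hn
    rw [mem_coe, Fintype.mem_piFinset]
    intro i
    exact (hn.2.2 i).2

/-- boxes of the values on the primes in `(w, y]` -/
theorem cellJ {k : ℕ} {N w y Z : ℕ} {h : Fin k → ℕ} {P E : ℝ}
    (hE : ∀ m : Fin k → ℕ, |((cellS N w y Z 1 0 h (fun i => {m i})).card : ℝ) - N * ∏ i, po P (m i)| ≤ E)
    (J : Fin k → Finset ℕ) :
    |((cellS N w y Z 1 0 h J).card : ℝ) - N * ∏ i, ∑ m ∈ J i, po P m| ≤ (∏ i, ((J i).card : ℝ)) * E := by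
  classical
  rw [cellS_sum, prod_univ_sum, mul_sum]
  push_cast
  rw [← sum_sub_distrib]
  refine (abs_sum_le_sum_abs _ _).trans ?_
  calc _ ≤ ∑ _m ∈ Fintype.piFinset J, E := sum_le_sum fun m _ => hE m
    _ = _ := by
      rw [sum_const, nsmul_eq_mul, Fintype.card_piFinset]
      push_cast
      ring

/-- products of nearby numbers of different sizes -/
lemma prod_diff' {k : ℕ} {x z c : Fin k → ℝ} {η : ℝ} (hη : 0 ≤ η) (hc : ∀ i, 0 < c i) (hxz : ∀ i, x i ≤ z i + η * c i)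
    (hx0 : ∀ i, 0 ≤ x i) (hz0 : ∀ i, 0 ≤ z i) (hx : ∀ i, x i ≤ 2 * c i) (hz : ∀ i, z i ≤ 2 * c i) :
    ∏ i, x i ≤ ∏ i, z i + k * η * 2 ^ k * ∏ i, c i := by
  have h1 := prod_diff (univ : Finset (Fin k)) (a := fun i => x i / c i) (b := fun i => z i / c i) (U := 2) (η := η)
    (by norm_num) hη (fun i _ => div_nonneg (hz0 i) (hc i).le) (fun i _ => by
      rw [div_le_iff₀ (hc i)]
      have : (z i / c i + η) * c i = z i + η * c i := by
        have := (hc i).ne'
        field_simp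
      rw [this]
      exact hxz i) (fun i _ => div_nonneg (hx0 i) (hc i).le) (fun i _ => by rw [div_le_iff₀ (hc i)]; exact hx i)
    (fun i _ => by rw [div_le_iff₀ (hc i)]; exact hz i)
  rw [prod_div_distrib, prod_div_distrib, card_univ, Fintype.card_fin] at h1
  have hC : 0 < ∏ i, c i := prod_pos fun i _ => hc i
  rw [div_le_iff₀ hC, add_mul, div_mul_cancel₀ _ hC.ne'] at h1
  refine h1.trans ?_
  apply add_le_add le_rfl
  have h2 : (k : ℝ) * (η / 2) * 2 ^ k ≤ k * η * 2 ^ k := by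
    have : η / 2 ≤ η := by linarith
    gcongr
  exact mul_le_mul_of_nonneg_right h2 hC.le

end Pool.Agent.K4H18.LS
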