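import Pool.Agent.K4H18.LS.L13

/-! The asymptotic formula for boxes with long sides -/

set_option autoImplicit false

namespace Pool.Agent.K4H18.LS

open Finset
open ArithmeticFunction (cardFactors)
open Pool.Agent.W208.TL (PP sm)
open Pool.Agent.TH445.OI (X Y)
open Pool.Agent.K4H18.AC (mem_PP Adm om_split Y_le rt rt_pow)

lemma exp_quarter {D ε K2 : ℝ} (hD : 0 < D) (hε : 0 < ε) (h : 32 * D / ε ≤ K2) : D * Real.exp (-(K2 / 4)) ≤ ε / 8 := by
  have hK : 0 < K2 := lt_of_lt_of_le (by positivity) h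
  have h1 := Real.add_one_le_exp (K2 / 4)
  rw [Real.exp_neg, ← div_eq_mul_inv, div_le_iff₀ (Real.exp_pos _)]
  rw [div_le_iff₀ hε] at h
  have h2 : ε / 8 * (K2 / 4) ≤ ε / 8 * Real.exp (K2 / 4) := by
    apply mul_le_mul_of_nonneg_left _ (by positivity)
    linarith
  nlinarith

theorem box_asym (k : ℕ) (hk : 1 ≤ k) (h : Fin k → ℕ) (hinj : Function.Injective h) (ε : ℝ) (hε : 0 < ε) :
    ∃ w0 : ℕ, ∀ w : ℕ, w0 ≤ w → ∀ A' : ℕ, 6 * k + 2 ≤ A' → ∃ K20 : ℕ, ∀ K2 : ℕ, K20 ≤ K2 → ∃ H0 N0 : ℕ,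
      ∀ N : ℕ, N0 ≤ N → ∀ a H : Fin k → ℕ, (∀ i, H0 ≤ H i) →
      |((Bx N h a H).card : ℝ) - N * ∏ i, ∑ m ∈ Ico (a i) (a i + H i), po (PS w (rt (A' * K2) N)) m| ≤
        ε * (N * ∏ i, ((H i : ℝ) / √(Real.log (Real.log N)))) := by
  classical
  have hkR : (1 : ℝ) ≤ k := by exact_mod_cast hk
  have hC1 := C1_pos
  obtain ⟨wa, Ka, K0a, hKa, hA⟩ := cellA k hk (ε / (8 * 4 ^ k)) (by positivity)
  obtain ⟨Kb, yb, hKb, hB⟩ := type2 k hk
  obtain ⟨Kc, yc, hKc, hC⟩ := cellW k hk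
  obtain ⟨CG, hCG, hG⟩ := big_small
  refine ⟨max wa (max (12 * k + 144) (univ.sup h)), ?_⟩
  intro w hw A' hA'
  have hwa : wa ≤ w := (le_max_left _ _).trans hw
  have hw12 : 12 * k + 144 ≤ w := ((le_max_left _ _).trans (le_max_right _ _)).trans hw
  have hadm : Adm w h := ⟨hinj, fun i => (le_sup (f := h) (mem_univ i)).trans
    (((le_max_right _ _).trans (le_max_right _ _)).trans hw)⟩
  obtain ⟨Cw, hCw, hT2⟩ := hB w h hw12 hadm
  obtain ⟨Cs, hCs, hSV⟩ := SV_sum k w hk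
  obtain ⟨D, hD⟩ : ∃ D : ℝ, D = Cw * ((1 + ((A' + 1 : ℕ) : ℝ)) ^ k * (2 ^ k * k.factorial)) * 2 ^ k := ⟨_, rfl⟩
  have hD0 : 0 < D := by rw [hD]; positivity
  refine ⟨max K0a (max (2 + Ka + Kb + Kc) ⌈32 * D / ε⌉₊), ?_⟩
  intro K2 hK2
  have hK2a : K0a ≤ K2 := (le_max_left _ _).trans hK2
  have hK2b : 2 + Ka + Kb + Kc ≤ K2 := ((le_max_left _ _).trans (le_max_right _ _)).trans hK2
  have hK2c : 32 * D / ε ≤ K2 := (Nat.le_ceil _).trans
    (by exact_mod_cast ((le_max_right _ _).trans (le_max_right _ _)).trans hK2)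
  obtain ⟨A, hAe⟩ : ∃ A, A = A' * K2 := ⟨_, rfl⟩
  rw [← hAe]
  have hA1 : 1 ≤ A := by rw [hAe]; exact Nat.mul_pos (by omega) (by omega)
  have hAR : (1 : ℝ) ≤ A := by exact_mod_cast hA1
  obtain ⟨E, hE⟩ : ∃ E, E = 1 + 3 * k * K2 + Ka + Kb + Kc := ⟨_, rfl⟩
  have hEA : 2 * E ≤ A := by
    have : (6 * k + 2) * K2 ≤ A' * K2 := Nat.mul_le_mul_right _ hA'
    rw [hAe, hE]
    nlinarith
  obtain ⟨ya, hcellA⟩ := hA w hwa h hadm (2 * K2) (by omega)
  obtain ⟨r, hr⟩ := exists_pow_lt_of_lt_one (show 0 < ε / (8 * (2 * Cs * (4 * C1) ^ k)) by positivity)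
    (show (1 / 2 : ℝ) < 1 by norm_num)
  obtain ⟨R', hR'⟩ : ∃ R', R' = 2 * k * r := ⟨_, rfl⟩
  obtain ⟨R, hR⟩ : ∃ R, R = R' + A := ⟨_, rfl⟩
  obtain ⟨H0, hH0⟩ : ∃ H0, H0 = max (R + 1) ⌈8 * k * 4 ^ k * R / ε⌉₊ := ⟨_, rfl⟩
  obtain ⟨D2, hD2⟩ : ∃ D2 : ℝ, D2 = 2 ^ k * ((k + 4) * (k + 1)) + 4 * A * k * CG + 2 * k := ⟨_, rfl⟩
  have hD20 : 0 < D2 := by rw [hD2]; positivity
  obtain ⟨N0, hN0⟩ := facts k w A hA1 (ε / (8 * D2)) (by positivity) (max (max ya (max yb yc)) (max w 3)) 4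
  refine ⟨H0, N0, ?_⟩
  intro N hN a H hH
  obtain ⟨f1, f2, f3, f4, f5, f6, f7, f8, f9, f10, f11, f12, f13⟩ := hN0 N hN
  obtain ⟨y, hy⟩ : ∃ y, y = rt A N := ⟨_, rfl⟩
  obtain ⟨ys, hys⟩ : ∃ ys, ys = ysN N := ⟨_, rfl⟩
  rw [← hy, ← hys] at f3
  rw [← hys] at f2 f4 f8
  rw [← hy] at f5 f6 f9 f10
  rw [← hy]
  obtain ⟨v, hv⟩ : ∃ v, v = Real.log (Real.log N) := ⟨_, rfl⟩
  rw [← hv] at f1 f4 f7
  rw [← hv]
  obtain ⟨L, hL⟩ : ∃ L, L = Real.log N := ⟨_, rfl⟩
  rw [← hL] at f7 f8 f9 f10 f13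
  have hysa : ya ≤ ys := ((le_max_left _ _).trans (le_max_left _ _)).trans f2
  have hysb : yb ≤ ys := (((le_max_left _ _).trans (le_max_right _ _)).trans (le_max_left _ _)).trans f2
  have hysc : yc ≤ ys := (((le_max_right _ _).trans (le_max_right _ _)).trans (le_max_left _ _)).trans f2
  have hysw : w ≤ ys := ((le_max_left _ _).trans (le_max_right _ _)).trans f2
  have hys3 : 3 ≤ ys := ((le_max_right _ _).trans (le_max_right _ _)).trans f2
  have hy3 : 3 ≤ y := hys3.trans f3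
  have hy0 : (0 : ℝ) < y := by exact_mod_cast (by omega : 0 < y)
  have hy1R : (1 : ℝ) ≤ y := by exact_mod_cast (by omega : 1 ≤ y)
  have hv0 : 0 < v := by linarith
  have hsv : 0 < √v := Real.sqrt_pos.2 hv0
  have hNR : (1 : ℝ) ≤ N := by exact_mod_cast f11
  have hPSs : 1 ≤ PS w ys := by linarith
  have hPSm : PS w ys ≤ PS w y := PS_mono f3
  have hPSy : 1 ≤ PS w y := hPSs.trans hPSm
  have hLpos : 0 < L := by
    by_contra hcon
    have : L ≤ 0 := by linarith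
    have h0 : 0 ≤ L := by rw [hL]; exact Real.log_nonneg hNR
    have h2 : L = 0 := le_antisymm this h0
    rw [hv, ← hL, h2, Real.log_zero] at f1
    linarith
  have hsL : 0 < √L := Real.sqrt_pos.2 hLpos
  obtain ⟨q, hq⟩ : ∃ q : ℝ, q = 1 / √v := ⟨_, rfl⟩
  have hq0 : 0 < q := by rw [hq]; positivity
  obtain ⟨u, hu⟩ : ∃ u : ℝ, u = 1 / √(PS w y) := ⟨_, rfl⟩
  have hPSy0 : 0 < √(PS w y) := Real.sqrt_pos.2 (by linarith)
  have hu0 : 0 < u := by rw [hu]; positivity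
  have hsq4 : √v / 2 ≤ √(PS w ys) := by
    have : √v / 2 = √(v / 4) := by
      rw [Real.sqrt_div hv0.le]
      congr 1
      rw [show (4 : ℝ) = 2 ^ 2 by norm_num, Real.sqrt_sq (by norm_num)]
    rw [this]
    exact Real.sqrt_le_sqrt f4
  have hus : 1 / √(PS w ys) ≤ 2 * q := by
    rw [hq, mul_one_div, div_le_div_iff₀ (by linarith) hsv]
    linarith
  have huq : u ≤ 2 * q := by
    rw [hu, hq, mul_one_div, div_le_div_iff₀ hPSy0 hsv]
    have := Real.sqrt_le_sqrt hPSm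
    linarith
  obtain ⟨Pp, hPp⟩ : ∃ Pp : ℝ, Pp = ∏ i, (H i : ℝ) := ⟨_, rfl⟩
  have hHR : R + 1 ≤ H0 := by rw [hH0]; exact le_max_left _ _
  have hHi : ∀ i, R + 1 ≤ H i := fun i => hHR.trans (hH i)
  have hH1 : ∀ i, (1 : ℝ) ≤ H i := fun i => by exact_mod_cast (by have := hHi i; omega : 1 ≤ H i)
  have hPp1 : 1 ≤ Pp := by
    rw [hPp]
    calc (1 : ℝ) = ∏ _i : Fin k, (1 : ℝ) := by simp
      _ ≤ _ := Finset.prod_le_prod (fun _ _ => by norm_num) fun i _ => hH1 i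
  have hPp0 : 0 < Pp := by linarith
  have hXe : (N : ℝ) * ∏ i, ((H i : ℝ) / √v) = N * (Pp * q ^ k) := by
    rw [prod_div_distrib, prod_const, card_univ, Fintype.card_fin, ← hPp, hq]
    simp only [one_div, inv_pow]
    rfl
  rw [hXe]
  obtain ⟨Xx, hXx⟩ : ∃ Xx : ℝ, Xx = N * (Pp * q ^ k) := ⟨_, rfl⟩
  rw [← hXx]
  have hXx0 : 0 < Xx := by rw [hXx]; positivity
  obtain ⟨W, hW⟩ : ∃ W : ℝ, W = N * q ^ k := ⟨_, rfl⟩
  have hW0 : 0 < W := by rw [hW]; positivity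
  have hWX : Pp * W = Xx := by rw [hW, hXx]; ring
  have hWX' : W ≤ Xx := by rw [← hWX]; nlinarith
  -- the size of the small terms
  have hF : (N : ℝ) / √L ≤ ε / (8 * D2) * W := by
    have h1 : 1 / √L ≤ ε / (8 * D2) * q ^ k := by
      rw [hq, one_div_pow, div_le_iff₀ hsL]
      have hvk : 0 < √v ^ k := by positivity
      have h2 : ε / (8 * D2) * (1 / √v ^ k) * √L = (ε / (8 * D2) * √L) / √v ^ k := by ring
      rw [h2, le_div_iff₀ hvk, one_mul]
      exact f7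
    calc (N : ℝ) / √L = N * (1 / √L) := by ring
      _ ≤ N * (ε / (8 * D2) * q ^ k) := by gcongr
      _ = _ := by rw [hW]; ring
  have hyE : (y : ℝ) ^ E ≤ N / √L := by
    have h1 : (y : ℝ) ^ E ≤ √(N : ℝ) := by
      apply Real.le_sqrt_of_sq_le
      rw [← pow_mul, mul_comm E 2]
      have h2 : y ^ (2 * E) ≤ N := by
        calc y ^ (2 * E) ≤ y ^ A := Nat.pow_le_pow_right (by omega) hEA
          _ ≤ N := by rw [hy]; exact rt_pow hA1 N
      exact_mod_cast h2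
    rw [le_div_iff₀ hsL]
    calc (y : ℝ) ^ E * √L ≤ √(N : ℝ) * √(N : ℝ) := by gcongr
      _ = N := Real.mul_self_sqrt (by linarith)
  obtain ⟨Z1, hZ1⟩ : ∃ Z1, Z1 = y ^ K2 := ⟨_, rfl⟩
  have hZ1R : (Z1 : ℝ) = (y : ℝ) ^ K2 := by rw [hZ1]; push_cast; rfl
  have hZ2R : ((Z1 ^ 2 : ℕ) : ℝ) = (y : ℝ) ^ (2 * K2) := by push_cast; rw [hZ1R, ← pow_mul, mul_comm K2 2]
  have hyK : ∀ K' : ℕ, K' ≤ Ka + Kb + Kc → (y : ℝ) ^ K' + k + 3 ≤ (k + 4) * (y : ℝ) ^ (Ka + Kb + Kc) := by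
    intro K' hK'
    have h1 : (y : ℝ) ^ K' ≤ (y : ℝ) ^ (Ka + Kb + Kc) := pow_le_pow_right₀ hy1R hK'
    have h2 : (1 : ℝ) ≤ (y : ℝ) ^ (Ka + Kb + Kc) := one_le_pow₀ hy1R
    nlinarith
  have hZZ : ∀ K' : ℕ, K' ≤ Ka + Kb + Kc → (y : ℝ) * ((Z1 : ℝ) ^ k * (((Z1 ^ 2 : ℕ) : ℝ) ^ k * ((y : ℝ) ^ K' + k + 3))) ≤
      (k + 4) * (y : ℝ) ^ E := by
    intro K' hK'
    calc (y : ℝ) * ((Z1 : ℝ) ^ k * (((Z1 ^ 2 : ℕ) : ℝ) ^ k * ((y : ℝ) ^ K' + k + 3))) ≤
          (y : ℝ) * ((Z1 : ℝ) ^ k * (((Z1 ^ 2 : ℕ) : ℝ) ^ k * ((k + 4) * (y : ℝ) ^ (Ka + Kb + Kc)))) := by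
          have := hyK K' hK'
          gcongr
      _ = (k + 4) * (y : ℝ) ^ E := by
          rw [hZ1R, hZ2R, hE, ← pow_mul, ← pow_mul]
          have e : 1 + 3 * k * K2 + Ka + Kb + Kc = 1 + K2 * k + 2 * K2 * k + (Ka + Kb + Kc) := by ring
          rw [e]
          ring
  have hZe1 : (1 : ℝ) ≤ (Z1 : ℝ) ^ k := one_le_pow₀ (by rw [hZ1R]; exact one_le_pow₀ hy1R)
  have hsmall1 : ((Z1 ^ 2 : ℕ) : ℝ) ^ k * ((y : ℝ) ^ Ka + k + 3) ≤ (k + 4) * (N / √L) := by
    have h1 := hZZ Ka (by omega)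
    have h2 : 0 ≤ ((Z1 ^ 2 : ℕ) : ℝ) ^ k * ((y : ℝ) ^ Ka + k + 3) := by positivity
    have h3 : ((Z1 ^ 2 : ℕ) : ℝ) ^ k * ((y : ℝ) ^ Ka + k + 3) ≤
        (y : ℝ) * ((Z1 : ℝ) ^ k * (((Z1 ^ 2 : ℕ) : ℝ) ^ k * ((y : ℝ) ^ Ka + k + 3))) := by
      rw [← mul_assoc]
      apply le_mul_of_one_le_left h2
      nlinarith
    calc _ ≤ _ := h3
      _ ≤ (k + 4) * (y : ℝ) ^ E := h1
      _ ≤ _ := by gcongr
  have hsmall2 : (Z1 : ℝ) ^ k * (((Z1 ^ 2 : ℕ) : ℝ) ^ k * ((y : ℝ) ^ Kc + k + 3)) ≤ (k + 4) * (N / √L) := by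
    have h1 := hZZ Kc (by omega)
    have h2 : 0 ≤ (Z1 : ℝ) ^ k * (((Z1 ^ 2 : ℕ) : ℝ) ^ k * ((y : ℝ) ^ Kc + k + 3)) := by positivity
    calc _ ≤ (y : ℝ) * ((Z1 : ℝ) ^ k * (((Z1 ^ 2 : ℕ) : ℝ) ^ k * ((y : ℝ) ^ Kc + k + 3))) := le_mul_of_one_le_left h2 hy1R
      _ ≤ (k + 4) * (y : ℝ) ^ E := h1
      _ ≤ _ := by gcongr
  have hsmall3 : k * y * ((Z1 : ℝ) ^ k * (((Z1 ^ 2 : ℕ) : ℝ) ^ k * ((y : ℝ) ^ Kb + k + 3))) ≤ k * ((k + 4) * (N / √L)) := by
    have h1 := hZZ Kb (by omega)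
    rw [mul_assoc]
    calc _ ≤ (k : ℝ) * ((k + 4) * (y : ℝ) ^ E) := by gcongr
      _ ≤ _ := by gcongr
  have hly : 0 < Real.log y := Real.log_pos (by exact_mod_cast (by omega : 1 < y))
  have hK2R : (2 : ℝ) ≤ K2 := by exact_mod_cast (by omega : 2 ≤ K2)
  have hlZ : L / (2 * A) ≤ Real.log Z1 := by
    rw [hZ1R, Real.log_pow]
    nlinarith
  have hZ12 : 2 ≤ Z1 := by
    rw [hZ1]
    exact (by omega : 2 ≤ y).trans (Nat.le_self_pow (by omega) y)
  have hNw : ∀ i, ((N + h i : ℕ) : ℝ) ≤ 2 * N := by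
    intro i
    have := hadm.2 i
    exact_mod_cast (by omega : N + h i ≤ 2 * N)
  have hG1 : ∀ i, ((G1 N ys Z1 (h i)).card : ℝ) ≤ 4 * A * CG * (N / √L) := by
    intro i
    refine (hG N (h i) ys Z1 (by omega) hZ12).trans ?_
    have h1 : Real.log ys / Real.log Z1 ≤ 2 * A / √L := by
      calc Real.log ys / Real.log Z1 ≤ √L / (L / (2 * A)) := by
            apply div_le_div₀ (Real.sqrt_nonneg _) f8 (by positivity) hlZ
        _ = 2 * A / √L := by
            have hss : √L * √L = L := Real.mul_self_sqrt hLpos.le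
            rw [div_div_eq_mul_div, div_eq_div_iff hLpos.ne' hsL.ne']
            calc √L * (2 * A) * √L = 2 * A * (√L * √L) := by ring
              _ = _ := by rw [hss]
    have h2 : 0 ≤ Real.log ys / Real.log Z1 :=
      div_nonneg (Real.log_nonneg (by exact_mod_cast (by omega : 1 ≤ ys))) (le_trans (by positivity) hlZ)
    calc CG * Real.log ys / Real.log Z1 * ((N + h i : ℕ) : ℝ) = CG * (Real.log ys / Real.log Z1) * ((N + h i : ℕ) : ℝ) := by
          rw [mul_div_assoc]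
      _ ≤ CG * (2 * A / √L) * (2 * N) := by
          have := hNw i
          gcongr
      _ = _ := by ring
  have hG3 : ∀ i, ((G3 N y Z1 (h i)).card : ℝ) ≤ 2 * (N / √L) := by
    intro i
    refine (big_pow_le N (h i) y Z1 (by omega)).trans ?_
    have h1 : (y : ℝ) ^ 2 ≤ Z1 := by
      rw [hZ1R]
      exact pow_le_pow_right₀ hy1R (by omega)
    calc (y : ℝ) * (((N + h i : ℕ) : ℝ) / Z1) ≤ y * (2 * N / (y : ℝ) ^ 2) := by
          have := hNw i
          gcongr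
      _ = 2 * (N / y) := by field_simp
      _ ≤ 2 * (N / √L) := by gcongr
  have hbi : ∀ (f : Fin k → Finset ℕ) (c : ℝ), (∀ i, ((f i).card : ℝ) ≤ c) → ((univ.biUnion f).card : ℝ) ≤ k * c := by
    intro f c hf
    calc ((univ.biUnion f).card : ℝ) ≤ ∑ i : Fin k, ((f i).card : ℝ) := by exact_mod_cast card_biUnion_le
      _ ≤ ∑ _i : Fin k, c := sum_le_sum fun i _ => hf i
      _ = k * c := by rw [sum_const, card_univ, Fintype.card_fin, nsmul_eq_mul]
  -- the main terms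
  have hcA : ∀ m : Fin k → ℕ, |((cellS N w y (Z1 ^ 2) 1 0 h (fun i => {m i})).card : ℝ) - N * ∏ i, po (PS w y) (m i)| ≤
      ε / (8 * 4 ^ k) * N * u ^ k + (k + 4) * (N / √L) := by
    intro m
    have h1 := hcellA y (hysa.trans f3) hPSy N m
    have e1 : y ^ (2 * K2) = Z1 ^ 2 := by rw [hZ1, ← pow_mul, mul_comm]
    rw [e1, ← hu] at h1
    exact h1.trans (add_le_add le_rfl hsmall1)
  have hER : 0 ≤ ε / (8 * 4 ^ k) * N * u ^ k + (k + 4) * (N / √L) := by positivity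
  have hRA : (A : ℝ) ≤ R := by exact_mod_cast (by omega : A ≤ R)
  have hRH : ∀ i, (R : ℝ) ≤ H i := fun i => by exact_mod_cast (by have := hHi i; omega : R ≤ H i)
  have hukq : u ^ k ≤ 2 ^ k * q ^ k := by
    rw [← mul_pow]
    exact pow_le_pow_left₀ hu0.le huq k
  have hmainerr : 2 ^ k * Pp * (ε / (8 * 4 ^ k) * N * u ^ k + (k + 4) * (N / √L)) ≤
      ε / 8 * Xx + Pp * (2 ^ k * (k + 4) * (N / √L)) := by
    have h1 : 2 ^ k * Pp * (ε / (8 * 4 ^ k) * N * u ^ k) ≤ ε / 8 * Xx := by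
      calc 2 ^ k * Pp * (ε / (8 * 4 ^ k) * N * u ^ k) ≤ 2 ^ k * Pp * (ε / (8 * 4 ^ k) * N * (2 ^ k * q ^ k)) := by gcongr
        _ = ε / 8 * Xx := by
          rw [hXx]
          have : (4 : ℝ) ^ k = 2 ^ k * 2 ^ k := by rw [← mul_pow]; norm_num
          rw [this]
          field_simp
    calc _ = 2 ^ k * Pp * (ε / (8 * 4 ^ k) * N * u ^ k) + Pp * (2 ^ k * (k + 4) * (N / √L)) := by ring
      _ ≤ _ := by linarith
  have hJbound : ∀ J : Fin k → Finset ℕ, (∀ i, ((J i).card : ℝ) ≤ 2 * H i) →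
      |((cellS N w y (Z1 ^ 2) 1 0 h J).card : ℝ) - N * ∏ i, ∑ m ∈ J i, po (PS w y) m| ≤
        ε / 8 * Xx + Pp * (2 ^ k * (k + 4) * (N / √L)) := by
    intro J hJ
    refine (cellJ hcA J).trans (le_trans ?_ hmainerr)
    apply mul_le_mul_of_nonneg_right _ hER
    calc ∏ i, ((J i).card : ℝ) ≤ ∏ i, (2 * (H i : ℝ)) := Finset.prod_le_prod (fun i _ => Nat.cast_nonneg _) fun i _ => hJ i
      _ = 2 ^ k * Pp := by rw [prod_mul_distrib, prod_const, card_univ, Fintype.card_fin, hPp]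
  have hT1 : ∀ J : (Fin k → ℕ) → Fin k → Finset ℕ, (∀ s i, ((J s i).card : ℝ) ≤ 2 * H i) →
      ((T1 N w y Z1 R' h J ⟨0, hk⟩).card : ℝ) ≤ ε / 8 * Xx + (k + 4) * (N / √L) := by
    intro J hJ
    have h1 := hC w h hw12 hadm y N (Z1 ^ 2) 1 0 (hysc.trans f3) (hysw.trans f3) hPSy (Or.inl rfl) (SV k w Z1 R') J
      (fun i => 2 * (H i : ℝ)) (fun s _ i => hJ s i) ⟨0, hk⟩ 1 le_rfl
    rw [Real.one_rpow, mul_one, Nat.cast_one, div_one] at h1
    have h2 := hSV Z1 R'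
    have e2 : (2 : ℝ) ^ (-((R' : ℝ) / (2 * k))) = (1 / 2) ^ r := by
      rw [hR']
      push_cast
      have : (2 * (k : ℝ) * r) / (2 * k) = r := by field_simp
      rw [this, Real.rpow_neg (by norm_num), Real.rpow_natCast, one_div, inv_pow]
    rw [e2] at h2
    have h3 : (C1 / √(PS w y)) ^ k ≤ C1 ^ k * (2 ^ k * q ^ k) := by
      have : C1 / √(PS w y) = C1 * u := by rw [hu]; ring
      rw [this, mul_pow]
      gcongr
    have hpr : ∏ i, (2 * (H i : ℝ)) = 2 ^ k * Pp := by rw [prod_mul_distrib, prod_const, card_univ, Fintype.card_fin, hPp]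
    have hsv0 : 0 ≤ ∑ s ∈ SV k w Z1 R', ∏ i, (s i : ℝ) ^ (-(1 / (k : ℝ))) :=
      sum_nonneg fun s _ => prod_nonneg fun i _ => by positivity
    have h4 : 2 * (N : ℝ) * (∑ s ∈ SV k w Z1 R', ∏ i, (s i : ℝ) ^ (-(1 / (k : ℝ)))) *
        ((∏ i, (2 * (H i : ℝ))) * (C1 / √(PS w y)) ^ k) ≤ ε / 8 * Xx := by
      rw [hpr]
      calc 2 * (N : ℝ) * (∑ s ∈ SV k w Z1 R', ∏ i, (s i : ℝ) ^ (-(1 / (k : ℝ)))) *
          (2 ^ k * Pp * (C1 / √(PS w y)) ^ k) ≤
            2 * N * (Cs * (1 / 2) ^ r) * (2 ^ k * Pp * (C1 ^ k * (2 ^ k * q ^ k))) := by gcongr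
        _ = (2 * Cs * (4 * C1) ^ k) * (1 / 2) ^ r * Xx := by
            rw [hXx, mul_pow]
            have : (4 : ℝ) ^ k = 2 ^ k * 2 ^ k := by rw [← mul_pow]; norm_num
            rw [this]
            ring
        _ ≤ (2 * Cs * (4 * C1) ^ k) * (ε / (8 * (2 * Cs * (4 * C1) ^ k))) * Xx := by gcongr
        _ = _ := by
            have : (2 * Cs * (4 * C1) ^ k) ≠ 0 := by positivity
            field_simp
    have h5 : ((SV k w Z1 R').card : ℝ) * (((Z1 ^ 2 : ℕ) : ℝ) ^ k * ((y : ℝ) ^ Kc + k + 3)) ≤ (k + 4) * (N / √L) := by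
      have h6 : ((SV k w Z1 R').card : ℝ) ≤ (Z1 : ℝ) ^ k := by exact_mod_cast SV_card k w Z1 R'
      refine le_trans ?_ hsmall2
      gcongr
    unfold T1
    exact h1.trans (add_le_add h4 h5)
  have hT2' : ((T2 N w y ys Z1 h a H).card : ℝ) ≤ ε / 8 * Xx + k * ((k + 4) * (N / √L)) := by
    have hNB : N + w ≤ (y ^ K2) ^ (A' + 1) := by
      refine f5.trans ?_
      rw [← pow_mul]
      apply Nat.pow_le_pow_right (by omega)
      rw [hAe]
      nlinarith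
    have h1 := hT2 K2 (A' + 1) (by omega) y ys N hysb hysw f3 hPSs f11 hNB a H (fun i => by have := hHi i; omega)
    rw [← hZ1] at h1
    unfold T2
    refine h1.trans (add_le_add ?_ hsmall3)
    rw [← hPp]
    calc Cw * ((1 + ((A' + 1 : ℕ) : ℝ)) ^ k * (2 ^ k * k.factorial)) * Real.exp (-(K2 / 4)) * N * Pp * (1 / √(PS w ys)) ^ k ≤
          Cw * ((1 + ((A' + 1 : ℕ) : ℝ)) ^ k * (2 ^ k * k.factorial)) * Real.exp (-(K2 / 4)) * N * Pp * (2 * q) ^ k := by gcongr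
      _ = D * Real.exp (-(K2 / 4)) * Xx := by rw [hD, hXx, mul_pow]; ring
      _ ≤ ε / 8 * Xx := mul_le_mul_of_nonneg_right (exp_quarter hD0 hε hK2c) hXx0.le
  -- the Poisson sums
  have hpo : ∀ m, po (PS w y) m ≤ u := fun m => by rw [hu]; exact po_le hPSy m
  have hpo0 : ∀ m, 0 ≤ po (PS w y) m := fun m => po_nonneg (by linarith) m
  have hsum0 : ∀ S : Finset ℕ, 0 ≤ ∑ m ∈ S, po (PS w y) m := fun S => sum_nonneg fun m _ => hpo0 m
  have hsumle : ∀ S : Finset ℕ, ∑ m ∈ S, po (PS w y) m ≤ S.card * u := by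
    intro S
    calc ∑ m ∈ S, po (PS w y) m ≤ ∑ _m ∈ S, u := sum_le_sum fun m _ => hpo m
      _ = _ := by rw [sum_const, nsmul_eq_mul]
  have hH0pos : (0 : ℝ) < H0 := by exact_mod_cast (by omega : 0 < H0)
  obtain ⟨η, hη⟩ : ∃ η : ℝ, η = R / H0 := ⟨_, rfl⟩
  have hη0 : 0 ≤ η := by rw [hη]; positivity
  have hηH : ∀ i, (R : ℝ) * u ≤ η * ((H i : ℝ) * u) := by
    intro i
    have h1 : (H0 : ℝ) ≤ H i := by exact_mod_cast hH i
    rw [hη, ← mul_assoc]
    apply mul_le_mul_of_nonneg_right _ hu0.le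
    rw [div_mul_eq_mul_div, le_div_iff₀ hH0pos]
    gcongr
  have hηε : N * (k * η * 2 ^ k * ∏ i, ((H i : ℝ) * u)) ≤ ε / 8 * Xx := by
    have h1 : ∏ i, ((H i : ℝ) * u) = Pp * u ^ k := by
      rw [prod_mul_distrib, prod_const, card_univ, Fintype.card_fin, hPp]
    have h2 : 8 * k * 4 ^ k * R / ε ≤ H0 := by
      rw [hH0]
      exact (Nat.le_ceil _).trans (by exact_mod_cast le_max_right _ _)
    have h3 : k * η * 4 ^ k ≤ ε / 8 := by
      rw [hη]
      rw [div_le_iff₀ hε] at h2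
      have : k * ((R : ℝ) / H0) * 4 ^ k = (k * 4 ^ k * R) / H0 := by ring
      rw [this, div_le_iff₀ hH0pos]
      linarith
    rw [h1]
    calc N * (k * η * 2 ^ k * (Pp * u ^ k)) ≤ N * (k * η * 2 ^ k * (Pp * (2 ^ k * q ^ k))) := by gcongr
      _ = (k * η * 4 ^ k) * Xx := by
          rw [hXx]
          have : (4 : ℝ) ^ k = 2 ^ k * 2 ^ k := by rw [← mul_pow]; norm_num
          rw [this]
          ring
      _ ≤ _ := mul_le_mul_of_nonneg_right h3 hXx0.le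
  -- all the small terms together
  have hFall : D2 * (N / √L) ≤ ε / 8 * W := by
    calc D2 * (N / √L) ≤ D2 * (ε / (8 * D2) * W) := by gcongr
      _ = _ := by field_simp
  have hF0 : 0 ≤ (N : ℝ) / √L := by positivity
  have h2k : (1 : ℝ) ≤ 2 ^ k := one_le_pow₀ (by norm_num)
  have hs1 : Pp * (2 ^ k * (k + 4) * (N / √L)) ≤ ε / 8 * Xx := by
    have h1 : 2 ^ k * (k + 4) * ((N : ℝ) / √L) ≤ D2 * (N / √L) := by
      apply mul_le_mul_of_nonneg_right _ hF0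
      rw [hD2]
      have h3 : (2 : ℝ) ^ k * (k + 4) ≤ 2 ^ k * ((k + 4) * (k + 1)) := by
        apply mul_le_mul_of_nonneg_left _ (by positivity)
        nlinarith
      have h4 : 0 ≤ 4 * (A : ℝ) * k * CG := by positivity
      linarith
    calc Pp * (2 ^ k * (k + 4) * (N / √L)) ≤ Pp * (ε / 8 * W) := by
          apply mul_le_mul_of_nonneg_left (h1.trans hFall) hPp0.le
      _ = ε / 8 * (Pp * W) := by ring
      _ = _ := by rw [hWX]
  have hs2 : (k + 4) * (N / √L) + k * ((k + 4) * (N / √L)) + k * (4 * A * CG * (N / √L)) + k * (2 * (N / √L)) ≤ ε / 8 * Xx := by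
    have h1 : (k + 4) * (N / √L) + k * ((k + 4) * (N / √L)) + k * (4 * A * CG * (N / √L)) + k * (2 * (N / √L)) ≤
        D2 * (N / √L) := by
      have e : (k + 4) * (N / √L) + k * ((k + 4) * (N / √L)) + k * (4 * A * CG * (N / √L)) + k * (2 * (N / √L)) =
          (((k : ℝ) + 4) * (k + 1) + 4 * A * k * CG + 2 * k) * (N / √L) := by ring
      rw [e]
      apply mul_le_mul_of_nonneg_right _ hF0
      rw [hD2]
      have h3 : ((k : ℝ) + 4) * (k + 1) ≤ 2 ^ k * ((k + 4) * (k + 1)) := le_mul_of_one_le_left (by positivity) h2k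
      linarith
    calc _ ≤ _ := h1
      _ ≤ ε / 8 * W := hFall
      _ ≤ _ := by gcongr
  have hcardIco : ∀ b c : ℕ, ((Ico b c).card : ℝ) = ((c - b : ℕ) : ℝ) := by intro b c; rw [Nat.card_Ico]
  rw [abs_le]
  constructor
  · -- the lower bound
    have hsub := box_lower (k := k) hk (N := N) (w := w) (y := y) (ys := ys) (Z1 := Z1) (A := A) (R' := R') (h := h) (a := a)
      (H := H) hadm.2 hysw f3 f6 ⟨0, hk⟩
    rw [← hR] at hsub
    have h1 := (card_le_card hsub).trans ((card_union_le _ _).trans (Nat.add_le_add_right (card_union_le _ _) _))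
    have h1R : ((cellS N w y (Z1 ^ 2) 1 0 h (fun i => Ico (a i) (a i + H i - R))).card : ℝ) ≤
        ((Bx N h a H).card : ℝ) + ((T1 N w y Z1 R' h (fun _ i => Ico (a i) (a i + H i)) ⟨0, hk⟩).card : ℝ) +
          ((univ.biUnion (fun i => G1 N ys Z1 (h i))).card : ℝ) := by exact_mod_cast h1
    have h2 := hJbound (fun i => Ico (a i) (a i + H i - R)) (fun i => by
      rw [hcardIco]
      have : a i + H i - R - a i ≤ 2 * H i := by omega
      exact_mod_cast this)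
    have h3 := hT1 (fun _ i => Ico (a i) (a i + H i)) (fun s i => by
      rw [hcardIco]
      have : a i + H i - a i ≤ 2 * H i := by omega
      exact_mod_cast this)
    have h4 := hbi _ _ hG1
    have h5 : ∏ i, ∑ m ∈ Ico (a i) (a i + H i), po (PS w y) m ≤
        ∏ i, ∑ m ∈ Ico (a i) (a i + H i - R), po (PS w y) m + k * η * 2 ^ k * ∏ i, ((H i : ℝ) * u) := by
      apply prod_diff' hη0 (fun i => by have := hH1 i; positivity)
      · intro i
        have e : Ico (a i) (a i + H i) = Ico (a i) (a i + H i - R) ∪ Ico (a i + H i - R) (a i + H i) := by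
          rw [Ico_union_Ico_eq_Ico] <;> (have := hHi i; omega)
        have hd : Disjoint (Ico (a i) (a i + H i - R)) (Ico (a i + H i - R) (a i + H i)) := Ico_disjoint_Ico_consecutive _ _ _
        rw [e, sum_union hd]
        have h6 := hsumle (Ico (a i + H i - R) (a i + H i))
        rw [hcardIco] at h6
        have h7 : ((a i + H i - (a i + H i - R) : ℕ) : ℝ) ≤ R := by
          exact_mod_cast (by omega : a i + H i - (a i + H i - R) ≤ R)
        have h8 : ((a i + H i - (a i + H i - R) : ℕ) : ℝ) * u ≤ R * u := mul_le_mul_of_nonneg_right h7 hu0.le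
        linarith [hηH i]
      · intro i; exact hsum0 _
      · intro i; exact hsum0 _
      · intro i
        have h6 := hsumle (Ico (a i) (a i + H i))
        rw [hcardIco] at h6
        have h7 : ((a i + H i - a i : ℕ) : ℝ) ≤ 2 * H i := by exact_mod_cast (by omega : a i + H i - a i ≤ 2 * H i)
        calc _ ≤ _ := h6
          _ ≤ 2 * H i * u := mul_le_mul_of_nonneg_right h7 hu0.le
          _ = _ := by ring
      · intro i
        have h6 := hsumle (Ico (a i) (a i + H i - R))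
        rw [hcardIco] at h6
        have h7 : ((a i + H i - R - a i : ℕ) : ℝ) ≤ 2 * H i := by exact_mod_cast (by omega : a i + H i - R - a i ≤ 2 * H i)
        calc _ ≤ _ := h6
          _ ≤ 2 * H i * u := mul_le_mul_of_nonneg_right h7 hu0.le
          _ = _ := by ring
    have h6 := (abs_le.1 h2).1
    have h7 : (N : ℝ) * ∏ i, ∑ m ∈ Ico (a i) (a i + H i), po (PS w y) m ≤
        N * ∏ i, ∑ m ∈ Ico (a i) (a i + H i - R), po (PS w y) m + N * (k * η * 2 ^ k * ∏ i, ((H i : ℝ) * u)) := by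
      rw [← mul_add]
      exact mul_le_mul_of_nonneg_left h5 (by linarith)
    have h8 : 0 ≤ k * ((k + 4) * ((N : ℝ) / √L)) := by positivity
    have h9 : 0 ≤ k * (2 * ((N : ℝ) / √L)) := by positivity
    have h10 : 0 ≤ ε * Xx := by positivity
    linarith
  · -- the upper bound
    have hsub := box_upper (k := k) hk (N := N) (w := w) (y := y) (ys := ys) (Z1 := Z1) (A := A) (R' := R') (h := h) (a := a)
      (H := H) hadm.2 hysw f3 f6 ⟨0, hk⟩
    rw [← hR] at hsub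
    have h1 := (card_le_card hsub).trans ((card_union_le _ _).trans (Nat.add_le_add_right ((card_union_le _ _).trans
      (Nat.add_le_add_right ((card_union_le _ _).trans (Nat.add_le_add_right (card_union_le _ _) _)) _)) _))
    have h1R : ((Bx N h a H).card : ℝ) ≤
        ((cellS N w y (Z1 ^ 2) 1 0 h (fun i => Ico (a i - R) (a i + H i))).card : ℝ) +
        ((T1 N w y Z1 R' h (fun s i => Ico (a i - cardFactors (s i) - A) (a i + H i - cardFactors (s i))) ⟨0, hk⟩).card : ℝ) +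
        ((T2 N w y ys Z1 h a H).card : ℝ) + ((univ.biUnion (fun i => G1 N ys Z1 (h i))).card : ℝ) +
        ((univ.biUnion (fun i => G3 N y Z1 (h i))).card : ℝ) := by exact_mod_cast h1
    have h2 := hJbound (fun i => Ico (a i - R) (a i + H i)) (fun i => by
      rw [hcardIco]
      have : a i + H i - (a i - R) ≤ 2 * H i := by have := hHi i; omega
      exact_mod_cast this)
    have h3 := hT1 (fun s i => Ico (a i - cardFactors (s i) - A) (a i + H i - cardFactors (s i))) (fun s i => by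
      rw [hcardIco]
      have : a i + H i - cardFactors (s i) - (a i - cardFactors (s i) - A) ≤ 2 * H i := by have := hHi i; omega
      exact_mod_cast this)
    have h4 := hbi _ _ hG1
    have h4' := hbi _ _ hG3
    have h5 : ∏ i, ∑ m ∈ Ico (a i - R) (a i + H i), po (PS w y) m ≤
        ∏ i, ∑ m ∈ Ico (a i) (a i + H i), po (PS w y) m + k * η * 2 ^ k * ∏ i, ((H i : ℝ) * u) := by
      apply prod_diff' hη0 (fun i => by have := hH1 i; positivity)
      · intro i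
        have e : Ico (a i - R) (a i + H i) = Ico (a i - R) (a i) ∪ Ico (a i) (a i + H i) := by
          rw [Ico_union_Ico_eq_Ico] <;> omega
        have hd : Disjoint (Ico (a i - R) (a i)) (Ico (a i) (a i + H i)) := Ico_disjoint_Ico_consecutive _ _ _
        rw [e, sum_union hd]
        have h6 := hsumle (Ico (a i - R) (a i))
        rw [hcardIco] at h6
        have h7 : ((a i - (a i - R) : ℕ) : ℝ) ≤ R := by
          exact_mod_cast (by omega : a i - (a i - R) ≤ R)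
        have h8 : ((a i - (a i - R) : ℕ) : ℝ) * u ≤ R * u := mul_le_mul_of_nonneg_right h7 hu0.le
        linarith [hηH i]
      · intro i; exact hsum0 _
      · intro i; exact hsum0 _
      · intro i
        have h6 := hsumle (Ico (a i - R) (a i + H i))
        rw [hcardIco] at h6
        have h7 : ((a i + H i - (a i - R) : ℕ) : ℝ) ≤ 2 * H i := by
          exact_mod_cast (by have := hHi i; omega : a i + H i - (a i - R) ≤ 2 * H i)
        calc _ ≤ _ := h6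
          _ ≤ 2 * H i * u := mul_le_mul_of_nonneg_right h7 hu0.le
          _ = _ := by ring
      · intro i
        have h6 := hsumle (Ico (a i) (a i + H i))
        rw [hcardIco] at h6
        have h7 : ((a i + H i - a i : ℕ) : ℝ) ≤ 2 * H i := by exact_mod_cast (by omega : a i + H i - a i ≤ 2 * H i)
        calc _ ≤ _ := h6
          _ ≤ 2 * H i * u := mul_le_mul_of_nonneg_right h7 hu0.le
          _ = _ := by ring
    have h6 := (abs_le.1 h2).2
    have h7 : (N : ℝ) * ∏ i, ∑ m ∈ Ico (a i - R) (a i + H i), po (PS w y) m ≤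
        N * ∏ i, ∑ m ∈ Ico (a i) (a i + H i), po (PS w y) m + N * (k * η * 2 ^ k * ∏ i, ((H i : ℝ) * u)) := by
      rw [← mul_add]
      exact mul_le_mul_of_nonneg_left h5 (by linarith)
    have h10 : 0 ≤ ε * Xx := by positivity
    linarith

end Pool.Agent.K4H18.LS
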