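import Pool.Agent.K4H18.LS.L14

/-! Boxes: comparison with the product law -/

set_option autoImplicit false

namespace Pool.Agent.K4H18.LS

open Finset Filter Topology
open ArithmeticFunction (cardFactors)
open Pool.Agent.K4H18.AC (rt)

/-- the integers with `a ≤ Ω(n) < a + H` -/
def B1 (N a H : ℕ) : Finset ℕ := (Icc 1 N).filter (fun n => a ≤ cardFactors n ∧ cardFactors n < a + H)

lemma Bx_one (N a H : ℕ) : Bx N (fun _ : Fin 1 => 0) (fun _ => a) (fun _ => H) = B1 N a H := by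
  unfold Bx B1
  apply filter_congr
  intro n _
  constructor
  · intro h
    exact h 0
  · intro h i
    exact h

/-- **the absolute form**, with the comparison to the Poisson sums -/
theorem box_both (k : ℕ) (hk : 1 ≤ k) (h : Fin k → ℕ) (hinj : Function.Injective h) (ε : ℝ) (hε : 0 < ε) (hε1 : ε ≤ 1) :
    ∃ (w A H0 N0 : ℕ), 1 ≤ A ∧ ∀ N : ℕ, N0 ≤ N → ∀ a H : Fin k → ℕ, (∀ i, H0 ≤ H i) →
      |((Bx N h a H).card : ℝ) / N - ∏ i, (((B1 N (a i) (H i)).card : ℝ) / N)| ≤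
        ε * ∏ i, ((H i : ℝ) / √(Real.log (Real.log N))) ∧
      ∀ i, |((B1 N (a i) (H i)).card : ℝ) / N - ∑ m ∈ Ico (a i) (a i + H i), po (PS w (rt A N)) m| ≤
        ε * ((H i : ℝ) / √(Real.log (Real.log N))) := by
  classical
  have hkR : (1 : ℝ) ≤ k := by exact_mod_cast hk
  obtain ⟨e, he⟩ : ∃ e : ℝ, e = ε / (1 + k * 4 ^ k) := ⟨_, rfl⟩
  have he0 : 0 < e := by rw [he]; positivity
  have heε : e ≤ ε := by
    rw [he]
    apply div_le_self hε.le
    have : 0 ≤ (k : ℝ) * 4 ^ k := by positivity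
    linarith
  obtain ⟨wk, hwk⟩ := box_asym k hk h hinj e he0
  obtain ⟨w1, hw1⟩ := box_asym 1 le_rfl (fun _ => 0) (fun _ _ _ => Subsingleton.elim _ _) e he0
  obtain ⟨w, hw⟩ : ∃ w, w = max wk w1 := ⟨_, rfl⟩
  obtain ⟨Kk, hKk⟩ := hwk w (by rw [hw]; exact le_max_left _ _) (6 * k + 2) le_rfl
  obtain ⟨K1, hK1⟩ := hw1 w (by rw [hw]; exact le_max_right _ _) (6 * k + 2) (by omega)
  obtain ⟨K2, hK2⟩ : ∃ K2, K2 = max (max Kk K1) 1 := ⟨_, rfl⟩
  obtain ⟨Hk, Nk, hNk⟩ := hKk K2 (by rw [hK2]; exact (le_max_left _ _).trans (le_max_left _ _))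
  obtain ⟨H1, N1, hN1⟩ := hK1 K2 (by rw [hK2]; exact (le_max_right _ _).trans (le_max_left _ _))
  have hK2pos : 1 ≤ K2 := by rw [hK2]; exact le_max_right _ _
  have hA1 : 1 ≤ (6 * k + 2) * K2 := Nat.mul_pos (by omega) hK2pos
  obtain ⟨C, NC, hC0, hPS⟩ := PS_near w ((6 * k + 2) * K2) hA1
  obtain ⟨NV, hNV⟩ := eventually_atTop.1 (tll.eventually_ge_atTop (max 4 (2 * C)))
  refine ⟨w, (6 * k + 2) * K2, max (max Hk H1) 1, max (max Nk N1) (max (max NC NV) 1), hA1, ?_⟩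
  intro N hN a H hH
  have hn1 : Nk ≤ N := ((le_max_left _ _).trans (le_max_left _ _)).trans hN
  have hn2 : N1 ≤ N := ((le_max_right _ _).trans (le_max_left _ _)).trans hN
  have hn3 : NC ≤ N := (((le_max_left _ _).trans (le_max_left _ _)).trans (le_max_right _ _)).trans hN
  have hn4 : NV ≤ N := (((le_max_right _ _).trans (le_max_left _ _)).trans (le_max_right _ _)).trans hN
  have hn5 : 1 ≤ N := ((le_max_right _ _).trans (le_max_right _ _)).trans hN
  have hN0 : (0 : ℝ) < N := by exact_mod_cast hn5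
  have hHk : ∀ i, Hk ≤ H i := fun i => ((le_max_left _ _).trans (le_max_left _ _)).trans (hH i)
  have hH1' : ∀ i, H1 ≤ H i := fun i => ((le_max_right _ _).trans (le_max_left _ _)).trans (hH i)
  have hHpos : ∀ i, 1 ≤ H i := fun i => (le_max_right _ _).trans (hH i)
  obtain ⟨v, hv⟩ : ∃ v, v = Real.log (Real.log N) := ⟨_, rfl⟩
  have hv4 : max 4 (2 * C) ≤ v := by rw [hv]; exact hNV N hn4
  have hv4' : 4 ≤ v := (le_max_left _ _).trans hv4
  have hvC : 2 * C ≤ v := (le_max_right _ _).trans hv4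
  have hp := abs_le.1 (hPS N hn3)
  rw [← hv] at hp ⊢
  obtain ⟨P, hP⟩ : ∃ P, P = PS w (rt ((6 * k + 2) * K2) N) := ⟨_, rfl⟩
  rw [← hP] at hp ⊢
  have hPv : v / 4 ≤ P := by linarith [hp.1]
  have hP1 : 1 ≤ P := by linarith
  have hsv : 0 < √v := Real.sqrt_pos.2 (by linarith)
  have hsP : √v / 2 ≤ √P := by
    have : √v / 2 = √(v / 4) := by
      rw [Real.sqrt_div (by linarith)]
      congr 1
      rw [show (4 : ℝ) = 2 ^ 2 by norm_num, Real.sqrt_sq (by norm_num)]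
    rw [this]
    exact Real.sqrt_le_sqrt hPv
  have hup : 1 / √P ≤ 2 / √v := by
    rw [div_le_div_iff₀ (by linarith) hsv]
    linarith
  -- the two estimates
  have hbk := hNk N hn1 a H hHk
  rw [← hP, ← hv] at hbk
  have hb1 : ∀ i, |((B1 N (a i) (H i)).card : ℝ) / N - ∑ m ∈ Ico (a i) (a i + H i), po P m| ≤ e * ((H i : ℝ) / √v) := by
    intro i
    have h1 := hN1 N hn2 (fun _ => a i) (fun _ => H i) (fun _ => hH1' i)
    rw [Bx_one, ← hP, ← hv] at h1
    rw [Fin.prod_univ_one, Fin.prod_univ_one] at h1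
    have h2 : ((B1 N (a i) (H i)).card : ℝ) / N - ∑ m ∈ Ico (a i) (a i + H i), po P m =
        (((B1 N (a i) (H i)).card : ℝ) - N * ∑ m ∈ Ico (a i) (a i + H i), po P m) / N := by
      field_simp
    rw [h2, abs_div, abs_of_pos hN0, div_le_iff₀ hN0]
    calc _ ≤ _ := h1
      _ = _ := by ring
  refine ⟨?_, fun i => (hb1 i).trans ?_⟩
  · obtain ⟨c, hc⟩ : ∃ c : Fin k → ℝ, c = fun i => 2 * ((H i : ℝ) / √v) := ⟨_, rfl⟩
    have hci : ∀ i, c i = 2 * ((H i : ℝ) / √v) := fun i => by rw [hc]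
    have hc0 : ∀ i, 0 < c i := by
      intro i
      rw [hci]
      have : (0 : ℝ) < H i := by exact_mod_cast hHpos i
      positivity
    have hσ0 : ∀ i, 0 ≤ ∑ m ∈ Ico (a i) (a i + H i), po P m := fun i => sum_nonneg fun m _ => po_nonneg (by linarith) m
    have hσ : ∀ i, ∑ m ∈ Ico (a i) (a i + H i), po P m ≤ c i := by
      intro i
      calc ∑ m ∈ Ico (a i) (a i + H i), po P m ≤ ∑ _m ∈ Ico (a i) (a i + H i), 2 / √v :=
            sum_le_sum fun m _ => (po_le hP1 m).trans hup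
        _ = c i := by
            rw [sum_const, Nat.card_Ico, nsmul_eq_mul, hci, Nat.add_sub_cancel_left]
            ring
    have hec : ∀ i, e * ((H i : ℝ) / √v) = (e / 2) * c i := by
      intro i
      rw [hci]
      ring
    have he1 : e ≤ 1 := heε.trans hε1
    have hp0 : ∀ i, 0 ≤ ((B1 N (a i) (H i)).card : ℝ) / N := fun i => by positivity
    have hpc : ∀ i, ((B1 N (a i) (H i)).card : ℝ) / N ≤ 2 * c i := by
      intro i
      have h1 := (abs_le.1 (hb1 i)).2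
      rw [hec] at h1
      have h2 := hσ i
      have h3 := hc0 i
      nlinarith
    have d1 := prod_diff' (k := k) (x := fun i => ((B1 N (a i) (H i)).card : ℝ) / N)
      (z := fun i => ∑ m ∈ Ico (a i) (a i + H i), po P m) (c := c) (η := e / 2) (by linarith) hc0
      (fun i => by have h1 := (abs_le.1 (hb1 i)).2; rw [hec] at h1; linarith) hp0 hσ0 hpc
      (fun i => by have := hσ i; have := hc0 i; linarith)
    have d2 := prod_diff' (k := k) (x := fun i => ∑ m ∈ Ico (a i) (a i + H i), po P m)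
      (z := fun i => ((B1 N (a i) (H i)).card : ℝ) / N) (c := c) (η := e / 2) (by linarith) hc0
      (fun i => by have h1 := (abs_le.1 (hb1 i)).1; rw [hec] at h1; linarith) hσ0 hp0
      (fun i => by have := hσ i; have := hc0 i; linarith) hpc
    obtain ⟨Q, hQ⟩ : ∃ Q : ℝ, Q = ∏ i, ((H i : ℝ) / √v) := ⟨_, rfl⟩
    have hQ0 : 0 ≤ Q := by rw [hQ]; exact prod_nonneg fun i _ => by positivity
    have hcQ : ∏ i, c i = 2 ^ k * Q := by
      rw [hQ, hc, prod_mul_distrib, prod_const, card_univ, Fintype.card_fin]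
    rw [hcQ] at d1 d2
    rw [← hQ] at hbk ⊢
    have e3 : (k : ℝ) * (e / 2) * 2 ^ k * (2 ^ k * Q) ≤ k * e * 4 ^ k * Q := by
      have : (4 : ℝ) ^ k = 2 ^ k * 2 ^ k := by rw [← mul_pow]; norm_num
      rw [this]
      have h0 : 0 ≤ (k : ℝ) * e * (2 ^ k * 2 ^ k) * Q := by positivity
      calc (k : ℝ) * (e / 2) * 2 ^ k * (2 ^ k * Q) = (k * e * (2 ^ k * 2 ^ k) * Q) / 2 := by ring
        _ ≤ _ := by linarith
    have e4 : |((Bx N h a H).card : ℝ) / N - ∏ i, ∑ m ∈ Ico (a i) (a i + H i), po P m| ≤ e * Q := by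
      have h2 : ((Bx N h a H).card : ℝ) / N - ∏ i, ∑ m ∈ Ico (a i) (a i + H i), po P m =
          (((Bx N h a H).card : ℝ) - N * ∏ i, ∑ m ∈ Ico (a i) (a i + H i), po P m) / N := by
        field_simp
      rw [h2, abs_div, abs_of_pos hN0, div_le_iff₀ hN0]
      calc _ ≤ _ := hbk
        _ = _ := by ring
    have e5 : ε * Q = e * Q + k * e * 4 ^ k * Q := by
      rw [he]
      field_simp
    have e6 := abs_le.1 e4
    rw [e5, abs_le]
    constructor <;> linarith [e6.1, e6.2]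
  · apply mul_le_mul_of_nonneg_right heε
    positivity

/-- **the relative form** -/
theorem box_rel (k : ℕ) (hk : 1 ≤ k) (h : Fin k → ℕ) (hinj : Function.Injective h) (ε : ℝ) (hε : 0 < ε) (B : ℝ) (hB : 1 ≤ B) :
    ∃ (H0 N0 : ℕ), ∀ N : ℕ, N0 ≤ N → ∀ a H : Fin k → ℕ, (∀ i, H0 ≤ H i) →
      (∀ i, |(a i : ℝ) - Real.log (Real.log N)| ≤ B * √(Real.log (Real.log N))) →
      (∀ i, (H i : ℝ) ≤ B * √(Real.log (Real.log N))) →
      |((Bx N h a H).card : ℝ) / N - ∏ i, (((B1 N (a i) (H i)).card : ℝ) / N)| ≤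
        ε * ∏ i, (((B1 N (a i) (H i)).card : ℝ) / N) := by
  classical
  obtain ⟨c, hc⟩ : ∃ c : ℝ, c = Real.exp (-(4 * (6 * B) ^ 2) - 2) / 2 := ⟨_, rfl⟩
  have hc0 : 0 < c := by rw [hc]; positivity
  obtain ⟨e, he⟩ : ∃ e : ℝ, e = min (min (c / 2) 1) (ε * (c / 2) ^ k) := ⟨_, rfl⟩
  have he0 : 0 < e := by rw [he]; positivity
  have hec : e ≤ c / 2 := by rw [he]; exact (min_le_left _ _).trans (min_le_left _ _)
  have he1 : e ≤ 1 := by rw [he]; exact (min_le_left _ _).trans (min_le_right _ _)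
  have heε : e ≤ ε * (c / 2) ^ k := by rw [he]; exact min_le_right _ _
  obtain ⟨w, A, H0, N0, hA, hmain⟩ := box_both k hk h hinj e he0 he1
  obtain ⟨C, NC, hC0, hPS⟩ := PS_near w A hA
  obtain ⟨NV, hNV⟩ := eventually_atTop.1 (tll.eventually_ge_atTop (max (16 * (6 * B) ^ 2) (max (2 * C) (C ^ 2))))
  refine ⟨max H0 1, max N0 (max NC NV), ?_⟩
  intro N hN a H hH ha hHB
  have hn1 : N0 ≤ N := (le_max_left _ _).trans hN
  have hn2 : NC ≤ N := ((le_max_left _ _).trans (le_max_right _ _)).trans hN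
  have hn3 : NV ≤ N := ((le_max_right _ _).trans (le_max_right _ _)).trans hN
  obtain ⟨v, hv⟩ : ∃ v, v = Real.log (Real.log N) := ⟨_, rfl⟩
  have hvm : max (16 * (6 * B) ^ 2) (max (2 * C) (C ^ 2)) ≤ v := by rw [hv]; exact hNV N hn3
  have hv1 : 16 * (6 * B) ^ 2 ≤ v := (le_max_left _ _).trans hvm
  have hv2 : 2 * C ≤ v := ((le_max_left _ _).trans (le_max_right _ _)).trans hvm
  have hv3 : C ^ 2 ≤ v := ((le_max_right _ _).trans (le_max_right _ _)).trans hvm
  have hv0 : 16 ≤ v := by nlinarith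
  obtain ⟨m1, m2⟩ := hmain N hn1 a H (fun i => (le_max_left _ _).trans (hH i))
  have hp := abs_le.1 (hPS N hn2)
  rw [← hv] at hp m1 m2 ha hHB
  obtain ⟨P, hP⟩ : ∃ P, P = PS w (rt A N) := ⟨_, rfl⟩
  rw [← hP] at hp m2
  have hPv : v / 4 ≤ P := by linarith [hp.1]
  have hPv2 : P ≤ 4 * v := by linarith [hp.2]
  have hsv : 0 < √v := Real.sqrt_pos.2 (by linarith)
  have hss : √v * √v = v := Real.mul_self_sqrt (by linarith)
  have hsP : √v / 2 ≤ √P := by
    have : √v / 2 = √(v / 4) := by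
      rw [Real.sqrt_div (by linarith)]
      congr 1
      rw [show (4 : ℝ) = 2 ^ 2 by norm_num, Real.sqrt_sq (by norm_num)]
    rw [this]
    exact Real.sqrt_le_sqrt hPv
  have hsP2 : √P ≤ 2 * √v := by
    have : 2 * √v = √(4 * v) := by
      rw [Real.sqrt_mul (by norm_num)]
      congr 1
      rw [show (4 : ℝ) = 2 ^ 2 by norm_num, Real.sqrt_sq (by norm_num)]
    rw [this]
    exact Real.sqrt_le_sqrt hPv2
  have hP0 : 0 < √P := by linarith
  have hCv : C ≤ √v := Real.le_sqrt_of_sq_le hv3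
  have hlow : ∀ i, c / 2 * ((H i : ℝ) / √v) ≤ ((B1 N (a i) (H i)).card : ℝ) / N := by
    intro i
    have h1 : ∀ m ∈ Ico (a i) (a i + H i), c * (1 / √v) ≤ po P m := by
      intro m hm
      rw [mem_Ico] at hm
      have h2 : |(m : ℝ) - P| ≤ 6 * B * √P := by
        have q1 := abs_le.1 (ha i)
        have q2 := hHB i
        have q3 : (a i : ℝ) ≤ m := by exact_mod_cast hm.1
        have q4 : (m : ℝ) ≤ a i + H i := by exact_mod_cast hm.2.le
        have q5 : √v ≤ B * √v := le_mul_of_one_le_left hsv.le hB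
        have q6 : 3 * B * √v ≤ 6 * B * √P := by nlinarith
        rw [abs_le]
        constructor <;> linarith [q1.1, q1.2, hp.1, hp.2]
      have h3 := pow_fact_ge (B := 6 * B) (P := P) (by linarith) (by linarith) h2
      have h4 : Real.exp (-P) * (Real.exp (-(4 * (6 * B) ^ 2) - 2) * Mx P) ≤ po P m := by
        unfold po
        exact mul_le_mul_of_nonneg_left h3 (Real.exp_nonneg _)
      have h5 : Real.exp (-P) * (Real.exp (-(4 * (6 * B) ^ 2) - 2) * Mx P) = 2 * c * (1 / √P) := by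
        rw [← exp_Mx P, hc]
        ring
      rw [h5] at h4
      refine le_trans ?_ h4
      have h6 : 1 / (2 * √v) ≤ 1 / √P := one_div_le_one_div_of_le hP0 hsP2
      calc c * (1 / √v) = 2 * c * (1 / (2 * √v)) := by field_simp
        _ ≤ _ := by gcongr
    have h2 : c * ((H i : ℝ) / √v) ≤ ∑ m ∈ Ico (a i) (a i + H i), po P m := by
      calc c * ((H i : ℝ) / √v) = ∑ _m ∈ Ico (a i) (a i + H i), c * (1 / √v) := by
            rw [sum_const, Nat.card_Ico, nsmul_eq_mul, Nat.add_sub_cancel_left]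
            ring
        _ ≤ _ := sum_le_sum h1
    have h3 := (abs_le.1 (m2 i)).1
    have h4 : e * ((H i : ℝ) / √v) ≤ c / 2 * ((H i : ℝ) / √v) := mul_le_mul_of_nonneg_right hec (by positivity)
    linarith
  have hprod : (c / 2) ^ k * ∏ i, ((H i : ℝ) / √v) ≤ ∏ i, (((B1 N (a i) (H i)).card : ℝ) / N) := by
    calc (c / 2) ^ k * ∏ i, ((H i : ℝ) / √v) = ∏ i, (c / 2 * ((H i : ℝ) / √v)) := by
          rw [prod_mul_distrib, prod_const, card_univ, Fintype.card_fin]
      _ ≤ _ := Finset.prod_le_prod (fun i _ => by positivity) fun i _ => hlow i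
  have hQ0 : 0 ≤ ∏ i, ((H i : ℝ) / √v) := prod_nonneg fun i _ => by positivity
  calc _ ≤ _ := m1
    _ ≤ ε * (c / 2) ^ k * ∏ i, ((H i : ℝ) / √v) := mul_le_mul_of_nonneg_right heε hQ0
    _ = ε * ((c / 2) ^ k * ∏ i, ((H i : ℝ) / √v)) := by ring
    _ ≤ _ := mul_le_mul_of_nonneg_left hprod hε.le

end Pool.Agent.K4H18.LS
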