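import Pool.Agent.K4H18.LS.L15

/-! Arbitrary sets in the central region -/

set_option autoImplicit false

namespace Pool.Agent.K4H18.LS

open Finset Filter Topology
open ArithmeticFunction (cardFactors)
open Pool.Agent.K4H18.AC (cons indep)

/-- the `R`-neighbourhood of `S` -/
def nb {k : ℕ} (R : ℕ) (S : Set (Fin k → ℕ)) : Set (Fin k → ℕ) := {x | ∃ s ∈ S, ∀ i, x i ≤ s i + R ∧ s i ≤ x i + R}

/-- the indices of the cubes of side `H` which meet `S` -/
noncomputable def JJ {k : ℕ} (M H : ℕ) (S : Set (Fin k → ℕ)) : Finset (Fin k → ℕ) :=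
  open Classical in (Fintype.piFinset (fun _ : Fin k => range M)).filter (fun j => ∃ s ∈ S, ∀ i, s i / H = j i)

lemma div_iff {H x j : ℕ} (hH : 1 ≤ H) : x / H = j ↔ j * H ≤ x ∧ x < j * H + H := by
  constructor
  · rintro rfl
    refine ⟨Nat.div_mul_le_self x H, ?_⟩
    have := Nat.lt_div_mul_add (a := x) (show 0 < H by omega)
    exact this
  · rintro ⟨h1, h2⟩
    apply Nat.div_eq_of_lt_le h1
    rw [Nat.succ_mul]
    exact h2

lemma om_le (n : ℕ) : cardFactors n ≤ n := by
  rcases Nat.eq_zero_or_pos n with rfl | h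
  · simp
  · exact (Pool.Agent.K4H18.AC.om_lt n (by omega)).le

lemma cons_le {k : ℕ} (h : Fin k → ℕ) (N M H : ℕ) (hH : 1 ≤ H) (hM : ∀ i, N + h i < M) (S : Set (Fin k → ℕ)) :
    cons h S N ≤ ∑ j ∈ JJ M H S, (Bx N h (fun i => j i * H) (fun _ => H)).card := by
  classical
  unfold Pool.Agent.K4H18.AC.cons
  refine le_trans (card_le_card ?_) card_biUnion_le
  intro n hn
  rw [mem_filter, mem_Icc] at hn
  rw [mem_biUnion]
  refine ⟨fun i => cardFactors (n + h i) / H, ?_, ?_⟩
  · unfold JJ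
    rw [mem_filter, Fintype.mem_piFinset]
    refine ⟨?_, _, hn.2, fun i => rfl⟩
    intro i
    rw [mem_range]
    have h1 := om_le (n + h i)
    have h2 := hM i
    have h3 := Nat.div_le_self (cardFactors (n + h i)) H
    omega
  · unfold Bx
    rw [mem_filter, mem_Icc]
    exact ⟨hn.1, fun i => (div_iff hH).1 rfl⟩

lemma le_cons {k : ℕ} (h : Fin k → ℕ) (N M H : ℕ) (hH : 1 ≤ H) (S : Set (Fin k → ℕ)) :
    ∑ j ∈ JJ M H S, (Bx N h (fun i => j i * H) (fun _ => H)).card ≤ cons h (nb H S) N := by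
  classical
  unfold Pool.Agent.K4H18.AC.cons
  rw [← card_biUnion]
  · apply card_le_card
    intro n hn
    rw [mem_biUnion] at hn
    obtain ⟨j, hj, hn⟩ := hn
    unfold JJ at hj
    rw [mem_filter] at hj
    obtain ⟨-, s, hs, hsj⟩ := hj
    unfold Bx at hn
    rw [mem_filter] at hn
    rw [mem_filter]
    refine ⟨hn.1, s, hs, fun i => ?_⟩
    have h1 := (div_iff hH).1 (hsj i)
    have h2 : j i * H ≤ cardFactors (n + h i) ∧ cardFactors (n + h i) < j i * H + H := hn.2 i
    show cardFactors (n + h i) ≤ s i + H ∧ s i ≤ cardFactors (n + h i) + H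
    omega
  · intro j _ j' _ hjj
    show Disjoint (Bx N h (fun i => j i * H) (fun _ => H)) (Bx N h (fun i => j' i * H) (fun _ => H))
    rw [disjoint_left]
    intro n hn hn'
    unfold Bx at hn hn'
    rw [mem_filter] at hn hn'
    apply hjj
    funext i
    rw [← (div_iff hH).2 (hn.2 i), ← (div_iff hH).2 (hn'.2 i)]

lemma indep_le {k : ℕ} (N M H : ℕ) (hH : 1 ≤ H) (hM : N < M) (S : Set (Fin k → ℕ)) :
    indep S N ≤ ∑ j ∈ JJ M H S, ∏ i, (B1 N (j i * H) H).card := by
  classical
  unfold indep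
  have e : ∀ j : Fin k → ℕ, ∏ i, (B1 N (j i * H) H).card = (Fintype.piFinset (fun i => B1 N (j i * H) H)).card := fun j => by
    rw [Fintype.card_piFinset]
  simp only [e]
  refine le_trans (card_le_card ?_) card_biUnion_le
  intro m hm
  rw [mem_filter, Fintype.mem_piFinset] at hm
  rw [mem_biUnion]
  refine ⟨fun i => cardFactors (m i) / H, ?_, ?_⟩
  · unfold JJ
    rw [mem_filter, Fintype.mem_piFinset]
    refine ⟨?_, _, hm.2, fun i => rfl⟩
    intro i
    rw [mem_range]
    have h1 := om_le (m i)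
    have h2 := mem_Icc.1 (hm.1 i)
    have h3 := Nat.div_le_self (cardFactors (m i)) H
    omega
  · rw [Fintype.mem_piFinset]
    intro i
    unfold B1
    rw [mem_filter]
    exact ⟨hm.1 i, (div_iff hH).1 rfl⟩

lemma le_indep {k : ℕ} (N M H : ℕ) (hH : 1 ≤ H) (S : Set (Fin k → ℕ)) :
    ∑ j ∈ JJ M H S, ∏ i, (B1 N (j i * H) H).card ≤ indep (nb H S) N := by
  classical
  unfold indep
  have e : ∀ j : Fin k → ℕ, ∏ i, (B1 N (j i * H) H).card = (Fintype.piFinset (fun i => B1 N (j i * H) H)).card := fun j => by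
    rw [Fintype.card_piFinset]
  simp only [e]
  rw [← card_biUnion]
  · apply card_le_card
    intro m hm
    rw [mem_biUnion] at hm
    obtain ⟨j, hj, hm⟩ := hm
    unfold JJ at hj
    rw [mem_filter] at hj
    obtain ⟨-, s, hs, hsj⟩ := hj
    rw [Fintype.mem_piFinset] at hm
    unfold B1 at hm
    simp only [mem_filter] at hm
    rw [mem_filter, Fintype.mem_piFinset]
    refine ⟨fun i => (hm i).1, s, hs, fun i => ?_⟩
    have h1 := (div_iff hH).1 (hsj i)
    have h2 := (hm i).2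
    show cardFactors (m i) ≤ s i + H ∧ s i ≤ cardFactors (m i) + H
    omega
  · intro j _ j' _ hjj
    show Disjoint (Fintype.piFinset fun i => B1 N (j i * H) H) (Fintype.piFinset fun i => B1 N (j' i * H) H)
    rw [disjoint_left]
    intro m hm hm'
    rw [Fintype.mem_piFinset] at hm hm'
    unfold B1 at hm hm'
    simp only [mem_filter] at hm hm'
    apply hjj
    funext i
    rw [← (div_iff hH).2 (hm i).2, ← (div_iff hH).2 (hm' i).2]

/-- **all sets of the central region** -/
theorem sets (k : ℕ) (hk : 1 ≤ k) (h : Fin k → ℕ) (hinj : Function.Injective h) (ε : ℝ) (hε : 0 < ε) (B : ℝ) (hB : 1 ≤ B) :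
    ∃ (R N0 : ℕ), ∀ N : ℕ, N0 ≤ N → ∀ S : Set (Fin k → ℕ),
      (∀ s ∈ S, ∀ i, |(s i : ℝ) - Real.log (Real.log N)| ≤ B * √(Real.log (Real.log N))) →
      (cons h S N : ℝ) / N ≤ (1 + ε) * ((indep (nb R S) N : ℝ) / (N : ℝ) ^ k) ∧
      (indep S N : ℝ) / (N : ℝ) ^ k ≤ (1 + ε) * ((cons h (nb R S) N : ℝ) / N) := by
  classical
  obtain ⟨e, he⟩ : ∃ e : ℝ, e = ε / (1 + ε) := ⟨_, rfl⟩
  have he0 : 0 < e := by rw [he]; positivity
  have heε : e ≤ ε := by rw [he]; exact div_le_self hε.le (by linarith)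
  have hee : (1 + ε) * (1 - e) = 1 := by
    rw [he]
    field_simp
    ring
  obtain ⟨H0, N1, hrel⟩ := box_rel k hk h hinj e he0 (B + 1) (by linarith)
  obtain ⟨R, hR⟩ : ∃ R, R = max H0 1 := ⟨_, rfl⟩
  have hR1 : 1 ≤ R := by rw [hR]; exact le_max_right _ _
  obtain ⟨N2, hN2⟩ := eventually_atTop.1 ((Real.tendsto_sqrt_atTop.comp tll).eventually_ge_atTop (R : ℝ))
  refine ⟨R, max (max N1 N2) 1, ?_⟩
  intro N hN S hS
  have hn1 : N1 ≤ N := ((le_max_left _ _).trans (le_max_left _ _)).trans hN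
  have hn2 : N2 ≤ N := ((le_max_right _ _).trans (le_max_left _ _)).trans hN
  have hn3 : 1 ≤ N := (le_max_right _ _).trans hN
  have hN0 : (0 : ℝ) < N := by exact_mod_cast hn3
  have hsR : (R : ℝ) ≤ √(Real.log (Real.log N)) := hN2 N hn2
  have hs0 : 0 ≤ √(Real.log (Real.log N)) := Real.sqrt_nonneg _
  obtain ⟨M, hM⟩ : ∃ M, M = N + univ.sup h + 1 := ⟨_, rfl⟩
  have hMi : ∀ i, N + h i < M := by
    intro i
    have := le_sup (f := h) (mem_univ i)
    omega
  have hJ : ∀ j ∈ JJ M R S, |((Bx N h (fun i => j i * R) (fun _ => R)).card : ℝ) / N -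
      ∏ i, (((B1 N (j i * R) R).card : ℝ) / N)| ≤ e * ∏ i, (((B1 N (j i * R) R).card : ℝ) / N) := by
    intro j hj
    unfold JJ at hj
    rw [mem_filter] at hj
    obtain ⟨-, s, hs, hsj⟩ := hj
    apply hrel N hn1 (fun i => j i * R) (fun _ => R) (fun _ => by rw [hR]; exact le_max_left _ _)
    · intro i
      have h1 := (div_iff hR1).1 (hsj i)
      have h2 := abs_le.1 (hS s hs i)
      have h3 : ((j i * R : ℕ) : ℝ) ≤ s i := by exact_mod_cast h1.1
      have h4 : (s i : ℝ) ≤ ((j i * R : ℕ) : ℝ) + R := by exact_mod_cast h1.2.le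
      rw [abs_le]
      constructor <;> nlinarith [h2.1, h2.2]
    · intro i
      nlinarith
  have hprodc : ∀ j : Fin k → ℕ, ∏ i, (((B1 N (j i * R) R).card : ℝ) / N) =
      ((∏ i, (B1 N (j i * R) R).card : ℕ) : ℝ) / (N : ℝ) ^ k := by
    intro j
    rw [prod_div_distrib, prod_const, card_univ, Fintype.card_fin]
    push_cast
    rfl
  constructor
  · calc (cons h S N : ℝ) / N ≤ (∑ j ∈ JJ M R S, ((Bx N h (fun i => j i * R) (fun _ => R)).card : ℝ)) / N := by
          apply div_le_div_of_nonneg_right _ hN0.le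
          exact_mod_cast cons_le h N M R hR1 hMi S
      _ = ∑ j ∈ JJ M R S, ((Bx N h (fun i => j i * R) (fun _ => R)).card : ℝ) / N := by rw [sum_div]
      _ ≤ ∑ j ∈ JJ M R S, (1 + ε) * ∏ i, (((B1 N (j i * R) R).card : ℝ) / N) := by
          apply sum_le_sum
          intro j hj
          have h1 := (abs_le.1 (hJ j hj)).2
          have h2 : 0 ≤ ∏ i, (((B1 N (j i * R) R).card : ℝ) / N) := prod_nonneg fun i _ => by positivity
          have h3 : e * ∏ i, (((B1 N (j i * R) R).card : ℝ) / N) ≤ ε * ∏ i, (((B1 N (j i * R) R).card : ℝ) / N) :=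
            mul_le_mul_of_nonneg_right heε h2
          linarith
      _ = (1 + ε) * (((∑ j ∈ JJ M R S, ∏ i, (B1 N (j i * R) R).card : ℕ) : ℝ) / (N : ℝ) ^ k) := by
          rw [← mul_sum]
          congr 1
          simp only [hprodc]
          rw [← sum_div]
          push_cast
          rfl
      _ ≤ _ := by
          have := le_indep N M R hR1 S
          gcongr
  · calc (indep S N : ℝ) / (N : ℝ) ^ k ≤ ((∑ j ∈ JJ M R S, ∏ i, (B1 N (j i * R) R).card : ℕ) : ℝ) / (N : ℝ) ^ k := by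
          apply div_le_div_of_nonneg_right _ (by positivity)
          exact_mod_cast indep_le N M R hR1 (by omega) S
      _ = ∑ j ∈ JJ M R S, ∏ i, (((B1 N (j i * R) R).card : ℝ) / N) := by
          simp only [hprodc]
          rw [← sum_div]
          push_cast
          rfl
      _ ≤ ∑ j ∈ JJ M R S, (1 + ε) * (((Bx N h (fun i => j i * R) (fun _ => R)).card : ℝ) / N) := by
          apply sum_le_sum
          intro j hj
          have h1 := (abs_le.1 (hJ j hj)).1
          obtain ⟨q, hq⟩ : ∃ q : ℝ, q = ∏ i, (((B1 N (j i * R) R).card : ℝ) / N) := ⟨_, rfl⟩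
          rw [← hq] at h1 ⊢
          have h2 : (1 - e) * q ≤ ((Bx N h (fun i => j i * R) (fun _ => R)).card : ℝ) / N := by linarith
          calc q = (1 + ε) * ((1 - e) * q) := by rw [← mul_assoc, hee, one_mul]
            _ ≤ _ := by gcongr
      _ = (1 + ε) * (((∑ j ∈ JJ M R S, (Bx N h (fun i => j i * R) (fun _ => R)).card : ℕ) : ℝ) / N) := by
          rw [← mul_sum, ← sum_div]
          push_cast
          rfl
      _ ≤ _ := by
          have := le_cons h N M R hR1 S
          gcongr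

end Pool.Agent.K4H18.LS
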