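import Mathlib

/-! Sums of completely multiplicative functions over the smooth numbers with `m` prime factors -/

set_option autoImplicit false

namespace Pool.Agent.K4H18.LS

open Finset
open ArithmeticFunction (cardFactors cardFactors_mul cardFactors_apply_prime_pow cardFactors_apply)

/-- the completely multiplicative function with the values `f l` at the primes -/
noncomputable def Fm (f : ℕ → ℝ) (d : ℕ) : ℝ := if d = 0 then 0 else d.factorization.prod (fun l a => f l ^ a)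

lemma Fm_zero (f : ℕ → ℝ) : Fm f 0 = 0 := if_pos rfl

lemma Fm_one (f : ℕ → ℝ) : Fm f 1 = 1 := by unfold Fm; simp

lemma Fm_ne {f : ℕ → ℝ} {d : ℕ} (hd : d ≠ 0) : Fm f d = d.factorization.prod (fun l a => f l ^ a) := if_neg hd

lemma Fm_mul (f : ℕ → ℝ) (a b : ℕ) : Fm f (a * b) = Fm f a * Fm f b := by
  rcases eq_or_ne a 0 with rfl | ha
  · rw [Nat.zero_mul, Fm_zero, zero_mul]
  rcases eq_or_ne b 0 with rfl | hb
  · rw [Nat.mul_zero, Fm_zero, mul_zero]
  rw [Fm_ne (mul_ne_zero ha hb), Fm_ne ha, Fm_ne hb, Nat.factorization_mul ha hb,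
    Finsupp.prod_add_index']
  · intro l; exact pow_zero _
  · intro l x y; exact pow_add _ _ _

lemma Fm_prime (f : ℕ → ℝ) {p : ℕ} (hp : p.Prime) : Fm f p = f p := by
  rw [Fm_ne hp.ne_zero, hp.factorization, Finsupp.prod_single_index]
  · exact pow_one _
  · exact pow_zero _

/-- as a homomorphism -/
noncomputable def FmHom (f : ℕ → ℝ) : ℕ →*₀ ℝ where
  toFun := Fm f
  map_zero' := Fm_zero f
  map_one' := Fm_one f
  map_mul' := Fm_mul f

lemma Fm_nonneg {f : ℕ → ℝ} (hf : ∀ l, 0 ≤ f l) (d : ℕ) : 0 ≤ Fm f d := by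
  unfold Fm
  split_ifs
  · exact le_rfl
  · exact Finset.prod_nonneg fun l _ => pow_nonneg (hf l) _

/-- smooth numbers -/
def Smo (S : Finset ℕ) (d : ℕ) : Prop := d ≠ 0 ∧ ∀ p, p.Prime → p ∣ d → p ∈ S

lemma Smo.of_dvd {S : Finset ℕ} {d e : ℕ} (h : Smo S d) (he : e ∣ d) : Smo S e :=
  ⟨fun h0 => h.1 (by rw [h0] at he; exact Nat.eq_zero_of_zero_dvd he), fun p hp hd => h.2 p hp (hd.trans he)⟩

lemma Smo.mul {S : Finset ℕ} {d e : ℕ} (h : Smo S d) (h' : Smo S e) : Smo S (d * e) :=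
  ⟨mul_ne_zero h.1 h'.1, fun p hp hd => by
    rcases hp.dvd_mul.1 hd with h1 | h1
    · exact h.2 p hp h1
    · exact h'.2 p hp h1⟩

lemma Fm_mono {S : Finset ℕ} {f g : ℕ → ℝ} (hf : ∀ l ∈ S, 0 ≤ f l) (hfg : ∀ l ∈ S, f l ≤ g l) {d : ℕ} (hd : Smo S d) :
    Fm f d ≤ Fm g d := by
  rw [Fm_ne hd.1, Fm_ne hd.1]
  apply Finset.prod_le_prod
  · intro l hl
    exact pow_nonneg (hf l (hd.2 l (Nat.prime_of_mem_primeFactors hl) (Nat.dvd_of_mem_primeFactors hl))) _
  · intro l hl
    have := hd.2 l (Nat.prime_of_mem_primeFactors hl) (Nat.dvd_of_mem_primeFactors hl)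
    exact pow_le_pow_left₀ (hf l this) (hfg l this) _

lemma Fm_mulf (f g : ℕ → ℝ) (d : ℕ) : Fm (fun l => f l * g l) d = Fm f d * Fm g d := by
  rcases eq_or_ne d 0 with rfl | hd
  · rw [Fm_zero, Fm_zero, zero_mul]
  rw [Fm_ne hd, Fm_ne hd, Fm_ne hd]
  unfold Finsupp.prod
  rw [← Finset.prod_mul_distrib]
  apply Finset.prod_congr rfl
  intro l _
  exact mul_pow _ _ _

lemma Fm_id {d : ℕ} (hd : d ≠ 0) : Fm (fun l => (l : ℝ)) d = d := by
  rw [Fm_ne hd]
  have := Nat.prod_factorization_pow_eq_self hd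
  conv_rhs => rw [← this]
  unfold Finsupp.prod
  push_cast
  rfl

lemma Fm_inv {d : ℕ} (hd : d ≠ 0) : Fm (fun l => 1 / (l : ℝ)) d = 1 / d := by
  rw [Fm_ne hd]
  conv_rhs => rw [← Fm_id hd, Fm_ne hd]
  unfold Finsupp.prod
  rw [one_div, ← Finset.prod_inv_distrib]
  apply Finset.prod_congr rfl
  intro l _
  show (1 / (l : ℝ)) ^ (d.factorization l) = ((l : ℝ) ^ (d.factorization l))⁻¹
  rw [one_div, inv_pow]

lemma Fm_rpow (σ : ℝ) {d : ℕ} (hd : d ≠ 0) : Fm (fun l => (l : ℝ) ^ σ) d = (d : ℝ) ^ σ := by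
  conv_rhs => rw [← Fm_id hd, Fm_ne hd]
  rw [Fm_ne hd]
  unfold Finsupp.prod
  rw [← Real.finsetProd_rpow _ _ (fun l _ => by positivity)]
  apply Finset.prod_congr rfl
  intro l _
  show ((l : ℝ) ^ σ) ^ (d.factorization l) = ((l : ℝ) ^ (d.factorization l)) ^ σ
  rw [← Real.rpow_natCast, ← Real.rpow_natCast, ← Real.rpow_mul (Nat.cast_nonneg _), ← Real.rpow_mul (Nat.cast_nonneg _), mul_comm]

/-- squarefree numbers -/
theorem sqf_le {S : Finset ℕ} {f : ℕ → ℝ} (hf : ∀ l, 0 ≤ f l) (hS : ∀ l ∈ S, l.Prime) (n : ℕ) :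
    ∀ A : Finset ℕ, (∀ a ∈ A, Squarefree a ∧ Smo S a ∧ cardFactors a = n) →
      ∑ a ∈ A, Fm f a ≤ (∑ l ∈ S, f l) ^ n / n.factorial := by
  classical
  induction n with
  | zero =>
    intro A hA
    have h1 : ∀ a ∈ A, a = 1 := by
      intro a ha
      obtain ⟨_, h2, h3⟩ := hA a ha
      rw [ArithmeticFunction.cardFactors_eq_zero_iff_eq_zero_or_one] at h3
      exact h3.resolve_left h2.1
    have h2 : A ⊆ {1} := fun a ha => by rw [mem_singleton]; exact h1 a ha
    calc ∑ a ∈ A, Fm f a ≤ ∑ a ∈ ({1} : Finset ℕ), Fm f a := sum_le_sum_of_subset_of_nonneg h2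
          fun _ _ _ => Fm_nonneg hf _
      _ = 1 := by rw [sum_singleton, Fm_one]
      _ = _ := by simp
  | succ n ih =>
    intro A hA
    set P := ∑ l ∈ S, f l with hP
    have h1 : ((n : ℝ) + 1) * ∑ a ∈ A, Fm f a = ∑ a ∈ A, ∑ l ∈ S, if l ∣ a then f l * Fm f (a / l) else 0 := by
      rw [mul_sum]
      apply sum_congr rfl
      intro a ha
      obtain ⟨h2, h3, h4⟩ := hA a ha
      have h5 : ∀ l ∈ S, (if l ∣ a then f l * Fm f (a / l) else 0) = if l ∣ a then Fm f a else 0 := by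
        intro l hl
        split_ifs with h
        · obtain ⟨c, rfl⟩ := h
          rw [Nat.mul_div_cancel_left _ (hS l hl).pos, Fm_mul, Fm_prime f (hS l hl)]
        · rfl
      rw [sum_congr rfl h5, ← sum_filter, sum_const, nsmul_eq_mul]
      congr 1
      have h6 : S.filter (fun l => l ∣ a) = a.primeFactors := by
        ext l
        rw [mem_filter, Nat.mem_primeFactors]
        constructor
        · rintro ⟨x, y⟩
          exact ⟨hS l x, y, h3.1⟩
        · rintro ⟨x, y, _⟩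
          exact ⟨h3.2 l x y, y⟩
      rw [h6]
      have h7 : a.primeFactors.card = n + 1 := by
        rw [← h4, ← (ArithmeticFunction.cardDistinctFactors_eq_cardFactors_iff_squarefree h3.1).2 h2]
        rw [ArithmeticFunction.cardDistinctFactors_apply]
        rfl
      rw [h7]
      push_cast
      ring
    have h2 : ∑ a ∈ A, ∑ l ∈ S, (if l ∣ a then f l * Fm f (a / l) else 0) ≤ ∑ l ∈ S, f l * (P ^ n / n.factorial) := by
      rw [sum_comm]
      apply sum_le_sum
      intro l hl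
      rw [← sum_filter, ← mul_sum]
      apply mul_le_mul_of_nonneg_left _ (hf l)
      have h3 : ∑ a ∈ A.filter (fun a => l ∣ a), Fm f (a / l) = ∑ b ∈ (A.filter (fun a => l ∣ a)).image (fun a => a / l), Fm f b := by
        rw [sum_image]
        intro a ha b hb hab
        rw [mem_coe, mem_filter] at ha hb
        obtain ⟨c, rfl⟩ := ha.2
        obtain ⟨e, rfl⟩ := hb.2
        simp only at hab
        rw [Nat.mul_div_cancel_left _ (hS l hl).pos, Nat.mul_div_cancel_left _ (hS l hl).pos] at hab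
        rw [hab]
      rw [h3]
      apply ih
      intro b hb
      rw [mem_image] at hb
      obtain ⟨a, ha, rfl⟩ := hb
      rw [mem_filter] at ha
      obtain ⟨ha1, c, rfl⟩ := ha
      rw [Nat.mul_div_cancel_left _ (hS l hl).pos]
      obtain ⟨x, y, z⟩ := hA _ ha1
      refine ⟨x.squarefree_of_dvd (dvd_mul_left _ _), y.of_dvd (dvd_mul_left _ _), ?_⟩
      have hc : c ≠ 0 := fun h => y.1 (by rw [h, mul_zero])
      rw [cardFactors_mul (hS l hl).ne_zero hc, ArithmeticFunction.cardFactors_apply_prime (hS l hl)] at z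
      omega
    rw [← sum_mul, ← h1] at h2
    have h3 : (0 : ℝ) < (n : ℝ) + 1 := by positivity
    rw [Nat.factorial_succ]
    push_cast
    rw [le_div_iff₀ (by positivity)]
    have h4 : P * (P ^ n / n.factorial) * n.factorial = P ^ (n + 1) := by
      rw [pow_succ]
      field_simp
    have h5 : (0 : ℝ) < n.factorial := by positivity
    calc (∑ a ∈ A, Fm f a) * (((n : ℝ) + 1) * n.factorial) = ((n : ℝ) + 1) * (∑ a ∈ A, Fm f a) * n.factorial := by ring
      _ ≤ P * (P ^ n / n.factorial) * n.factorial := by gcongr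
      _ = _ := h4

/-- sums over smooth numbers -/
theorem smo_le {S : Finset ℕ} {g : ℕ → ℝ} (hg : ∀ l, 0 ≤ g l) (hg1 : ∀ l, g l < 1) (hS : ∀ l ∈ S, l.Prime)
    (B : Finset ℕ) (hB : ∀ b ∈ B, Smo S b) : ∑ b ∈ B, Fm g b ≤ ∏ l ∈ S, (1 - g l)⁻¹ := by
  classical
  have h1 := (EulerProduct.summable_and_hasSum_factoredNumbers_prod_filter_prime_geometric (F := ℝ)
    (f := (FmHom g : ℕ →* ℝ))
    (fun {p} hp => by
      show ‖Fm g p‖ < 1
      rw [Fm_prime g hp, Real.norm_of_nonneg (hg p)]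
      exact hg1 p) S).2
  have h2 : ∏ p ∈ S with p.Prime, (1 - (FmHom g : ℕ →* ℝ) p)⁻¹ = ∏ l ∈ S, (1 - g l)⁻¹ := by
    rw [filter_true_of_mem hS]
    apply prod_congr rfl
    intro l hl
    show (1 - Fm g l)⁻¹ = _
    rw [Fm_prime g (hS l hl)]
  rw [h2] at h1
  have h3 : ∀ b ∈ B, b ∈ Nat.factoredNumbers S := by
    intro b hb
    rw [Nat.mem_factoredNumbers]
    refine ⟨(hB b hb).1, fun p hp => ?_⟩
    exact (hB b hb).2 p (Nat.prime_of_mem_primeFactorsList hp) (Nat.dvd_of_mem_primeFactorsList hp)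
  have h4 : ∑ b ∈ B, Fm g b = ∑ b ∈ B.attach.image (fun b => (⟨b.1, h3 b.1 b.2⟩ : Nat.factoredNumbers S)),
      (FmHom g : ℕ →* ℝ) b := by
    rw [sum_image]
    · rw [← sum_attach]
      rfl
    · intro a _ b _ hab
      simp only [Subtype.mk.injEq] at hab
      exact Subtype.ext hab
  rw [h4]
  exact sum_le_hasSum _ (fun b _ => Fm_nonneg hg _) h1

/-- **the upper bound**: `M` is an upper bound for the `P ^ n / n!` -/
theorem hm_le {S : Finset ℕ} {f : ℕ → ℝ} (hf : ∀ l, 0 ≤ f l) (hf1 : ∀ l, f l ^ 2 < 1) (hS : ∀ l ∈ S, l.Prime)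
    {M : ℝ} (hM : ∀ n : ℕ, (∑ l ∈ S, f l) ^ n / n.factorial ≤ M) (m : ℕ)
    (D : Finset ℕ) (hD : ∀ d ∈ D, Smo S d ∧ cardFactors d = m) :
    ∑ d ∈ D, Fm f d ≤ (∑ l ∈ S, f l) ^ m / m.factorial + (∏ l ∈ S, (1 - f l ^ 2)⁻¹ - 1) * M := by
  classical
  have hM0 : 0 ≤ M := by
    have := hM 0
    simp only [pow_zero, Nat.factorial_zero, Nat.cast_one, div_one] at this
    linarith
  have hex : ∀ d : ℕ, ∃ a b : ℕ, b ^ 2 * a = d ∧ Squarefree a := Nat.sq_mul_squarefree
  choose a b hab hsq using hex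
  have hdb : ∀ d, b d ^ 2 ∣ d := fun d => ⟨a d, (hab d).symm⟩
  have hda : ∀ d, a d ∣ d := fun d => ⟨b d ^ 2, by rw [mul_comm]; exact (hab d).symm⟩
  -- the sum over the fibre of `b`
  have key : ∀ c : ℕ, ∑ d ∈ D.filter (fun d => b d = c), Fm f d ≤
      if c = 1 then (∑ l ∈ S, f l) ^ m / m.factorial else Fm (fun l => f l ^ 2) c * M := by
    intro c
    have h1 : ∑ d ∈ D.filter (fun d => b d = c), Fm f d = Fm f (c ^ 2) * ∑ e ∈ (D.filter (fun d => b d = c)).image a, Fm f e := by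
      rw [sum_image, mul_sum]
      · apply sum_congr rfl
        intro d hd
        rw [← Fm_mul, ← (mem_filter.1 hd).2, hab]
      · intro d hd d' hd' he
        rw [mem_coe, mem_filter] at hd hd'
        rw [← hab d, ← hab d', hd.2, hd'.2, he]
    rcases Finset.eq_empty_or_nonempty (D.filter (fun d => b d = c)) with h0 | ⟨d0, hd0⟩
    · rw [h0, sum_empty]
      split_ifs
      · have h5 : 0 ≤ ∑ l ∈ S, f l := sum_nonneg fun l _ => hf l
        positivity
      · exact mul_nonneg (Fm_nonneg (fun l => sq_nonneg _) _) hM0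
    · rw [mem_filter] at hd0
      have hc0 : c ≠ 0 := by
        rintro rfl
        have h2 := hab d0
        rw [hd0.2] at h2
        exact (hD d0 hd0.1).1.1 (by rw [← h2]; simp)
      have hom : 2 * cardFactors c ≤ m := by
        have h2 := hab d0
        have h3 := (hD d0 hd0.1)
        rw [← h3.2]
        conv_rhs => rw [← h2]
        have ha0 : a d0 ≠ 0 := (hsq d0).ne_zero
        rw [cardFactors_mul (pow_ne_zero _ (by rw [hd0.2]; exact hc0)) ha0, ArithmeticFunction.cardFactors_pow, hd0.2]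
        omega
      have h2 := sqf_le hf hS (m - 2 * cardFactors c) ((D.filter (fun d => b d = c)).image a) (by
        intro e he
        rw [mem_image] at he
        obtain ⟨d, hd, rfl⟩ := he
        rw [mem_filter] at hd
        refine ⟨hsq d, (hD d hd.1).1.of_dvd (hda d), ?_⟩
        have h3 := (hD d hd.1).2
        have h4 := hab d
        rw [← h4, cardFactors_mul (pow_ne_zero _ (by rw [hd.2]; exact hc0)) (hsq d).ne_zero,
          ArithmeticFunction.cardFactors_pow, hd.2] at h3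
        omega)
      rw [h1]
      have h3 : Fm f (c ^ 2) = Fm (fun l => f l ^ 2) c := by
        have : (fun l => f l ^ 2) = fun l => f l * f l := by funext l; ring
        rw [this, Fm_mulf, pow_two, Fm_mul]
      rw [h3]
      have h4 : 0 ≤ Fm (fun l => f l ^ 2) c := Fm_nonneg (fun l => sq_nonneg _) _
      split_ifs with h5
      · subst h5
        rw [Fm_one, one_mul]
        simpa using h2
      · exact mul_le_mul_of_nonneg_left (h2.trans (hM _)) h4
  have h1 : ∑ d ∈ D, Fm f d = ∑ c ∈ D.image b, ∑ d ∈ D.filter (fun d => b d = c), Fm f d :=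
    (sum_fiberwise_of_maps_to (fun d hd => mem_image_of_mem b hd) _).symm
  have hP0 : 0 ≤ ∑ l ∈ S, f l := sum_nonneg fun l _ => hf l
  have h2 : ∑ c ∈ D.image b, ∑ d ∈ D.filter (fun d => b d = c), Fm f d ≤
      ∑ c ∈ insert 1 (D.image b), (if c = 1 then (∑ l ∈ S, f l) ^ m / m.factorial else Fm (fun l => f l ^ 2) c * M) := by
    refine (sum_le_sum fun c _ => key c).trans ?_
    apply sum_le_sum_of_subset_of_nonneg (subset_insert _ _)
    intro c _ _
    split_ifs
    · positivity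
    · exact mul_nonneg (Fm_nonneg (fun l => sq_nonneg _) _) hM0
  have h3 : ∑ c ∈ insert 1 (D.image b), (if c = 1 then (∑ l ∈ S, f l) ^ m / m.factorial else Fm (fun l => f l ^ 2) c * M) =
      (∑ l ∈ S, f l) ^ m / m.factorial + (∑ c ∈ (insert 1 (D.image b)).erase 1, Fm (fun l => f l ^ 2) c) * M := by
    rw [← add_sum_erase _ _ (mem_insert_self 1 _), if_pos rfl, sum_mul]
    congr 1
    apply sum_congr rfl
    intro c hc
    rw [if_neg (ne_of_mem_erase hc)]
  have h4 : ∑ c ∈ insert 1 (D.image b), Fm (fun l => f l ^ 2) c ≤ ∏ l ∈ S, (1 - f l ^ 2)⁻¹ := by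
    apply smo_le (fun l => sq_nonneg _) hf1 hS
    intro c hc
    rw [mem_insert, mem_image] at hc
    rcases hc with rfl | ⟨d, hd, rfl⟩
    · exact ⟨one_ne_zero, fun p hp hd => absurd (Nat.dvd_one.1 hd) hp.ne_one⟩
    · exact (hD d hd).1.of_dvd ((dvd_pow_self _ two_ne_zero).trans (hdb d))
  rw [← add_sum_erase _ _ (mem_insert_self 1 _), Fm_one] at h4
  rw [h1]
  refine h2.trans ?_
  rw [h3]
  have h5 : (∑ c ∈ (insert 1 (D.image b)).erase 1, Fm (fun l => f l ^ 2) c) * M ≤ (∏ l ∈ S, (1 - f l ^ 2)⁻¹ - 1) * M :=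
    mul_le_mul_of_nonneg_right (by linarith) hM0
  linarith

/-- the numbers composed of `m` primes of `S` -/
noncomputable def Dm (S : Finset ℕ) : ℕ → Finset ℕ
  | 0 => {1}
  | m + 1 => (S ×ˢ Dm S m).image (fun x => x.1 * x.2)

lemma mem_Dm {S : Finset ℕ} (hS : ∀ l ∈ S, l.Prime) (m : ℕ) : ∀ d, d ∈ Dm S m ↔ Smo S d ∧ cardFactors d = m := by
  classical
  induction m with
  | zero =>
    intro d
    unfold Dm
    rw [mem_singleton, ArithmeticFunction.cardFactors_eq_zero_iff_eq_zero_or_one]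
    constructor
    · rintro rfl
      exact ⟨⟨one_ne_zero, fun p hp hd => absurd (Nat.dvd_one.1 hd) hp.ne_one⟩, Or.inr rfl⟩
    · rintro ⟨h1, h2⟩
      exact h2.resolve_left h1.1
  | succ m ih =>
    intro d
    unfold Dm
    rw [mem_image]
    constructor
    · rintro ⟨⟨l, e⟩, he, rfl⟩
      rw [mem_product] at he
      obtain ⟨h1, h2⟩ := he
      simp only at h1 h2 ⊢
      rw [ih] at h2
      have hl := hS l h1
      refine ⟨⟨mul_ne_zero hl.ne_zero h2.1.1, fun p hp hd => ?_⟩, ?_⟩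
      · rcases hp.dvd_mul.1 hd with h3 | h3
        · rw [(Nat.prime_dvd_prime_iff_eq hp hl).1 h3]; exact h1
        · exact h2.1.2 p hp h3
      · rw [cardFactors_mul hl.ne_zero h2.1.1, ArithmeticFunction.cardFactors_apply_prime hl, h2.2]
        omega
    · rintro ⟨h1, h2⟩
      have hd1 : d ≠ 1 := by
        rintro rfl
        simp at h2
      obtain ⟨l, hl, hd⟩ := Nat.exists_prime_and_dvd hd1
      obtain ⟨e, rfl⟩ := hd
      have he0 : e ≠ 0 := fun h => h1.1 (by rw [h, mul_zero])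
      refine ⟨(l, e), ?_, rfl⟩
      rw [mem_product]
      refine ⟨h1.2 l hl (dvd_mul_right _ _), ?_⟩
      rw [ih]
      refine ⟨h1.of_dvd (dvd_mul_left _ _), ?_⟩
      rw [cardFactors_mul hl.ne_zero he0, ArithmeticFunction.cardFactors_apply_prime hl] at h2
      simp only
      omega

/-- **the lower bound** -/
theorem hm_ge {S : Finset ℕ} {f : ℕ → ℝ} (hf : ∀ l, 0 ≤ f l) (hS : ∀ l ∈ S, l.Prime) (m : ℕ) :
    (∑ l ∈ S, f l) ^ m / m.factorial ≤ ∑ d ∈ Dm S m, Fm f d := by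
  classical
  induction m with
  | zero => unfold Dm; simp [Fm_one]
  | succ m ih =>
    have h1 : (∑ l ∈ S, f l) * ∑ d ∈ Dm S m, Fm f d = ∑ x ∈ S ×ˢ Dm S m, Fm f (x.1 * x.2) := by
      rw [sum_mul_sum, ← sum_product']
      apply sum_congr rfl
      intro x hx
      rw [mem_product] at hx
      rw [Fm_mul, Fm_prime f (hS _ hx.1)]
    have h2 : ∑ x ∈ S ×ˢ Dm S m, Fm f (x.1 * x.2) =
        ∑ d ∈ Dm S (m + 1), ∑ x ∈ (S ×ˢ Dm S m).filter (fun x => x.1 * x.2 = d), Fm f (x.1 * x.2) :=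
      (sum_fiberwise_of_maps_to (fun x hx => mem_image_of_mem (fun x : ℕ × ℕ => x.1 * x.2) hx) _).symm
    have h3 : ∀ d ∈ Dm S (m + 1), ∑ x ∈ (S ×ˢ Dm S m).filter (fun x => x.1 * x.2 = d), Fm f (x.1 * x.2) ≤
        ((m : ℝ) + 1) * Fm f d := by
      intro d hd
      have hd' := (mem_Dm hS (m + 1) d).1 hd
      have h4 : ∀ x ∈ (S ×ˢ Dm S m).filter (fun x => x.1 * x.2 = d), Fm f (x.1 * x.2) = Fm f d := by
        intro x hx
        rw [(mem_filter.1 hx).2]
      rw [sum_congr rfl h4, sum_const, nsmul_eq_mul]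
      apply mul_le_mul_of_nonneg_right _ (Fm_nonneg hf _)
      have h5 : ((S ×ˢ Dm S m).filter (fun x => x.1 * x.2 = d)).card ≤ d.primeFactors.card := by
        apply card_le_card_of_injOn Prod.fst
        · intro x hx
          rw [mem_coe, mem_filter, mem_product] at hx
          rw [mem_coe, Nat.mem_primeFactors]
          exact ⟨hS _ hx.1.1, ⟨x.2, hx.2.symm⟩, hd'.1.1⟩
        · intro x hx y hy hxy
          rw [mem_coe, mem_filter, mem_product] at hx hy
          have h6 : x.1 * x.2 = x.1 * y.2 := by rw [hx.2, hxy, hy.2]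
          have h7 := Nat.eq_of_mul_eq_mul_left (hS _ hx.1.1).pos h6
          exact Prod.ext hxy h7
      have h6 : d.primeFactors.card ≤ m + 1 := by
        rw [← hd'.2]
        rw [cardFactors_apply]
        exact List.toFinset_card_le _
      exact_mod_cast h5.trans h6
    have h4 : (∑ l ∈ S, f l) * ∑ d ∈ Dm S m, Fm f d ≤ ((m : ℝ) + 1) * ∑ d ∈ Dm S (m + 1), Fm f d := by
      rw [h1, h2, mul_sum]
      exact sum_le_sum h3
    have hP0 : 0 ≤ ∑ l ∈ S, f l := sum_nonneg fun l _ => hf l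
    rw [Nat.factorial_succ, div_le_iff₀ (by positivity)]
    push_cast
    have h5 : (∑ l ∈ S, f l) ^ (m + 1) = (∑ l ∈ S, f l) * ((∑ l ∈ S, f l) ^ m / m.factorial) * m.factorial := by
      rw [pow_succ]
      field_simp
    rw [h5]
    calc (∑ l ∈ S, f l) * ((∑ l ∈ S, f l) ^ m / m.factorial) * m.factorial ≤
        (∑ l ∈ S, f l) * (∑ d ∈ Dm S m, Fm f d) * m.factorial := by gcongr
      _ ≤ ((m : ℝ) + 1) * (∑ d ∈ Dm S (m + 1), Fm f d) * m.factorial := by gcongr
      _ = _ := by ring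

end Pool.Agent.K4H18.LS
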