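import Mathlib

/-! Bounds for the Poisson probabilities -/

set_option autoImplicit false

namespace Pool.Agent.K4H18.LS

open Finset

/-- the size of the largest probability -/
noncomputable def Mx (P : ℝ) : ℝ := Real.exp P / √P

lemma Mx_nonneg (P : ℝ) : 0 ≤ Mx P := by unfold Mx; positivity

lemma stir_upper {m : ℕ} (hm : 1 ≤ m) : (m.factorial : ℝ) ≤ Real.exp 1 * √m * (m / Real.exp 1) ^ m := by
  obtain ⟨n, rfl⟩ : ∃ n, m = n + 1 := ⟨m - 1, by omega⟩
  have h1 := Stirling.stirlingSeq'_antitone (Nat.zero_le n)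
  simp only [Function.comp_apply] at h1
  have h2 : Stirling.stirlingSeq (Nat.succ 0) = Real.exp 1 / √2 := Stirling.stirlingSeq_one
  rw [h2] at h1
  unfold Stirling.stirlingSeq at h1
  have h3 : (0 : ℝ) < √(2 * ((n + 1 : ℕ) : ℝ)) * (((n + 1 : ℕ) : ℝ) / Real.exp 1) ^ (n + 1) := by positivity
  have h1' : ((n + 1).factorial : ℝ) / (√(2 * ((n + 1 : ℕ) : ℝ)) * (((n + 1 : ℕ) : ℝ) / Real.exp 1) ^ (n + 1)) ≤
      Real.exp 1 / √2 := h1
  rw [div_le_iff₀ h3] at h1'
  refine h1'.trans (le_of_eq ?_)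
  rw [Real.sqrt_mul (by norm_num)]
  have : √(2 : ℝ) ≠ 0 := by positivity
  field_simp

lemma pow_fact_le' {P : ℝ} (hP : 1 ≤ P) {n : ℕ} (hn : P / 4 ≤ n) : P ^ n / n.factorial ≤ Mx P := by
  have hP0 : 0 < P := by linarith
  have hn0 : (0 : ℝ) < n := by linarith
  have hn1 : n ≠ 0 := by
    rintro rfl
    simp at hn0
  have h1 := Stirling.le_factorial_stirling n
  have h2 : (0 : ℝ) < √(2 * Real.pi * n) * (n / Real.exp 1) ^ n := by positivity
  have h3 : √P ≤ √(2 * Real.pi * n) := by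
    apply Real.sqrt_le_sqrt
    have := Real.pi_gt_three
    nlinarith
  have h4 : P ^ n ≤ Real.exp P * (n / Real.exp 1) ^ n := by
    have h5 : P / n * Real.exp 1 ≤ Real.exp (P / n) := by
      have h6 := Real.add_one_le_exp (P / n - 1)
      have h7 : Real.exp (P / n) = Real.exp (P / n - 1) * Real.exp 1 := by rw [← Real.exp_add]; ring_nf
      rw [h7]
      apply mul_le_mul_of_nonneg_right _ (Real.exp_nonneg _)
      linarith
    have h6 : (P / n * Real.exp 1) ^ n ≤ Real.exp (P / n) ^ n := pow_le_pow_left₀ (by positivity) h5 n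
    rw [← Real.exp_nat_mul] at h6
    have h7 : (n : ℝ) * (P / n) = P := by field_simp
    rw [h7] at h6
    calc P ^ n = (P / n * Real.exp 1) ^ n * (n / Real.exp 1) ^ n := by
          rw [← mul_pow]
          congr 1
          have := Real.exp_ne_zero 1
          field_simp
      _ ≤ _ := by gcongr
  unfold Mx
  rw [div_le_div_iff₀ (by positivity) (by positivity)]
  calc P ^ n * √P ≤ (Real.exp P * (n / Real.exp 1) ^ n) * √(2 * Real.pi * n) := by gcongr
    _ = Real.exp P * (√(2 * Real.pi * n) * (n / Real.exp 1) ^ n) := by ring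
    _ ≤ _ := by gcongr

/-- **the largest probability** -/
lemma pow_fact_le {P : ℝ} (hP : 1 ≤ P) (n : ℕ) : P ^ n / n.factorial ≤ Mx P := by
  have hP0 : 0 < P := by linarith
  rcases le_or_gt (P / 4) n with h | h
  · exact pow_fact_le' hP h
  · have h1 : ∀ j : ℕ, (n : ℝ) + j ≤ P → P ^ n / n.factorial ≤ P ^ (n + j) / (n + j).factorial := by
      intro j
      induction j with
      | zero => intro _; exact le_rfl
      | succ j ih =>
        intro hj
        push_cast at hj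
        refine (ih (by linarith)).trans ?_
        rw [← Nat.add_assoc, Nat.factorial_succ, pow_succ]
        push_cast
        rw [div_le_div_iff₀ (by positivity) (by positivity)]
        have h2 : (0 : ℝ) < ((n + j).factorial : ℝ) := by positivity
        have h3 : 0 < P ^ (n + j) := by positivity
        have h4 : (n : ℝ) + j + 1 ≤ P := by linarith
        calc P ^ (n + j) * (((n : ℝ) + j + 1) * (n + j).factorial) = (P ^ (n + j) * (n + j).factorial) * ((n : ℝ) + j + 1) := by ring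
          _ ≤ (P ^ (n + j) * (n + j).factorial) * P := by gcongr
          _ = _ := by ring
    have hfl : (⌊P⌋₊ : ℝ) ≤ P := Nat.floor_le hP0.le
    have hfl2 : P < ⌊P⌋₊ + 1 := Nat.lt_floor_add_one P
    have hfl1 : 1 ≤ ⌊P⌋₊ := Nat.le_floor (by simpa using hP)
    have hfl1' : (1 : ℝ) ≤ ⌊P⌋₊ := by exact_mod_cast hfl1
    have hnf : n ≤ ⌊P⌋₊ := by
      have : (n : ℝ) < ⌊P⌋₊ + 1 := by linarith
      have : n < ⌊P⌋₊ + 1 := by exact_mod_cast this
      omega
    obtain ⟨j, hj⟩ : ∃ j, n + j = ⌊P⌋₊ := ⟨⌊P⌋₊ - n, by omega⟩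
    have h2 := h1 j (by rw [← hj] at hfl; push_cast at hfl; exact hfl)
    rw [hj] at h2
    exact h2.trans (pow_fact_le' hP (by linarith))

/-- the lower bound near the mean -/
lemma pow_fact_ge {B P : ℝ} (hB : 1 ≤ B) (hP : 4 * B ^ 2 ≤ P) {m : ℕ} (hm : |(m : ℝ) - P| ≤ B * √P) :
    Real.exp (-(4 * B ^ 2) - 2) * Mx P ≤ P ^ m / m.factorial := by
  have hP0 : 0 < P := by nlinarith
  have hs0 : 0 < √P := Real.sqrt_pos.2 hP0
  have hss : √P * √P = P := Real.mul_self_sqrt hP0.le
  have h2B : 2 * B ≤ √P := Real.le_sqrt_of_sq_le (by linarith)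
  have hBP : B * √P ≤ P / 2 := by nlinarith
  rw [abs_le] at hm
  have hm1 : P / 2 ≤ m := by linarith
  have hm2 : (m : ℝ) ≤ 2 * P := by linarith
  have hm0 : (0 : ℝ) < m := by linarith
  have hm1' : 1 ≤ m := by
    rcases Nat.eq_zero_or_pos m with h | h
    · subst h; simp at hm0
    · exact h
  set x : ℝ := P / m with hx
  have hx0 : 0 < x := by positivity
  have hx1 : 1 / 2 ≤ x := by rw [hx, le_div_iff₀ hm0]; linarith
  have hlog : (x - 1) - 2 * (x - 1) ^ 2 ≤ Real.log x := by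
    have h1 := Real.one_sub_inv_le_log_of_pos hx0
    refine le_trans ?_ h1
    have h2 : 1 - x⁻¹ = (x - 1) - (x - 1) ^ 2 / x := by field_simp; ring
    rw [h2]
    have h3 : (x - 1) ^ 2 / x ≤ 2 * (x - 1) ^ 2 := by
      rw [div_le_iff₀ hx0]
      nlinarith [sq_nonneg (x - 1)]
    linarith
  have hmx : (m : ℝ) * x = P := by rw [hx]; field_simp
  have h1 : (m : ℝ) * (x - 1) ^ 2 ≤ 2 * B ^ 2 := by
    have h2 : (m : ℝ) * (x - 1) ^ 2 = (P - m) ^ 2 / m := by
      rw [hx]; field_simp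
    rw [h2, div_le_iff₀ hm0]
    have h3 : (P - m) ^ 2 ≤ (B * √P) ^ 2 := by
      apply sq_le_sq'
      · linarith
      · linarith
    rw [mul_pow, Real.sq_sqrt hP0.le] at h3
    nlinarith [sq_nonneg B]
  have h2 : P - 4 * B ^ 2 ≤ m * Real.log x + m := by
    have h3 : (m : ℝ) * ((x - 1) - 2 * (x - 1) ^ 2) ≤ m * Real.log x := mul_le_mul_of_nonneg_left hlog hm0.le
    nlinarith
  have h3 := stir_upper hm1'
  have h4 : P ^ m = Real.exp (m * Real.log x + m) * (m / Real.exp 1) ^ m := by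
    rw [Real.exp_add, Real.exp_nat_mul, Real.exp_log hx0]
    have h5 : Real.exp (m : ℝ) = Real.exp 1 ^ m := by rw [← Real.exp_nat_mul, mul_one]
    rw [h5, ← mul_pow, ← mul_pow]
    congr 1
    have := Real.exp_ne_zero 1
    rw [hx]
    field_simp
  unfold Mx
  rw [h4, le_div_iff₀ (by positivity)]
  have h5 : √(m : ℝ) ≤ Real.exp 1 * √P := by
    have h6 : √(m : ℝ) ≤ 2 * √P := by
      rw [Real.sqrt_le_left (by positivity), mul_pow, Real.sq_sqrt hP0.le]
      linarith
    have h7 : (2 : ℝ) ≤ Real.exp 1 := by have := Real.exp_one_gt_d9; linarith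
    calc √(m : ℝ) ≤ 2 * √P := h6
      _ ≤ _ := by gcongr
  calc Real.exp (-(4 * B ^ 2) - 2) * (Real.exp P / √P) * m.factorial
      ≤ Real.exp (-(4 * B ^ 2) - 2) * (Real.exp P / √P) * (Real.exp 1 * √m * (m / Real.exp 1) ^ m) := by gcongr
    _ ≤ Real.exp (-(4 * B ^ 2) - 2) * (Real.exp P / √P) * (Real.exp 1 * (Real.exp 1 * √P) * (m / Real.exp 1) ^ m) := by gcongr
    _ = (Real.exp (-(4 * B ^ 2) - 2) * Real.exp P * Real.exp 1 * Real.exp 1) * (m / Real.exp 1) ^ m := by
        field_simp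
    _ = Real.exp (P - 4 * B ^ 2) * (m / Real.exp 1) ^ m := by
        rw [← Real.exp_add, ← Real.exp_add, ← Real.exp_add]
        congr 2
        ring
    _ ≤ _ := by gcongr

/-- small changes of the mean -/
lemma pow_fact_diff {P Q δ : ℝ} (hP : 1 ≤ P) (hPQ : P ≤ Q) (hQ : Q ≤ P + δ) (hδ : δ ≤ 1) (m : ℕ) :
    Q ^ m / m.factorial ≤ P ^ m / m.factorial + 3 * δ * Mx P := by
  have hP0 : 0 < P := by linarith
  have hδ0 : 0 ≤ δ := by linarith
  have hQ0 : 0 < Q := by linarith
  have hMP := Mx_nonneg P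
  rcases Nat.eq_zero_or_pos m with rfl | hm
  · simp only [pow_zero, Nat.factorial_zero, Nat.cast_one]
    have : 0 ≤ 3 * δ * Mx P := by positivity
    linarith
  obtain ⟨n, rfl⟩ : ∃ n, m = n + 1 := ⟨m - 1, by omega⟩
  have h1 : Q ^ (n + 1) - P ^ (n + 1) ≤ δ * ((n + 1) * Q ^ n) := by
    have h2 : Q ^ (n + 1) - P ^ (n + 1) = (Q - P) * ∑ i ∈ range (n + 1), Q ^ i * P ^ (n - i) := by
      have := Commute.mul_geom_sum₂ (Commute.all Q P) (n + 1)
      rw [← this]
      congr 1
    rw [h2]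
    have h3 : ∑ i ∈ range (n + 1), Q ^ i * P ^ (n - i) ≤ (n + 1) * Q ^ n := by
      calc ∑ i ∈ range (n + 1), Q ^ i * P ^ (n - i) ≤ ∑ _i ∈ range (n + 1), Q ^ n := by
            apply sum_le_sum
            intro i hi
            rw [mem_range] at hi
            calc Q ^ i * P ^ (n - i) ≤ Q ^ i * Q ^ (n - i) := by gcongr
              _ = Q ^ n := by rw [← pow_add]; congr 1; omega
        _ = _ := by rw [sum_const, card_range, nsmul_eq_mul]; push_cast; ring
    have h4 : 0 ≤ ∑ i ∈ range (n + 1), Q ^ i * P ^ (n - i) := sum_nonneg fun i _ => by positivity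
    exact mul_le_mul (by linarith) h3 h4 hδ0
  have hf : (0 : ℝ) < (n + 1).factorial := by positivity
  have h2 : Q ^ (n + 1) / (n + 1).factorial ≤ P ^ (n + 1) / (n + 1).factorial + δ * (Q ^ n / n.factorial) := by
    have h3 : Q ^ (n + 1) ≤ P ^ (n + 1) + δ * ((n + 1) * Q ^ n) := by linarith
    calc Q ^ (n + 1) / (n + 1).factorial ≤ (P ^ (n + 1) + δ * ((n + 1) * Q ^ n)) / (n + 1).factorial := by gcongr
      _ = _ := by
        rw [add_div]
        congr 1
        rw [Nat.factorial_succ]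
        push_cast
        field_simp
  refine h2.trans ?_
  have h3 := pow_fact_le (hP.trans hPQ) n
  have h4 : Mx Q ≤ 3 * Mx P := by
    unfold Mx
    have h5 : √P ≤ √Q := Real.sqrt_le_sqrt hPQ
    have h6 : Real.exp Q ≤ 3 * Real.exp P := by
      have h7 : Real.exp Q ≤ Real.exp (P + 1) := Real.exp_le_exp.2 (by linarith)
      rw [Real.exp_add] at h7
      have h8 : Real.exp 1 ≤ 3 := by have := Real.exp_one_lt_d9; linarith
      nlinarith [Real.exp_pos P]
    rw [← mul_div_assoc]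
    have : 0 < √P := Real.sqrt_pos.2 hP0
    gcongr
  have h5 : δ * (Q ^ n / n.factorial) ≤ δ * (3 * Mx P) := mul_le_mul_of_nonneg_left (h3.trans h4) hδ0
  linarith

end Pool.Agent.K4H18.LS
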