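import Pool.Agent.K4H18.LS.L1
import Pool.Agent.K4H18.LS.L2
import Pool.Agent.K4H18.LS.L3

/-! The sums of the densities: upper bounds -/

set_option autoImplicit false

namespace Pool.Agent.K4H18.LS

open Finset
open ArithmeticFunction (cardFactors)
open Pool.Agent.W208.TL (PP sm)
open Pool.Agent.K4H18.AC (mem_PP psi VV VV_le VV_nonneg dens_le PP_eq)

lemma PP_prime {w y : ℕ} : ∀ l ∈ PP w y, l.Prime := fun _ hl => (mem_PP.1 hl).2

lemma smo_sm {w y d : ℕ} (h : sm w y d = d) : Smo (PP w y) d := by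
  refine ⟨?_, fun p hp hd => ?_⟩
  · rw [← h]
    exact Pool.Agent.W591.TL.sm_ne_zero _ _ _
  · rw [← h] at hd
    exact (Pool.Agent.W591.TL.prime_dvd_sm hp hd).1

lemma sm_smo {w y d : ℕ} (h : Smo (PP w y) d) : sm w y d = d := by
  unfold sm
  conv_rhs => rw [← Nat.prod_factorization_pow_eq_self h.1]
  unfold Finsupp.prod
  symm
  apply prod_subset
  · intro p hp
    exact h.2 p (Nat.prime_of_mem_primeFactors hp) (Nat.dvd_of_mem_primeFactors hp)
  · intro p hp hp'
    rw [Finsupp.notMem_support_iff] at hp'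
    show p ^ (d.factorization p) = 1
    rw [hp', pow_zero]

/-- the sum of the `1 / l` -/
noncomputable def PS (w y : ℕ) : ℝ := ∑ l ∈ PP w y, 1 / (l : ℝ)

/-- the weights -/
noncomputable def ff (k w y : ℕ) (σ : ℝ) (l : ℕ) : ℝ :=
  if l ∈ PP w y then Real.exp (2 * k / l) * (l : ℝ) ^ (σ - 1) else 0

lemma ff_nonneg (k w y : ℕ) (σ : ℝ) (l : ℕ) : 0 ≤ ff k w y σ l := by
  unfold ff
  split_ifs <;> positivity

lemma Fm_congr {S : Finset ℕ} {f g : ℕ → ℝ} (h : ∀ l ∈ S, f l = g l) {d : ℕ} (hd : Smo S d) : Fm f d = Fm g d := by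
  rw [Fm_ne hd.1, Fm_ne hd.1]
  apply Finset.prod_congr rfl
  intro l hl
  show f l ^ (d.factorization l) = g l ^ (d.factorization l)
  rw [h l (hd.2 l (Nat.prime_of_mem_primeFactors hl) (Nat.dvd_of_mem_primeFactors hl))]

lemma Fm_ff (k w y : ℕ) (σ : ℝ) {d : ℕ} (hd : Smo (PP w y) d) :
    Fm (ff k w y σ) d = Fm (fun l => Real.exp (2 * k / l)) d * (d : ℝ) ^ (σ - 1) := by
  rw [← Fm_rpow (σ - 1) hd.1, ← Fm_mulf]
  apply Fm_congr _ hd
  intro l hl
  unfold ff
  rw [if_pos hl]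

lemma psi_exp (k w y : ℕ) {d : ℕ} (hd : d ≠ 0) :
    Real.exp (2 * k * psi w y d) ≤ Fm (fun l => Real.exp (2 * k / l)) d := by
  classical
  rw [Fm_ne hd]
  unfold Finsupp.prod
  have e : ∀ l ∈ d.factorization.support, Real.exp (2 * k / l) ^ (d.factorization l) =
      Real.exp (d.factorization l * (2 * k / l)) := fun l _ => (Real.exp_nat_mul _ _).symm
  rw [prod_congr rfl e, ← Real.exp_sum]
  apply Real.exp_le_exp.2
  unfold psi
  rw [mul_sum]
  have h1 : ∑ l ∈ PP w y, 2 * (k : ℝ) * ((if l ∣ d then (1 : ℝ) else 0) / l) =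
      ∑ l ∈ (PP w y).filter (fun l => l ∣ d), 2 * (k : ℝ) / l := by
    rw [sum_filter]
    apply sum_congr rfl
    intro l _
    split_ifs <;> ring
  rw [h1]
  calc ∑ l ∈ (PP w y).filter (fun l => l ∣ d), 2 * (k : ℝ) / l ≤ ∑ l ∈ d.factorization.support, 2 * (k : ℝ) / l := by
        apply sum_le_sum_of_subset_of_nonneg
        · intro l hl
          rw [mem_filter] at hl
          rw [Nat.support_factorization, Nat.mem_primeFactors]
          exact ⟨PP_prime l hl.1, hl.2, hd⟩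
        · intro l _ _
          positivity
    _ ≤ ∑ l ∈ d.factorization.support, (d.factorization l : ℝ) * (2 * k / l) := by
        apply sum_le_sum
        intro l hl
        have h2 : (1 : ℝ) ≤ d.factorization l := by
          exact_mod_cast Nat.one_le_iff_ne_zero.2 (Finsupp.mem_support_iff.1 hl)
        have h3 : (0 : ℝ) ≤ 2 * k / l := by positivity
        nlinarith

lemma dens_ff {k w y : ℕ} (hw : k + 1 ≤ w) (d : Fin k → ℕ) (hd : ∀ i, Smo (PP w y) (d i)) :
    Pool.Agent.W208.TL.dens w y d ≤ ∏ i, (VV w y * Fm (ff k w y 0) (d i)) := by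
  refine (dens_le hw d).trans ?_
  have h1 : Real.exp (2 * k * ∑ i, psi w y (d i)) * ∏ i, (VV w y / d i) =
      ∏ i, (VV w y * (Real.exp (2 * k * psi w y (d i)) * (d i : ℝ)⁻¹)) := by
    rw [mul_sum, Real.exp_sum, ← prod_mul_distrib]
    apply prod_congr rfl
    intro i _
    rw [div_eq_mul_inv]
    ring
  rw [h1]
  apply prod_le_prod
  · intro i _
    have := VV_nonneg w y
    positivity
  · intro i _
    apply mul_le_mul_of_nonneg_left _ (VV_nonneg _ _)
    rw [Fm_ff k w y 0 (hd i)]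
    have h2 : ((d i : ℕ) : ℝ) ^ ((0 : ℝ) - 1) = (d i : ℝ)⁻¹ := by rw [zero_sub, Real.rpow_neg_one]
    rw [h2]
    apply mul_le_mul_of_nonneg_right _ (by positivity)
    exact psi_exp k w y (hd i).1

/-- the sum of the densities over a product set -/
theorem dens_sum_le {k w y : ℕ} (hw : k + 1 ≤ w) (D : Fin k → Finset ℕ) (hD : ∀ i, ∀ d ∈ D i, Smo (PP w y) d) :
    ∑ d ∈ Fintype.piFinset D, Pool.Agent.W208.TL.dens w y d ≤ ∏ i, (VV w y * ∑ d ∈ D i, Fm (ff k w y 0) d) := by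
  classical
  calc ∑ d ∈ Fintype.piFinset D, Pool.Agent.W208.TL.dens w y d ≤
        ∑ d ∈ Fintype.piFinset D, ∏ i, (VV w y * Fm (ff k w y 0) (d i)) := by
        apply sum_le_sum
        intro d hd
        rw [Fintype.mem_piFinset] at hd
        exact dens_ff hw d (fun i => hD i _ (hd i))
    _ = ∏ i, ∑ d ∈ D i, (VV w y * Fm (ff k w y 0) d) :=
        (prod_univ_sum D (fun _ d => VV w y * Fm (ff k w y 0) d)).symm
    _ = _ := by
        apply prod_congr rfl
        intro i _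
        rw [mul_sum]

lemma exp_small {x : ℝ} (h0 : 0 ≤ x) (h1 : x ≤ 1) : Real.exp x ≤ 1 + 2 * x := by
  have := Real.abs_exp_sub_one_le (x := x) (by rw [abs_of_nonneg h0]; exact h1)
  rw [abs_of_nonneg h0] at this
  have := (abs_le.1 this).2
  linarith

lemma inv_sq (w y : ℕ) (hw : 1 ≤ w) : ∑ l ∈ PP w y, 1 / (l : ℝ) ^ 2 ≤ 1 / (w : ℝ) := by
  rw [PP_eq]
  exact Pool.Agent.TH445.OI.inv_sq_tail w y hw

/-- the weights are small -/
lemma ff_le {k w y : ℕ} (hw : 4 * k + 12 ≤ w) (hy : 3 ≤ y) {σ : ℝ} (h0 : 0 ≤ σ) (h1 : σ ≤ 1 / Real.log y) (l : ℕ) :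
    ff k w y σ l ≤ 6 / l ∧ ff k w y σ l ≤ 1 / 2 := by
  unfold ff
  split_ifs with hl
  · have h2 := mem_PP.1 hl
    have hlw : (4 : ℝ) * k + 12 ≤ l := by exact_mod_cast (by omega : 4 * k + 12 ≤ l)
    have hk0 : (0 : ℝ) ≤ k := Nat.cast_nonneg k
    have hl0 : (0 : ℝ) < l := by linarith
    have hly : 0 < Real.log y := Real.log_pos (by exact_mod_cast (by omega : 1 < y))
    have h3 : Real.exp (2 * k / l) ≤ 2 := by
      have h4 : 2 * (k : ℝ) / l ≤ 1 / 2 := by rw [div_le_iff₀ hl0]; linarith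
      have := exp_small (x := 2 * (k : ℝ) / l) (by positivity) (by linarith)
      linarith
    have h4 : (l : ℝ) ^ σ ≤ 3 := by
      have h5 : (l : ℝ) ^ σ ≤ (l : ℝ) ^ (1 / Real.log y) := Real.rpow_le_rpow_of_exponent_le (by linarith) h1
      have h6 : (l : ℝ) ^ (1 / Real.log y) ≤ Real.exp 1 := by
        rw [Real.rpow_def_of_pos hl0]
        apply Real.exp_le_exp.2
        rw [mul_one_div, div_le_one hly]
        exact Real.log_le_log hl0 (by exact_mod_cast h2.1.2)
      have h7 := Real.exp_one_lt_d9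
      linarith
    have h5 : (l : ℝ) ^ (σ - 1) = (l : ℝ) ^ σ / l := by rw [Real.rpow_sub hl0, Real.rpow_one]
    have h6 : Real.exp (2 * k / l) * (l : ℝ) ^ (σ - 1) ≤ 6 / l := by
      rw [h5, ← mul_div_assoc]
      apply div_le_div_of_nonneg_right _ hl0.le
      calc Real.exp (2 * k / l) * (l : ℝ) ^ σ ≤ 2 * 3 := by
            apply mul_le_mul h3 h4 (by positivity) (by norm_num)
        _ = 6 := by norm_num
    refine ⟨h6, h6.trans ?_⟩
    rw [div_le_iff₀ hl0]
    linarith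
  · constructor <;> positivity

lemma ff_prod {k w y : ℕ} (hw : 4 * k + 72 ≤ w) (hy : 3 ≤ y) {σ : ℝ} (h0 : 0 ≤ σ) (h1 : σ ≤ 1 / Real.log y) :
    ∏ l ∈ PP w y, (1 - ff k w y σ l ^ 2)⁻¹ - 1 ≤ 144 / (w : ℝ) := by
  have hwR : (72 : ℝ) ≤ w := by exact_mod_cast (by omega : 72 ≤ w)
  have hw0 : (0 : ℝ) < w := by linarith
  have h2 : ∏ l ∈ PP w y, (1 - ff k w y σ l ^ 2)⁻¹ ≤ Real.exp (72 / (w : ℝ)) := by
    calc ∏ l ∈ PP w y, (1 - ff k w y σ l ^ 2)⁻¹ ≤ ∏ l ∈ PP w y, Real.exp (72 * (1 / (l : ℝ) ^ 2)) := by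
          apply prod_le_prod
          · intro l _
            have h3 := ff_le (by omega) hy h0 h1 l (k := k) (w := w)
            have h4 := ff_nonneg k w y σ l
            apply inv_nonneg.2
            nlinarith [h3.2]
          · intro l hl
            obtain ⟨h3, h3'⟩ := ff_le (by omega) hy h0 h1 l (k := k) (w := w)
            have h4 := ff_nonneg k w y σ l
            set x := ff k w y σ l ^ 2 with hx
            have hx0 : 0 ≤ x := sq_nonneg _
            have hx1 : x ≤ 1 / 2 := by rw [hx]; nlinarith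
            have hl0 : (0 : ℝ) < l := by exact_mod_cast (mem_PP.1 hl).2.pos
            have hx2 : x ≤ 36 * (1 / (l : ℝ) ^ 2) := by
              have : x ≤ (6 / (l : ℝ)) ^ 2 := by rw [hx]; exact pow_le_pow_left₀ h4 h3 2
              rw [div_pow] at this
              norm_num at this
              calc x ≤ 36 / (l : ℝ) ^ 2 := this
                _ = _ := by ring
            have h5 : (1 - x)⁻¹ ≤ 1 + 2 * x := by
              rw [inv_le_comm₀ (by linarith) (by linarith), inv_le_iff_one_le_mul₀ (by linarith)]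
              nlinarith
            have h6 := Real.add_one_le_exp (2 * x)
            have h7 : Real.exp (2 * x) ≤ Real.exp (72 * (1 / (l : ℝ) ^ 2)) := Real.exp_le_exp.2 (by linarith)
            linarith
      _ = Real.exp (72 * ∑ l ∈ PP w y, 1 / (l : ℝ) ^ 2) := by rw [mul_sum, Real.exp_sum]
      _ ≤ Real.exp (72 / (w : ℝ)) := by
          apply Real.exp_le_exp.2
          have := inv_sq w y (by omega)
          calc 72 * ∑ l ∈ PP w y, 1 / (l : ℝ) ^ 2 ≤ 72 * (1 / (w : ℝ)) := by gcongr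
            _ = 72 / (w : ℝ) := by ring
  have h3 := exp_small (x := 72 / (w : ℝ)) (by positivity) (by rw [div_le_one hw0]; exact hwR)
  have h4 : 2 * (72 / (w : ℝ)) = 144 / w := by ring
  linarith

lemma ff_sum0 {k w y : ℕ} (hw : 4 * k + 12 ≤ w) : PS w y ≤ ∑ l ∈ PP w y, ff k w y 0 l ∧
    ∑ l ∈ PP w y, ff k w y 0 l ≤ PS w y + 4 * k / w := by
  have hw0 : (0 : ℝ) < w := by exact_mod_cast (by omega : 0 < w)
  have hk0 : (0 : ℝ) ≤ k := Nat.cast_nonneg k
  constructor
  · unfold PS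
    apply sum_le_sum
    intro l hl
    have hl0 : (0 : ℝ) < l := by exact_mod_cast (mem_PP.1 hl).2.pos
    unfold ff
    rw [if_pos hl, zero_sub, Real.rpow_neg_one, one_div]
    have : 1 ≤ Real.exp (2 * k / l) := Real.one_le_exp (by positivity)
    exact le_mul_of_one_le_left (by positivity) this
  · have h1 : ∀ l ∈ PP w y, ff k w y 0 l ≤ 1 / l + 4 * k * (1 / (l : ℝ) ^ 2) := by
      intro l hl
      have h2 := mem_PP.1 hl
      have hlw : (4 : ℝ) * k + 12 ≤ l := by exact_mod_cast (by omega : 4 * k + 12 ≤ l)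
      have hl0 : (0 : ℝ) < l := by linarith
      unfold ff
      rw [if_pos hl, zero_sub, Real.rpow_neg_one]
      have h3 := exp_small (x := 2 * (k : ℝ) / l) (by positivity) (by rw [div_le_one hl0]; linarith)
      have h4 : (0 : ℝ) ≤ (l : ℝ)⁻¹ := by positivity
      calc Real.exp (2 * k / l) * (l : ℝ)⁻¹ ≤ (1 + 2 * (2 * k / l)) * (l : ℝ)⁻¹ := mul_le_mul_of_nonneg_right h3 h4
        _ = _ := by field_simp; ring
    calc ∑ l ∈ PP w y, ff k w y 0 l ≤ ∑ l ∈ PP w y, (1 / l + 4 * k * (1 / (l : ℝ) ^ 2)) := sum_le_sum h1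
      _ = PS w y + 4 * k * ∑ l ∈ PP w y, 1 / (l : ℝ) ^ 2 := by rw [sum_add_distrib, ← mul_sum]; rfl
      _ ≤ PS w y + 4 * k * (1 / (w : ℝ)) := by
          have := inv_sq w y (by omega)
          gcongr
      _ = _ := by ring

end Pool.Agent.K4H18.LS
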