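import Pool.Agent.K4H18.LS.L4

/-! The sums of the densities: upper bounds, continued -/

set_option autoImplicit false

namespace Pool.Agent.K4H18.LS

open Finset
open ArithmeticFunction (cardFactors)
open Pool.Agent.W208.TL (PP sm)
open Pool.Agent.K4H18.AC (mem_PP psi VV VV_le VV_nonneg dens_le PP_eq Adm sm_sm)

lemma Mx_le {P Q c : ℝ} (hP : 0 < P) (h1 : P ≤ Q) (h2 : Q ≤ P + c) : Mx Q ≤ Real.exp c * Mx P := by
  unfold Mx
  have h3 : Real.exp Q ≤ Real.exp c * Real.exp P := by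
    rw [← Real.exp_add]
    exact Real.exp_le_exp.2 (by linarith)
  have h4 : √P ≤ √Q := Real.sqrt_le_sqrt h1
  have h5 : 0 < √P := Real.sqrt_pos.2 hP
  rw [← mul_div_assoc]
  gcongr

lemma exp_Mx (P : ℝ) : Real.exp (-P) * Mx P = 1 / √P := by
  unfold Mx
  rw [Real.exp_neg]
  have := Real.exp_ne_zero P
  field_simp

/-- the Poisson probability -/
noncomputable def po (P : ℝ) (m : ℕ) : ℝ := Real.exp (-P) * (P ^ m / m.factorial)

lemma po_nonneg {P : ℝ} (hP : 0 ≤ P) (m : ℕ) : 0 ≤ po P m := by unfold po; positivity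

lemma po_le {P : ℝ} (hP : 1 ≤ P) (m : ℕ) : po P m ≤ 1 / √P := by
  unfold po
  rw [← exp_Mx]
  exact mul_le_mul_of_nonneg_left (pow_fact_le hP m) (Real.exp_nonneg _)

lemma VV_le' (w y : ℕ) : VV w y ≤ Real.exp (-PS w y) := VV_le w y

/-- the precise upper bound -/
theorem U1s {k w y : ℕ} (hw : 4 * k + 72 ≤ w) (hy : 3 ≤ y) (hP : 1 ≤ PS w y) (m : ℕ) (D : Finset ℕ)
    (hD : ∀ d ∈ D, Smo (PP w y) d ∧ cardFactors d = m) :
    ∑ d ∈ D, Fm (ff k w y 0) d ≤ PS w y ^ m / m.factorial + (12 * k + 432) / w * Mx (PS w y) := by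
  have hw0 : (0 : ℝ) < w := by exact_mod_cast (by omega : 0 < w)
  have hly : 0 < Real.log y := Real.log_pos (by exact_mod_cast (by omega : 1 < y))
  have hσ : (0 : ℝ) ≤ 1 / Real.log y := by positivity
  obtain ⟨s1, s2⟩ := ff_sum0 (k := k) (w := w) (y := y) (by omega)
  set P := PS w y with hPd
  set Q := ∑ l ∈ PP w y, ff k w y 0 l with hQ
  have hδ : 4 * (k : ℝ) / w ≤ 1 := by
    rw [div_le_one hw0]
    exact_mod_cast (by omega : 4 * k ≤ w)
  have hQ1 : 1 ≤ Q := hP.trans s1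
  have h1 := hm_le (S := PP w y) (f := ff k w y 0) (ff_nonneg k w y 0) (fun l => by
    have h3 := ff_le (k := k) (w := w) (by omega) hy le_rfl hσ l
    have h4 := ff_nonneg k w y 0 l
    nlinarith [h3.2]) PP_prime (fun n => pow_fact_le hQ1 n) m D hD
  have h2 := ff_prod (k := k) hw hy le_rfl hσ
  have h3 := pow_fact_diff hP s1 s2 hδ m
  have h4 := Mx_le (by linarith) s1 s2
  have h5 : Real.exp (4 * (k : ℝ) / w) ≤ 3 := by
    have := exp_small (x := 4 * (k : ℝ) / w) (by positivity) hδ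
    linarith
  have hM0 := Mx_nonneg P
  have hMQ := Mx_nonneg Q
  have h6 : Mx Q ≤ 3 * Mx P := h4.trans (mul_le_mul_of_nonneg_right h5 hM0)
  have h7 : ∑ d ∈ D, Fm (ff k w y 0) d ≤ P ^ m / m.factorial + (12 * k + 432) / w * Mx P := by
    refine h1.trans ?_
    have h8 : (∏ l ∈ PP w y, (1 - ff k w y 0 l ^ 2)⁻¹ - 1) * Mx Q ≤ 144 / w * (3 * Mx P) :=
      mul_le_mul h2 h6 hMQ (by positivity)
    have h9 : (12 * (k : ℝ) + 432) / w * Mx P = 3 * (4 * k / w) * Mx P + 144 / w * (3 * Mx P) := by field_simp; ring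
    rw [h9]
    linarith
  exact h7

/-- the precise upper bound -/
theorem U1 {k w y : ℕ} (hw : 4 * k + 72 ≤ w) (hy : 3 ≤ y) (hP : 1 ≤ PS w y) (m : ℕ) (D : Finset ℕ)
    (hD : ∀ d ∈ D, Smo (PP w y) d ∧ cardFactors d = m) :
    VV w y * ∑ d ∈ D, Fm (ff k w y 0) d ≤ po (PS w y) m + (12 * k + 432) / w * (1 / √(PS w y)) := by
  have h7 := U1s hw hy hP m D hD
  have h0 : 0 ≤ ∑ d ∈ D, Fm (ff k w y 0) d := sum_nonneg fun d _ => Fm_nonneg (ff_nonneg k w y 0) d
  calc VV w y * ∑ d ∈ D, Fm (ff k w y 0) d ≤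
        Real.exp (-PS w y) * (PS w y ^ m / m.factorial + (12 * k + 432) / w * Mx (PS w y)) :=
        mul_le_mul (VV_le' w y) h7 h0 (Real.exp_nonneg _)
    _ = po (PS w y) m + (12 * k + 432) / w * (Real.exp (-PS w y) * Mx (PS w y)) := by unfold po; ring
    _ = _ := by rw [exp_Mx]

/-- the sum of the weights with `σ = 1 / log y` -/
theorem ff_sumσ : ∃ c2 : ℝ, 0 ≤ c2 ∧ ∀ k w y : ℕ, 12 * k + 12 ≤ w → 3 ≤ y → c2 ≤ Real.log y →
    PS w y ≤ ∑ l ∈ PP w y, ff k w y (1 / Real.log y) l ∧ ∑ l ∈ PP w y, ff k w y (1 / Real.log y) l ≤ PS w y + 5 := by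
  obtain ⟨c2, hc2⟩ := Pool.Agent.Helper256.KM.mertens_log
  have hc20 : 0 ≤ c2 := (abs_nonneg _).trans (hc2 1 le_rfl)
  refine ⟨c2, hc20, ?_⟩
  intro k w y hw hy hcy
  have hly : 0 < Real.log y := Real.log_pos (by exact_mod_cast (by omega : 1 < y))
  have hw0 : (0 : ℝ) < w := by exact_mod_cast (by omega : 0 < w)
  have hk0 : (0 : ℝ) ≤ k := Nat.cast_nonneg k
  constructor
  · unfold PS
    apply sum_le_sum
    intro l hl
    have hl0 : (0 : ℝ) < l := by exact_mod_cast (mem_PP.1 hl).2.pos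
    have hl1 : (1 : ℝ) ≤ l := by exact_mod_cast (mem_PP.1 hl).2.one_lt.le
    unfold ff
    rw [if_pos hl, Real.rpow_sub hl0, Real.rpow_one]
    have h1 : 1 ≤ Real.exp (2 * k / l) := Real.one_le_exp (by positivity)
    have h2 : 1 ≤ (l : ℝ) ^ (1 / Real.log y) := Real.one_le_rpow hl1 (by positivity)
    calc 1 / (l : ℝ) ≤ (l : ℝ) ^ (1 / Real.log y) / l := by gcongr
      _ ≤ _ := le_mul_of_one_le_left (by positivity) h1
  · have h1 : ∀ l ∈ PP w y, ff k w y (1 / Real.log y) l ≤ 1 / l + 2 / Real.log y * (Real.log l / l) + 12 * k * (1 / (l : ℝ) ^ 2) := by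
      intro l hl
      have h2 := mem_PP.1 hl
      have hlw : (12 : ℝ) * k + 12 ≤ l := by exact_mod_cast (by omega : 12 * k + 12 ≤ l)
      have hl0 : (0 : ℝ) < l := by linarith
      have hll : 0 ≤ Real.log l := Real.log_nonneg (by linarith)
      have hlly : Real.log l ≤ Real.log y := Real.log_le_log hl0 (by exact_mod_cast h2.1.2)
      unfold ff
      rw [if_pos hl, Real.rpow_sub hl0, Real.rpow_one]
      have h3 := exp_small (x := 2 * (k : ℝ) / l) (by positivity) (by rw [div_le_one hl0]; linarith)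
      have h4 : (l : ℝ) ^ (1 / Real.log y) ≤ 1 + 2 * (Real.log l / Real.log y) := by
        rw [Real.rpow_def_of_pos hl0, mul_one_div]
        exact exp_small (by positivity) (by rw [div_le_one hly]; exact hlly)
      have h5 : Real.log l / Real.log y ≤ 1 := by rw [div_le_one hly]; exact hlly
      calc Real.exp (2 * k / l) * ((l : ℝ) ^ (1 / Real.log y) / l)
          ≤ (1 + 2 * (2 * k / l)) * ((1 + 2 * (Real.log l / Real.log y)) / l) := by
            apply mul_le_mul h3 _ (by positivity) (by positivity)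
            gcongr
        _ = (1 + 2 * (Real.log l / Real.log y)) / l + 4 * k * (1 + 2 * (Real.log l / Real.log y)) * (1 / (l : ℝ) ^ 2) := by
            field_simp
            ring
        _ ≤ (1 + 2 * (Real.log l / Real.log y)) / l + 4 * k * (1 + 2 * 1) * (1 / (l : ℝ) ^ 2) := by gcongr
        _ = _ := by ring
    have h2 : ∑ l ∈ PP w y, Real.log l / l ≤ Real.log y + c2 := by
      have h3 := (abs_le.1 (hc2 y (by omega))).2
      have h4 : ∑ l ∈ PP w y, Real.log l / (l : ℝ) ≤ ∑ p ∈ (Finset.Icc 1 y).filter Nat.Prime, Real.log p / p := by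
        apply sum_le_sum_of_subset_of_nonneg
        · intro l hl
          have := mem_PP.1 hl
          rw [mem_filter, mem_Icc]
          exact ⟨⟨by omega, this.1.2⟩, this.2⟩
        · intro l hl _
          have := Real.log_natCast_nonneg l
          positivity
      linarith
    calc ∑ l ∈ PP w y, ff k w y (1 / Real.log y) l
        ≤ ∑ l ∈ PP w y, (1 / l + 2 / Real.log y * (Real.log l / l) + 12 * k * (1 / (l : ℝ) ^ 2)) := sum_le_sum h1
      _ = PS w y + 2 / Real.log y * ∑ l ∈ PP w y, (Real.log l / (l : ℝ)) + 12 * k * ∑ l ∈ PP w y, 1 / (l : ℝ) ^ 2 := by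
          rw [sum_add_distrib, sum_add_distrib, ← mul_sum, ← mul_sum]; rfl
      _ ≤ PS w y + 2 / Real.log y * (2 * Real.log y) + 12 * k * (1 / (w : ℝ)) := by
          have h5 := inv_sq w y (by omega)
          have h6 : ∑ l ∈ PP w y, Real.log l / (l : ℝ) ≤ 2 * Real.log y := by linarith
          gcongr
      _ ≤ PS w y + 5 := by
          have h5 : 2 / Real.log y * (2 * Real.log y) = 4 := by field_simp; norm_num
          have h6 : 12 * (k : ℝ) * (1 / w) ≤ 1 := by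
            rw [mul_one_div, div_le_one hw0]
            exact_mod_cast (by omega : 12 * k ≤ w)
          rw [h5]
          linarith

/-- the constant -/
noncomputable def C1 : ℝ := 3 * Real.exp 5

lemma C1_pos : 1 ≤ C1 := by
  unfold C1
  have := Real.one_le_exp (show (0 : ℝ) ≤ 5 by norm_num)
  linarith

/-- the upper bound with a saving for the large numbers -/
theorem U2s : ∃ c2 : ℝ, 0 ≤ c2 ∧ ∀ k w y : ℕ, 12 * k + 144 ≤ w → 3 ≤ y → c2 ≤ Real.log y → 1 ≤ PS w y →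
    ∀ (m : ℕ) (D : Finset ℕ) (R : ℝ), 1 ≤ R → (∀ d ∈ D, Smo (PP w y) d ∧ cardFactors d = m ∧ R ≤ d) →
      ∑ d ∈ D, Fm (ff k w y 0) d ≤ C1 * R ^ (-(1 / Real.log y)) * Mx (PS w y) := by
  obtain ⟨c2, hc20, h⟩ := ff_sumσ
  refine ⟨c2, hc20, ?_⟩
  intro k w y hw hy hcy hP m D R hR hD
  obtain ⟨s1, s2⟩ := h k w y (by omega) hy hcy
  have hw0 : (0 : ℝ) < w := by exact_mod_cast (by omega : 0 < w)
  have hly : 0 < Real.log y := Real.log_pos (by exact_mod_cast (by omega : 1 < y))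
  set σ := 1 / Real.log y with hσ
  have hσ0 : 0 ≤ σ := by positivity
  set P := PS w y with hPd
  set Q := ∑ l ∈ PP w y, ff k w y σ l with hQ
  have hQ1 : 1 ≤ Q := hP.trans s1
  have h1 := hm_le (S := PP w y) (f := ff k w y σ) (ff_nonneg k w y σ) (fun l => by
    have h3 := ff_le (k := k) (w := w) (by omega) hy hσ0 le_rfl l
    have h4 := ff_nonneg k w y σ l
    nlinarith [h3.2]) PP_prime (fun n => pow_fact_le hQ1 n) m D (fun d hd => ⟨(hD d hd).1, (hD d hd).2.1⟩)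
  have h2 := ff_prod (k := k) (w := w) (y := y) (by omega) hy hσ0 le_rfl
  have h4 := Mx_le (by linarith) s1 s2
  have hMQ := Mx_nonneg Q
  have hMP := Mx_nonneg P
  have h5 : ∑ d ∈ D, Fm (ff k w y σ) d ≤ 3 * (Real.exp 5 * Mx P) := by
    have h6 := pow_fact_le hQ1 m
    have h7 : 144 / (w : ℝ) ≤ 1 := by
      rw [div_le_one hw0]
      exact_mod_cast (by omega : 144 ≤ w)
    have h8 : (∏ l ∈ PP w y, (1 - ff k w y σ l ^ 2)⁻¹ - 1) * Mx Q ≤ 1 * Mx Q :=
      mul_le_mul_of_nonneg_right (h2.trans h7) hMQ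
    nlinarith
  have h6 : ∑ d ∈ D, Fm (ff k w y 0) d ≤ R ^ (-σ) * ∑ d ∈ D, Fm (ff k w y σ) d := by
    rw [mul_sum]
    apply sum_le_sum
    intro d hd
    obtain ⟨hs, -, hRd⟩ := hD d hd
    rw [Fm_ff k w y 0 hs, Fm_ff k w y σ hs]
    have hd0 : (0 : ℝ) < d := by linarith
    have h7 : 0 ≤ Fm (fun l => Real.exp (2 * k / l)) d := Fm_nonneg (fun l => (Real.exp_pos _).le) d
    have h8 : (d : ℝ) ^ ((0 : ℝ) - 1) ≤ R ^ (-σ) * (d : ℝ) ^ (σ - 1) := by
      have h9 : (d : ℝ) ^ (-σ) ≤ R ^ (-σ) := Real.rpow_le_rpow_of_nonpos (by linarith) hRd (by linarith)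
      calc (d : ℝ) ^ ((0 : ℝ) - 1) = (d : ℝ) ^ (-σ) * (d : ℝ) ^ (σ - 1) := by
            rw [← Real.rpow_add hd0]; congr 1; ring
        _ ≤ _ := by gcongr
    calc Fm (fun l => Real.exp (2 * k / l)) d * (d : ℝ) ^ ((0 : ℝ) - 1)
        ≤ Fm (fun l => Real.exp (2 * k / l)) d * (R ^ (-σ) * (d : ℝ) ^ (σ - 1)) := mul_le_mul_of_nonneg_left h8 h7
      _ = _ := by ring
  calc ∑ d ∈ D, Fm (ff k w y 0) d ≤ R ^ (-σ) * (3 * (Real.exp 5 * Mx P)) := by
        refine h6.trans ?_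
        gcongr
    _ = _ := by unfold C1; ring

/-- the upper bound with a saving for the large numbers -/
theorem U2 : ∃ c2 : ℝ, 0 ≤ c2 ∧ ∀ k w y : ℕ, 12 * k + 144 ≤ w → 3 ≤ y → c2 ≤ Real.log y → 1 ≤ PS w y →
    ∀ (m : ℕ) (D : Finset ℕ) (R : ℝ), 1 ≤ R → (∀ d ∈ D, Smo (PP w y) d ∧ cardFactors d = m ∧ R ≤ d) →
      VV w y * ∑ d ∈ D, Fm (ff k w y 0) d ≤ C1 * R ^ (-(1 / Real.log y)) / √(PS w y) := by
  obtain ⟨c2, hc20, h⟩ := U2s
  refine ⟨c2, hc20, ?_⟩
  intro k w y hw hy hcy hP m D R hR hD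
  have h1 := h k w y hw hy hcy hP m D R hR hD
  have h0 : 0 ≤ ∑ d ∈ D, Fm (ff k w y 0) d := sum_nonneg fun d _ => Fm_nonneg (ff_nonneg k w y 0) d
  calc VV w y * ∑ d ∈ D, Fm (ff k w y 0) d ≤ Real.exp (-PS w y) * (C1 * R ^ (-(1 / Real.log y)) * Mx (PS w y)) :=
        mul_le_mul (VV_le' w y) h1 h0 (Real.exp_nonneg _)
    _ = C1 * R ^ (-(1 / Real.log y)) * (Real.exp (-PS w y) * Mx (PS w y)) := by ring
    _ = _ := by rw [exp_Mx]; ring

end Pool.Agent.K4H18.LS
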