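import Pool.Agent.K4H18.LS.L5

/-! Cells: the upper bound in progressions -/

set_option autoImplicit false

namespace Pool.Agent.K4H18.LS

open Finset
open ArithmeticFunction (cardFactors)
open Pool.Agent.W208.TL (PP sm)
open Pool.Agent.K4H18.AC (mem_PP psi VV VV_le VV_nonneg dens_le PP_eq Adm sm_sm)

/-- the `n` of a cell -/
noncomputable def cellS {k : ℕ} (N w y Z L b : ℕ) (h : Fin k → ℕ) (J : Fin k → Finset ℕ) : Finset ℕ :=
  (Icc 1 N).filter (fun n => n ≡ b [MOD L] ∧ ∀ i, sm w y (n + h i) ≤ Z ∧ cardFactors (sm w y (n + h i)) ∈ J i)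

theorem cellB (k : ℕ) (hk : 1 ≤ k) : ∃ K y0 : ℕ, 1 ≤ K ∧ ∀ (w : ℕ) (h : Fin k → ℕ), 12 * k + 144 ≤ w → Adm w h →
    ∀ y N Z L b : ℕ, y0 ≤ y → 1 ≤ PS w y → 1 ≤ L → (∀ l : ℕ, l.Prime → l ∣ L → l ≤ w ∨ y < l) →
    ∀ (J : Fin k → Finset ℕ) (i0 : Fin k) (R : ℝ), 1 ≤ R →
    (((cellS N w y Z L b h J).filter (fun n => R ≤ sm w y (n + h i0))).card : ℝ) ≤
      2 * (N / L) * ((∏ i, ((J i).card : ℝ)) * (C1 / √(PS w y)) ^ k * R ^ (-(1 / Real.log y))) +
        (Z : ℝ) ^ k * ((y : ℝ) ^ K + k + 3) := by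
  classical
  obtain ⟨K, y0, hK, hlaw⟩ := lawQ k hk 1 one_pos le_rfl
  obtain ⟨c2, hc20, hU2⟩ := U2
  obtain ⟨y1, hy1⟩ := Filter.eventually_atTop.1 ((Real.tendsto_log_atTop.comp
    tendsto_natCast_atTop_atTop).eventually_ge_atTop c2 : ∀ᶠ y : ℕ in Filter.atTop, c2 ≤ Real.log (y : ℝ))
  refine ⟨K, max y0 (max y1 3), hK, ?_⟩
  intro w h hw hadm y N Z L b hy hP hL hLp J i0 R hR
  have hyy0 : y0 ≤ y := (le_max_left _ _).trans hy
  have hyy1 : y1 ≤ y := ((le_max_left _ _).trans (le_max_right _ _)).trans hy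
  have hy3 : 3 ≤ y := ((le_max_right _ _).trans (le_max_right _ _)).trans hy
  set σ := 1 / Real.log y with hσ
  set D : Fin k → Finset ℕ := fun i => (Icc 1 Z).filter (fun d => sm w y d = d ∧ cardFactors d ∈ J i ∧ (i = i0 → R ≤ d))
    with hD
  set T : (Fin k → ℕ) → Finset ℕ := fun d => (Icc 1 N).filter (fun n => n ≡ b [MOD L] ∧ ∀ i, sm w y (n + h i) = d i)
    with hT
  have hsub : (cellS N w y Z L b h J).filter (fun n => R ≤ sm w y (n + h i0)) ⊆ (Fintype.piFinset D).biUnion T := by
    intro n hn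
    unfold cellS at hn
    rw [mem_filter, mem_filter] at hn
    obtain ⟨⟨h1, h2, h3⟩, h4⟩ := hn
    rw [mem_biUnion]
    refine ⟨fun i => sm w y (n + h i), ?_, ?_⟩
    · rw [Fintype.mem_piFinset]
      intro i
      rw [hD]
      simp only [mem_filter, mem_Icc]
      refine ⟨⟨Pool.Agent.W975.TL.sm_pos _ _ _, (h3 i).1⟩, sm_sm, (h3 i).2, ?_⟩
      rintro rfl
      exact h4
    · rw [hT]
      simp only [mem_filter]
      exact ⟨h1, h2, fun _ => trivial⟩
  have h1 : (((cellS N w y Z L b h J).filter (fun n => R ≤ sm w y (n + h i0))).card : ℝ) ≤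
      ∑ d ∈ Fintype.piFinset D, ((T d).card : ℝ) := by
    have := (card_le_card hsub).trans card_biUnion_le
    exact_mod_cast this
  have hT1 : ∀ d, ((T d).card : ℝ) ≤ 2 * (N / L) * Pool.Agent.W208.TL.dens w y d + ((y : ℝ) ^ K + k + 3) := by
    intro d
    have h2 := hlaw w h hadm L b hL y N hLp hyy0 d
    have h3 := (abs_le.1 h2).2
    have e : (T d).card = ((Icc 1 N).filter (fun n => n ≡ b [MOD L] ∧ ∀ i, sm w y (n + h i) = d i)).card := rfl
    have h5 := sub_le_iff_le_add.1 h3
    have e2 : ((T d).card : ℝ) ≤ 1 * (N / L * Pool.Agent.W208.TL.dens w y d) + ((y : ℝ) ^ K + k + 3) +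
        N / L * Pool.Agent.W208.TL.dens w y d := by
      rw [e]
      convert h5 using 2
    linarith
  have hDs : ∀ i, ∀ d ∈ D i, Smo (PP w y) d := by
    intro i d hd
    rw [hD] at hd
    simp only [mem_filter] at hd
    exact smo_sm hd.2.1
  have hcard : ((Fintype.piFinset D).card : ℝ) ≤ (Z : ℝ) ^ k := by
    rw [Fintype.card_piFinset]
    push_cast
    calc ∏ i, ((D i).card : ℝ) ≤ ∏ _i : Fin k, (Z : ℝ) := by
          apply prod_le_prod
          · intro i _; positivity
          · intro i _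
            have : (D i).card ≤ Z := by
              refine (card_filter_le _ _).trans ?_
              simp
            exact_mod_cast this
      _ = _ := by rw [prod_const, card_univ, Fintype.card_fin]
  have hone : ∀ i, VV w y * ∑ d ∈ D i, Fm (ff k w y 0) d ≤
      (J i).card * ((C1 / √(PS w y)) * (if i = i0 then R ^ (-σ) else 1)) := by
    intro i
    have e1 : ∑ d ∈ D i, Fm (ff k w y 0) d = ∑ m ∈ J i, ∑ d ∈ (D i).filter (fun d => cardFactors d = m), Fm (ff k w y 0) d := by
      symm
      apply sum_fiberwise_of_maps_to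
      intro d hd
      rw [hD] at hd
      simp only [mem_filter] at hd
      exact hd.2.2.1
    rw [e1, mul_sum]
    calc ∑ m ∈ J i, VV w y * ∑ d ∈ (D i).filter (fun d => cardFactors d = m), Fm (ff k w y 0) d
        ≤ ∑ _m ∈ J i, ((C1 / √(PS w y)) * (if i = i0 then R ^ (-σ) else 1)) := by
          apply sum_le_sum
          intro m _
          split_ifs with hi
          · have := hU2 k w y hw hy3 (hy1 y hyy1) hP m ((D i).filter (fun d => cardFactors d = m)) R hR (by
              intro d hd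
              rw [mem_filter] at hd
              have h6 := hd.1
              rw [hD] at h6
              simp only [mem_filter] at h6
              exact ⟨smo_sm h6.2.1, hd.2, h6.2.2.2 hi⟩)
            refine this.trans (le_of_eq ?_)
            ring
          · have := hU2 k w y hw hy3 (hy1 y hyy1) hP m ((D i).filter (fun d => cardFactors d = m)) 1 le_rfl (by
              intro d hd
              rw [mem_filter] at hd
              have h6 := hd.1
              rw [hD] at h6
              simp only [mem_filter, mem_Icc] at h6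
              exact ⟨smo_sm h6.2.1, hd.2, by exact_mod_cast h6.1.1⟩)
            rw [Real.one_rpow] at this
            refine this.trans (le_of_eq ?_)
            ring
      _ = _ := by rw [sum_const, nsmul_eq_mul]
  have hdens : ∑ d ∈ Fintype.piFinset D, Pool.Agent.W208.TL.dens w y d ≤
      (∏ i, ((J i).card : ℝ)) * (C1 / √(PS w y)) ^ k * R ^ (-σ) := by
    refine (dens_sum_le (by omega) D hDs).trans ?_
    calc ∏ i, (VV w y * ∑ d ∈ D i, Fm (ff k w y 0) d) ≤
          ∏ i, ((J i).card * ((C1 / √(PS w y)) * (if i = i0 then R ^ (-σ) else 1))) := by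
          apply prod_le_prod
          · intro i _
            exact mul_nonneg (VV_nonneg _ _) (sum_nonneg fun d _ => Fm_nonneg (ff_nonneg _ _ _ _) d)
          · intro i _
            exact hone i
      _ = _ := by
          rw [prod_mul_distrib, prod_mul_distrib, prod_const, card_univ, Fintype.card_fin, prod_ite_eq' univ i0,
            if_pos (mem_univ _)]
          ring
  calc _ ≤ ∑ d ∈ Fintype.piFinset D, ((T d).card : ℝ) := h1
    _ ≤ ∑ d ∈ Fintype.piFinset D, (2 * (N / L) * Pool.Agent.W208.TL.dens w y d + ((y : ℝ) ^ K + k + 3)) :=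
        sum_le_sum fun d _ => hT1 d
    _ = 2 * (N / L) * ∑ d ∈ Fintype.piFinset D, Pool.Agent.W208.TL.dens w y d +
          (Fintype.piFinset D).card * ((y : ℝ) ^ K + k + 3) := by
        rw [sum_add_distrib, ← mul_sum, sum_const, nsmul_eq_mul]
    _ ≤ _ := by gcongr

end Pool.Agent.K4H18.LS
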