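import Pool.Agent.K4H18.LS.L6

/-! Cells: the asymptotic formula -/

set_option autoImplicit false

namespace Pool.Agent.K4H18.LS

open Finset
open ArithmeticFunction (cardFactors)
open Pool.Agent.W208.TL (PP sm)
open Pool.Agent.K4H18.AC (mem_PP psi VV VV_le VV_nonneg dens_le PP_eq Adm sm_sm)

/-- products of nearby numbers -/
lemma prod_diff {ι : Type*} (s : Finset ι) {a b : ι → ℝ} {U η : ℝ} (hU : 0 < U) (hη : 0 ≤ η) (hb : ∀ i ∈ s, 0 ≤ b i)
    (hab : ∀ i ∈ s, a i ≤ b i + η) (ha0 : ∀ i ∈ s, 0 ≤ a i) (ha : ∀ i ∈ s, a i ≤ U) (hbU : ∀ i ∈ s, b i ≤ U) :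
    ∏ i ∈ s, a i ≤ ∏ i ∈ s, b i + s.card * (η / U) * U ^ s.card := by
  classical
  induction s using Finset.induction_on with
  | empty => simp
  | insert c s hc ih =>
    rw [prod_insert hc, prod_insert hc, card_insert_of_notMem hc]
    have h1 := ih (fun i hi => hb i (mem_insert_of_mem hi)) (fun i hi => hab i (mem_insert_of_mem hi))
      (fun i hi => ha0 i (mem_insert_of_mem hi)) (fun i hi => ha i (mem_insert_of_mem hi))
      (fun i hi => hbU i (mem_insert_of_mem hi))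
    have hc1 := hb c (mem_insert_self _ _)
    have hc2 := hab c (mem_insert_self _ _)
    have hc3 := ha c (mem_insert_self _ _)
    have hc4 := ha0 c (mem_insert_self _ _)
    have hB0 : 0 ≤ ∏ i ∈ s, b i := prod_nonneg fun i hi => hb i (mem_insert_of_mem hi)
    have hB : ∏ i ∈ s, b i ≤ U ^ s.card := by
      calc ∏ i ∈ s, b i ≤ ∏ _i ∈ s, U := prod_le_prod (fun i hi => hb i (mem_insert_of_mem hi))
            (fun i hi => hbU i (mem_insert_of_mem hi))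
        _ = _ := by rw [prod_const]
    have hE0 : 0 ≤ (s.card : ℝ) * (η / U) * U ^ s.card := by positivity
    calc a c * ∏ i ∈ s, a i ≤ a c * (∏ i ∈ s, b i + s.card * (η / U) * U ^ s.card) := mul_le_mul_of_nonneg_left h1 hc4
      _ = a c * ∏ i ∈ s, b i + a c * (s.card * (η / U) * U ^ s.card) := by ring
      _ ≤ (b c + η) * ∏ i ∈ s, b i + U * (s.card * (η / U) * U ^ s.card) := by gcongr
      _ = b c * ∏ i ∈ s, b i + η * ∏ i ∈ s, b i + U * (s.card * (η / U) * U ^ s.card) := by ring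
      _ ≤ b c * ∏ i ∈ s, b i + η * U ^ s.card + U * (s.card * (η / U) * U ^ s.card) := by gcongr
      _ = _ := by push_cast; rw [pow_succ]; field_simp; ring

/-- the smallest product -/
lemma Vk_ge {k w y : ℕ} (hk : 1 ≤ k) (hw : 4 * k + 12 + 4 * k ^ 2 ≤ w) :
    Real.exp (-(k * PS w y)) * (1 - 2 * k ^ 2 / w) ≤ ∏ l ∈ PP w y, (1 - (k : ℝ) / l) := by
  have hw0 : (0 : ℝ) < w := by exact_mod_cast (by omega : 0 < w)
  have h1 : ∏ l ∈ PP w y, Real.exp (-((k : ℝ) / l) - 2 * k ^ 2 * (1 / (l : ℝ) ^ 2)) ≤ ∏ l ∈ PP w y, (1 - (k : ℝ) / l) := by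
    apply prod_le_prod
    · intro l _; exact Real.exp_nonneg _
    · intro l hl
      have h2 := mem_PP.1 hl
      have hlw : (4 : ℝ) * k + 12 ≤ l := by
        have : 4 * k + 12 ≤ l := by omega
        exact_mod_cast this
      have hk0 : (0 : ℝ) ≤ k := Nat.cast_nonneg k
      have hl0 : (0 : ℝ) < l := by linarith
      set x := (k : ℝ) / l with hx
      have hx0 : 0 ≤ x := by positivity
      have hx1 : x ≤ 1 / 4 := by rw [hx, div_le_iff₀ hl0]; linarith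
      have e1 : 2 * (k : ℝ) ^ 2 * (1 / (l : ℝ) ^ 2) = 2 * x ^ 2 := by rw [hx]; ring
      rw [e1]
      -- `exp (-x - 2 x ^ 2) ≤ 1 - x`
      have h3 : Real.exp (-(x + 2 * x ^ 2)) ≤ 1 - x := by
        have h4 := Real.one_sub_inv_le_log_of_pos (show (0 : ℝ) < 1 - x by linarith)
        have h5 : -(x + 2 * x ^ 2) ≤ 1 - (1 - x)⁻¹ := by
          have h6 : 1 - (1 - x)⁻¹ = -(x / (1 - x)) := by
            have : (1 : ℝ) - x ≠ 0 := by linarith
            field_simp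
            ring
          rw [h6, neg_le_neg_iff, div_le_iff₀ (by linarith)]
          nlinarith [sq_nonneg x]
        calc Real.exp (-(x + 2 * x ^ 2)) ≤ Real.exp (Real.log (1 - x)) := Real.exp_le_exp.2 (h5.trans h4)
          _ = 1 - x := Real.exp_log (by linarith)
      have e2 : -x - 2 * x ^ 2 = -(x + 2 * x ^ 2) := by ring
      rw [e2]
      exact h3
  refine le_trans ?_ h1
  rw [← Real.exp_sum]
  have h2 : ∑ l ∈ PP w y, (-((k : ℝ) / l) - 2 * k ^ 2 * (1 / (l : ℝ) ^ 2)) =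
      -(k * PS w y) - 2 * k ^ 2 * ∑ l ∈ PP w y, 1 / (l : ℝ) ^ 2 := by
    rw [sum_sub_distrib, ← mul_sum]
    congr 1
    unfold PS
    rw [mul_sum, ← sum_neg_distrib]
    apply sum_congr rfl
    intro l _
    ring
  rw [h2, sub_eq_add_neg (-((k : ℝ) * PS w y)), Real.exp_add]
  apply mul_le_mul_of_nonneg_left _ (Real.exp_nonneg _)
  have h3 := inv_sq w y (by omega)
  have h4 : 2 * (k : ℝ) ^ 2 * ∑ l ∈ PP w y, 1 / (l : ℝ) ^ 2 ≤ 2 * k ^ 2 / w := by
    calc 2 * (k : ℝ) ^ 2 * ∑ l ∈ PP w y, 1 / (l : ℝ) ^ 2 ≤ 2 * k ^ 2 * (1 / (w : ℝ)) := by gcongr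
      _ = _ := by ring
  have h5 := Real.add_one_le_exp (-(2 * (k : ℝ) ^ 2 * ∑ l ∈ PP w y, 1 / (l : ℝ) ^ 2))
  linarith

lemma Vk_le (k w y : ℕ) : ∏ l ∈ PP w y, (1 - (k : ℝ) / l) ≤ Real.exp (-(k * PS w y)) ∨
    ∃ l ∈ PP w y, (1 : ℝ) - k / l < 0 := by
  by_cases h : ∃ l ∈ PP w y, (1 : ℝ) - k / l < 0
  · exact Or.inr h
  · left
    push Not at h
    unfold PS
    rw [mul_sum, ← sum_neg_distrib, Real.exp_sum]
    apply prod_le_prod h
    intro l _
    have := Real.add_one_le_exp (-((k : ℝ) * (1 / l)))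
    have e : (k : ℝ) * (1 / l) = k / l := by ring
    rw [e] at this ⊢
    linarith

/-- the smooth numbers up to `Z` with `m` prime factors -/
noncomputable def DZ (w y Z m : ℕ) : Finset ℕ := (Icc 1 Z).filter (fun d => sm w y d = d ∧ cardFactors d = m)

lemma mem_DZ {w y Z m d : ℕ} : d ∈ DZ w y Z m ↔ d ≤ Z ∧ Smo (PP w y) d ∧ cardFactors d = m := by
  unfold DZ
  rw [mem_filter, mem_Icc]
  constructor
  · rintro ⟨⟨h1, h2⟩, h3, h4⟩
    exact ⟨h2, smo_sm h3, h4⟩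
  · rintro ⟨h2, h3, h4⟩
    exact ⟨⟨Nat.one_le_iff_ne_zero.2 h3.1, h2⟩, sm_smo h3, h4⟩

lemma inv_le_Fm {k w y d : ℕ} (hd : Smo (PP w y) d) : 1 / (d : ℝ) ≤ Fm (ff k w y 0) d := by
  rw [Fm_ff k w y 0 hd, zero_sub, Real.rpow_neg_one, one_div]
  apply le_mul_of_one_le_left (by positivity)
  refine le_trans ?_ (psi_exp k w y hd.1)
  apply Real.one_le_exp
  have := Pool.Agent.K4H18.AC.psi_nonneg w y d
  positivity

/-- the lower bound for the sum of the `1 / d`, `d ≤ Z` -/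
lemma DZ_ge {k w y : ℕ} (Z m : ℕ) (hZ : 1 ≤ Z) {T : ℝ}
    (hU : ∀ (D : Finset ℕ) (R : ℝ), 1 ≤ R → (∀ d ∈ D, Smo (PP w y) d ∧ cardFactors d = m ∧ R ≤ d) →
      ∑ d ∈ D, Fm (ff k w y 0) d ≤ R ^ (-(1 / Real.log y)) * T) :
    PS w y ^ m / m.factorial ≤ ∑ d ∈ DZ w y Z m, 1 / (d : ℝ) + (Z : ℝ) ^ (-(1 / Real.log y)) * T := by
  classical
  have h1 := hm_ge (S := PP w y) (f := fun l => 1 / (l : ℝ)) (fun l => by positivity) PP_prime m
  have h2 : ∑ d ∈ Dm (PP w y) m, Fm (fun l => 1 / (l : ℝ)) d = ∑ d ∈ Dm (PP w y) m, 1 / (d : ℝ) := by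
    apply sum_congr rfl
    intro d hd
    exact Fm_inv ((mem_Dm PP_prime m d).1 hd).1.1
  rw [h2] at h1
  have h3 : ∑ d ∈ Dm (PP w y) m, 1 / (d : ℝ) = ∑ d ∈ (Dm (PP w y) m).filter (fun d => d ≤ Z), 1 / (d : ℝ) +
      ∑ d ∈ (Dm (PP w y) m).filter (fun d => ¬ d ≤ Z), 1 / (d : ℝ) := (sum_filter_add_sum_filter_not _ _ _).symm
  have h4 : (Dm (PP w y) m).filter (fun d => d ≤ Z) = DZ w y Z m := by
    ext d
    rw [mem_filter, mem_Dm PP_prime, mem_DZ]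
    tauto
  have h5 : ∑ d ∈ (Dm (PP w y) m).filter (fun d => ¬ d ≤ Z), 1 / (d : ℝ) ≤ (Z : ℝ) ^ (-(1 / Real.log y)) * T := by
    refine le_trans (sum_le_sum fun d hd => ?_) (hU ((Dm (PP w y) m).filter (fun d => ¬ d ≤ Z)) Z (by exact_mod_cast hZ) ?_)
    · rw [mem_filter, mem_Dm PP_prime] at hd
      exact inv_le_Fm hd.1.1
    · intro d hd
      rw [mem_filter, mem_Dm PP_prime] at hd
      exact ⟨hd.1.1, hd.1.2, by exact_mod_cast (not_le.1 hd.2).le⟩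
  have h6 : PS w y ^ m / m.factorial ≤ ∑ d ∈ Dm (PP w y) m, 1 / (d : ℝ) := h1
  rw [h3, h4] at h6
  linarith

end Pool.Agent.K4H18.LS
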