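import Pool.Agent.K4H18.LS.L7

/-! Cells: the asymptotic formula, continued -/

set_option autoImplicit false

namespace Pool.Agent.K4H18.LS

open Finset
open ArithmeticFunction (cardFactors)
open Pool.Agent.W208.TL (PP sm)
open Pool.Agent.K4H18.AC (mem_PP psi VV VV_le VV_nonneg dens_le PP_eq Adm sm_sm)

lemma sum_inv_le {k w y : ℕ} (hw : 12 * k + 432 ≤ w) (hy : 3 ≤ y) (hP : 1 ≤ PS w y) (m : ℕ) (D : Finset ℕ)
    (hD : ∀ d ∈ D, Smo (PP w y) d ∧ cardFactors d = m) : ∑ d ∈ D, 1 / (d : ℝ) ≤ 2 * Mx (PS w y) := by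
  have hw0 : (0 : ℝ) < w := by exact_mod_cast (by omega : 0 < w)
  have h1 := U1s (k := k) (by omega) hy hP m D hD
  have h2 := pow_fact_le hP m
  have h3 : (12 * (k : ℝ) + 432) / w ≤ 1 := by
    rw [div_le_one hw0]
    exact_mod_cast hw
  have h4 : (12 * (k : ℝ) + 432) / w * Mx (PS w y) ≤ 1 * Mx (PS w y) := mul_le_mul_of_nonneg_right h3 (Mx_nonneg _)
  have h5 : ∑ d ∈ D, 1 / (d : ℝ) ≤ ∑ d ∈ D, Fm (ff k w y 0) d := sum_le_sum fun d hd => inv_le_Fm (hD d hd).1
  linarith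

lemma sum_inv_dvd {k w y : ℕ} (hw : 12 * k + 432 ≤ w) (hy : 3 ≤ y) (hP : 1 ≤ PS w y) (m : ℕ) (D : Finset ℕ)
    (hD : ∀ d ∈ D, Smo (PP w y) d ∧ cardFactors d = m) {l : ℕ} (hl : l.Prime) :
    ∑ d ∈ D, (if l ∣ d then 1 / (d : ℝ) else 0) ≤ 1 / l * (2 * Mx (PS w y)) := by
  classical
  rw [← sum_filter]
  have hl0 : (0 : ℝ) < l := by exact_mod_cast hl.pos
  have h1 : ∑ d ∈ D.filter (fun d => l ∣ d), 1 / (d : ℝ) = 1 / l * ∑ e ∈ (D.filter (fun d => l ∣ d)).image (fun d => d / l), 1 / (e : ℝ) := by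
    rw [sum_image, mul_sum]
    · apply sum_congr rfl
      intro d hd
      obtain ⟨c, rfl⟩ := (mem_filter.1 hd).2
      rw [Nat.mul_div_cancel_left _ hl.pos]
      push_cast
      rw [one_div_mul_one_div]
    · intro a ha b hb hab
      rw [mem_coe, mem_filter] at ha hb
      obtain ⟨c, rfl⟩ := ha.2
      obtain ⟨e, rfl⟩ := hb.2
      simp only at hab
      rw [Nat.mul_div_cancel_left _ hl.pos, Nat.mul_div_cancel_left _ hl.pos] at hab
      rw [hab]
  rw [h1]
  apply mul_le_mul_of_nonneg_left _ (by positivity)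
  apply sum_inv_le hw hy hP (m - 1)
  intro e he
  rw [mem_image] at he
  obtain ⟨d, hd, rfl⟩ := he
  rw [mem_filter] at hd
  obtain ⟨hd1, c, rfl⟩ := hd
  rw [Nat.mul_div_cancel_left _ hl.pos]
  obtain ⟨x, z⟩ := hD _ hd1
  have hc : c ≠ 0 := fun h => x.1 (by rw [h, mul_zero])
  refine ⟨x.of_dvd (dvd_mul_left _ _), ?_⟩
  rw [ArithmeticFunction.cardFactors_mul hl.ne_zero hc, ArithmeticFunction.cardFactors_apply_prime hl] at z
  omega

/-- the pairs which are not coprime -/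
lemma nc_le {k w y : ℕ} (hw : 12 * k + 432 ≤ w) (hy : 3 ≤ y) (hP : 1 ≤ PS w y) (m : Fin k → ℕ) (D : Fin k → Finset ℕ)
    (hD : ∀ i, ∀ d ∈ D i, Smo (PP w y) d ∧ cardFactors d = m i) {i j : Fin k} (hij : i ≠ j) {l : ℕ} (hl : l.Prime) :
    ∑ d ∈ Fintype.piFinset D, (if l ∣ d i ∧ l ∣ d j then ∏ r, 1 / (d r : ℝ) else 0) ≤
      1 / (l : ℝ) ^ 2 * (2 * Mx (PS w y)) ^ k := by
  classical
  have hl0 : (0 : ℝ) < l := by exact_mod_cast hl.pos
  have e1 : ∀ d : Fin k → ℕ, (if l ∣ d i ∧ l ∣ d j then ∏ r, 1 / (d r : ℝ) else 0) =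
      ∏ r, (if r = i ∨ r = j then (if l ∣ d r then 1 / (d r : ℝ) else 0) else 1 / (d r : ℝ)) := by
    intro d
    by_cases h : l ∣ d i ∧ l ∣ d j
    · rw [if_pos h]
      apply prod_congr rfl
      intro r _
      by_cases hr : r = i ∨ r = j
      · rw [if_pos hr]
        rcases hr with rfl | rfl
        · rw [if_pos h.1]
        · rw [if_pos h.2]
      · rw [if_neg hr]
    · rw [if_neg h]
      symm
      rw [not_and_or] at h
      rcases h with h | h
      · exact prod_eq_zero (mem_univ i) (by rw [if_pos (Or.inl rfl), if_neg h])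
      · exact prod_eq_zero (mem_univ j) (by rw [if_pos (Or.inr rfl), if_neg h])
  calc ∑ d ∈ Fintype.piFinset D, (if l ∣ d i ∧ l ∣ d j then ∏ r, 1 / (d r : ℝ) else 0)
      = ∑ d ∈ Fintype.piFinset D, ∏ r, (if r = i ∨ r = j then (if l ∣ d r then 1 / (d r : ℝ) else 0) else 1 / (d r : ℝ)) :=
        sum_congr rfl fun d _ => e1 d
    _ = ∏ r, ∑ d ∈ D r, (if r = i ∨ r = j then (if l ∣ d then 1 / (d : ℝ) else 0) else 1 / (d : ℝ)) :=
        (prod_univ_sum D (fun r d => if r = i ∨ r = j then (if l ∣ d then 1 / (d : ℝ) else 0) else 1 / (d : ℝ))).symm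
    _ ≤ ∏ r, ((if r = i then 1 / (l : ℝ) else 1) * (if r = j then 1 / (l : ℝ) else 1) * (2 * Mx (PS w y))) := by
        apply prod_le_prod
        · intro r _
          apply sum_nonneg
          intro d _
          split_ifs <;> positivity
        · intro r _
          by_cases h1 : r = i
          · have h2 : r ≠ j := fun h => hij (h1.symm.trans h)
            simp only [h1, true_or, if_true, if_neg (h1 ▸ h2 : i ≠ j), mul_one]
            rw [← h1]
            exact sum_inv_dvd hw hy hP (m r) (D r) (hD r) hl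
          · by_cases h2 : r = j
            · simp only [h2, or_true, if_true, if_neg (h2 ▸ h1 : ¬ j = i), one_mul]
              rw [← h2]
              exact sum_inv_dvd hw hy hP (m r) (D r) (hD r) hl
            · simp only [h1, h2, or_self, if_false, one_mul]
              exact sum_inv_le hw hy hP (m r) (D r) (hD r)
    _ = _ := by
        rw [prod_mul_distrib, prod_mul_distrib, prod_ite_eq' univ i, prod_ite_eq' univ j, if_pos (mem_univ _),
          if_pos (mem_univ _), prod_const, card_univ, Fintype.card_fin]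
        ring

/-- **the lower bound for the sum of the densities** -/
theorem dens_sum_ge (k : ℕ) (hk : 1 ≤ k) : ∃ c2 : ℝ, 0 ≤ c2 ∧ ∀ w y : ℕ, 12 * k + 432 + 4 * k ^ 2 ≤ w → 3 ≤ y →
    c2 ≤ Real.log y → 1 ≤ PS w y → ∀ (Z : ℕ) (m : Fin k → ℕ), 1 ≤ Z →
    ∏ i, po (PS w y) (m i) - 2 ^ k * (k * C1 * (Z : ℝ) ^ (-(1 / Real.log y)) + 3 * k ^ 2 / w) * (1 / √(PS w y)) ^ k ≤
      ∑ d ∈ Fintype.piFinset (fun i => DZ w y Z (m i)), Pool.Agent.W208.TL.dens w y d := by
  classical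
  obtain ⟨c2, hc20, hU⟩ := U2s
  refine ⟨c2, hc20, ?_⟩
  intro w y hw hy hcy hP Z m hZ
  have hw0 : (0 : ℝ) < w := by exact_mod_cast (by omega : 0 < w)
  have hk0 : (0 : ℝ) ≤ k := Nat.cast_nonneg k
  set P := PS w y with hPd
  set u := 1 / √P with hu
  have hP0 : 0 < P := by linarith
  have hu0 : 0 < u := by rw [hu]; have := Real.sqrt_pos.2 hP0; positivity
  set E := (Z : ℝ) ^ (-(1 / Real.log y)) with hE
  have hE0 : 0 ≤ E := by positivity
  set D : Fin k → Finset ℕ := fun i => DZ w y Z (m i) with hD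
  have hDm : ∀ i, ∀ d ∈ D i, Smo (PP w y) d ∧ cardFactors d = m i := fun i d hd => (mem_DZ.1 hd).2
  set V := ∏ l ∈ PP w y, (1 - (k : ℝ) / l) with hV
  have hfac : ∀ l ∈ PP w y, 0 ≤ 1 - (k : ℝ) / l := by
    intro l hl
    have h2 := mem_PP.1 hl
    have hl0 : (0 : ℝ) < l := by exact_mod_cast h2.2.pos
    rw [sub_nonneg, div_le_one hl0]
    exact_mod_cast (by omega : k ≤ l)
  have hV0 : 0 ≤ V := prod_nonneg hfac
  have hV1 : V ≤ Real.exp (-(k * P)) := by
    rcases Vk_le k w y with h | ⟨l, hl, h⟩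
    · exact h
    · exact absurd h (not_lt.2 (hfac l hl))
  have hV2 : Real.exp (-(k * P)) * (1 - 2 * k ^ 2 / w) ≤ V := Vk_ge hk (by omega)
  -- one term
  have hterm : ∀ d ∈ Fintype.piFinset D, V * (∏ r, 1 / (d r : ℝ) -
      ∑ i, ∑ j, if i = j then 0 else ∑ l ∈ PP w y, (if l ∣ d i ∧ l ∣ d j then ∏ r, 1 / (d r : ℝ) else 0)) ≤
      Pool.Agent.W208.TL.dens w y d := by
    intro d hd
    rw [Fintype.mem_piFinset] at hd
    have hpr0 : 0 ≤ ∏ r, 1 / (d r : ℝ) := prod_nonneg fun r _ => by positivity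
    have hs0 : ∀ i j : Fin k, 0 ≤ (if i = j then 0 else ∑ l ∈ PP w y, (if l ∣ d i ∧ l ∣ d j then ∏ r, 1 / (d r : ℝ) else 0)) := by
      intro i j
      split_ifs
      · exact le_rfl
      · exact sum_nonneg fun l _ => by split_ifs <;> [exact hpr0; exact le_rfl]
    have hss : 0 ≤ ∑ i, ∑ j, if i = j then 0 else ∑ l ∈ PP w y, (if l ∣ d i ∧ l ∣ d j then ∏ r, 1 / (d r : ℝ) else 0) :=
      sum_nonneg fun i _ => sum_nonneg fun j _ => hs0 i j
    unfold Pool.Agent.W208.TL.dens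
    by_cases hc : (∀ i, sm w y (d i) = d i) ∧ (∀ i j, i ≠ j → Nat.Coprime (d i) (d j))
    · rw [if_pos hc]
      have h1 : V * ∏ r, 1 / (d r : ℝ) ≤ (∏ l ∈ PP w y, (1 - (if ∃ i, l ∣ d i then (1 : ℝ) else (k : ℝ)) / l)) / ∏ i, (d i : ℝ) := by
        have e : ∏ r, 1 / (d r : ℝ) = 1 / ∏ i, (d i : ℝ) := by rw [prod_div_distrib, prod_const_one]
        rw [e, mul_one_div]
        apply div_le_div_of_nonneg_right _ (prod_nonneg fun _ _ => Nat.cast_nonneg _)
        apply prod_le_prod hfac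
        intro l hl
        have hl0 : (0 : ℝ) < l := by exact_mod_cast (mem_PP.1 hl).2.pos
        have h2 : (if ∃ i, l ∣ d i then (1 : ℝ) else (k : ℝ)) ≤ k := by
          split_ifs
          · exact_mod_cast hk
          · exact le_rfl
        have h3 : (if ∃ i, l ∣ d i then (1 : ℝ) else (k : ℝ)) / l ≤ k / l := div_le_div_of_nonneg_right h2 hl0.le
        linarith
      refine le_trans ?_ h1
      apply mul_le_mul_of_nonneg_left _ hV0
      linarith
    · rw [if_neg hc]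
      have h2 : ∃ i j, i ≠ j ∧ ¬ Nat.Coprime (d i) (d j) := by
        by_contra hcon
        push Not at hcon
        exact hc ⟨fun i => sm_smo (hDm i _ (hd i)).1, hcon⟩
      obtain ⟨i, j, hij, hco⟩ := h2
      obtain ⟨l, hl, hli, hlj⟩ := Nat.Prime.not_coprime_iff_dvd.1 hco
      have hlP : l ∈ PP w y := (hDm i _ (hd i)).1.2 l hl hli
      have h3 : ∏ r, 1 / (d r : ℝ) ≤ ∑ l ∈ PP w y, (if l ∣ d i ∧ l ∣ d j then ∏ r, 1 / (d r : ℝ) else 0) := by
        refine le_trans (le_of_eq ?_) (single_le_sum (f := fun l => if l ∣ d i ∧ l ∣ d j then ∏ r, 1 / (d r : ℝ) else 0)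
          (fun l _ => by show 0 ≤ if l ∣ d i ∧ l ∣ d j then ∏ r, 1 / (d r : ℝ) else 0
                         split_ifs <;> [exact hpr0; exact le_rfl]) hlP)
        rw [if_pos ⟨hli, hlj⟩]
      have h4 : ∑ l ∈ PP w y, (if l ∣ d i ∧ l ∣ d j then ∏ r, 1 / (d r : ℝ) else 0) ≤
          ∑ i, ∑ j, if i = j then 0 else ∑ l ∈ PP w y, (if l ∣ d i ∧ l ∣ d j then ∏ r, 1 / (d r : ℝ) else 0) := by
        have h5 := single_le_sum (f := fun i : Fin k => ∑ j : Fin k, if i = j then 0 else ∑ l ∈ PP w y, (if l ∣ d i ∧ l ∣ d j then ∏ r, 1 / (d r : ℝ) else 0))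
          (fun i _ => sum_nonneg fun j _ => hs0 i j) (mem_univ i)
        have h6 := single_le_sum (f := fun j : Fin k => if i = j then 0 else ∑ l ∈ PP w y, (if l ∣ d i ∧ l ∣ d j then ∏ r, 1 / (d r : ℝ) else 0))
          (fun j _ => hs0 i j) (mem_univ j)
        rw [if_neg hij] at h6
        exact h6.trans h5
      have h5 : V * (∏ r, 1 / (d r : ℝ) - ∑ i, ∑ j, if i = j then 0 else ∑ l ∈ PP w y, (if l ∣ d i ∧ l ∣ d j then ∏ r, 1 / (d r : ℝ) else 0)) ≤
          V * 0 := mul_le_mul_of_nonneg_left (by linarith) hV0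
      linarith
  -- the sum
  have hsum := sum_le_sum hterm
  rw [← mul_sum, sum_sub_distrib] at hsum
  set A : Fin k → ℝ := fun i => ∑ d ∈ D i, 1 / (d : ℝ) with hA
  have hprod : ∑ d ∈ Fintype.piFinset D, ∏ r, 1 / (d r : ℝ) = ∏ i, A i :=
    (prod_univ_sum D (fun _ d => 1 / (d : ℝ))).symm
  have hM0 := Mx_nonneg P
  have hA0 : ∀ i, 0 ≤ A i := fun i => sum_nonneg fun d _ => by positivity
  have hA2 : ∀ i, A i ≤ 2 * Mx P := fun i => sum_inv_le (k := k) (by omega) hy hP (m i) (D i) (hDm i)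
  have hnc : ∑ d ∈ Fintype.piFinset D, ∑ i, ∑ j, (if i = j then 0 else ∑ l ∈ PP w y, (if l ∣ d i ∧ l ∣ d j then ∏ r, 1 / (d r : ℝ) else 0)) ≤
      k ^ 2 / w * (2 * Mx P) ^ k := by
    rw [sum_comm]
    have h1 : ∀ i : Fin k, ∑ d ∈ Fintype.piFinset D, ∑ j, (if i = j then 0 else ∑ l ∈ PP w y, (if l ∣ d i ∧ l ∣ d j then ∏ r, 1 / (d r : ℝ) else 0)) ≤
        k * (1 / w * (2 * Mx P) ^ k) := by
      intro i
      rw [sum_comm]
      have h2 : ∀ j : Fin k, ∑ d ∈ Fintype.piFinset D, (if i = j then 0 else ∑ l ∈ PP w y, (if l ∣ d i ∧ l ∣ d j then ∏ r, 1 / (d r : ℝ) else 0)) ≤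
          1 / w * (2 * Mx P) ^ k := by
        intro j
        by_cases hij : i = j
        · simp only [if_pos hij, sum_const_zero]
          positivity
        · simp only [if_neg hij]
          rw [sum_comm]
          calc ∑ l ∈ PP w y, ∑ d ∈ Fintype.piFinset D, (if l ∣ d i ∧ l ∣ d j then ∏ r, 1 / (d r : ℝ) else 0)
              ≤ ∑ l ∈ PP w y, 1 / (l : ℝ) ^ 2 * (2 * Mx P) ^ k := by
                apply sum_le_sum
                intro l hl
                exact nc_le (k := k) (by omega) hy hP m D hDm hij (PP_prime l hl)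
            _ = (∑ l ∈ PP w y, 1 / (l : ℝ) ^ 2) * (2 * Mx P) ^ k := by rw [sum_mul]
            _ ≤ _ := by
                apply mul_le_mul_of_nonneg_right (inv_sq w y (by omega))
                positivity
      calc _ ≤ ∑ _j : Fin k, 1 / (w : ℝ) * (2 * Mx P) ^ k := sum_le_sum fun j _ => h2 j
        _ = _ := by rw [sum_const, card_univ, Fintype.card_fin, nsmul_eq_mul]
    calc _ ≤ ∑ _i : Fin k, (k : ℝ) * (1 / w * (2 * Mx P) ^ k) := sum_le_sum fun i _ => h1 i
      _ = k ^ 2 / w * (2 * Mx P) ^ k := by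
          rw [sum_const, card_univ, Fintype.card_fin, nsmul_eq_mul]
          ring
  rw [hprod] at hsum
  -- normalise
  set a : Fin k → ℝ := fun i => Real.exp (-P) * A i with ha
  have hexpk : Real.exp (-(k * P)) * ∏ i, A i = ∏ i, a i := by
    rw [ha, prod_mul_distrib, prod_const, card_univ, Fintype.card_fin, ← Real.exp_nat_mul]
    congr 2
    ring
  have hexpk2 : Real.exp (-(k * P)) * (2 * Mx P) ^ k = (2 * u) ^ k := by
    have h1 : Real.exp (-(k * P)) = Real.exp (-P) ^ k := by rw [← Real.exp_nat_mul]; congr 1; ring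
    rw [h1, ← mul_pow]
    congr 1
    rw [hu, ← exp_Mx]
    ring
  have ha0 : ∀ i, 0 ≤ a i := fun i => mul_nonneg (Real.exp_nonneg _) (hA0 i)
  have ha2 : ∀ i, a i ≤ 2 * u := by
    intro i
    rw [hu, ← exp_Mx]
    calc Real.exp (-P) * A i ≤ Real.exp (-P) * (2 * Mx P) := mul_le_mul_of_nonneg_left (hA2 i) (Real.exp_nonneg _)
      _ = _ := by ring
  have hpa : ∀ i, po P (m i) ≤ a i + C1 * E * u := by
    intro i
    have h1 := DZ_ge (k := k) (w := w) (y := y) Z (m i) hZ (T := C1 * Mx P) (fun D' R hR hD' => by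
      have := hU k w y (by omega) hy hcy hP (m i) D' R hR hD'
      refine this.trans (le_of_eq ?_)
      ring)
    unfold po
    calc Real.exp (-P) * (P ^ (m i) / (m i).factorial) ≤ Real.exp (-P) * (A i + E * (C1 * Mx P)) :=
          mul_le_mul_of_nonneg_left h1 (Real.exp_nonneg _)
      _ = a i + C1 * E * (Real.exp (-P) * Mx P) := by rw [ha]; ring
      _ = _ := by rw [exp_Mx]
  have hC1 := C1_pos
  have hpd := prod_diff (univ : Finset (Fin k)) (a := fun i => po P (m i)) (b := a) (U := 2 * u) (η := C1 * E * u)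
    (by positivity) (by positivity) (fun i _ => ha0 i) (fun i _ => hpa i) (fun i _ => po_nonneg hP0.le _)
    (fun i _ => (po_le hP _).trans (by rw [← hu]; linarith)) (fun i _ => ha2 i)
  rw [card_univ, Fintype.card_fin] at hpd
  have hη : C1 * E * u / (2 * u) = C1 * E / 2 := by field_simp
  rw [hη] at hpd
  have haprod : ∏ i, a i ≤ (2 * u) ^ k := by
    calc ∏ i, a i ≤ ∏ _i : Fin k, (2 * u) := prod_le_prod (fun i _ => ha0 i) (fun i _ => ha2 i)
      _ = _ := by rw [prod_const, card_univ, Fintype.card_fin]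
  have haprod0 : 0 ≤ ∏ i, a i := prod_nonneg fun i _ => ha0 i
  have hAprod0 : 0 ≤ ∏ i, A i := prod_nonneg fun i _ => hA0 i
  have h1 : ∏ i, a i - 2 * k ^ 2 / w * (2 * u) ^ k ≤ V * ∏ i, A i := by
    have h2 : Real.exp (-(k * P)) * (1 - 2 * k ^ 2 / w) * ∏ i, A i ≤ V * ∏ i, A i := mul_le_mul_of_nonneg_right hV2 hAprod0
    have h3 : Real.exp (-(k * P)) * (1 - 2 * k ^ 2 / w) * ∏ i, A i = (1 - 2 * k ^ 2 / w) * ∏ i, a i := by rw [← hexpk]; ring
    rw [h3] at h2
    have h4 : 2 * (k : ℝ) ^ 2 / w * ∏ i, a i ≤ 2 * k ^ 2 / w * (2 * u) ^ k := mul_le_mul_of_nonneg_left haprod (by positivity)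
    linarith
  have h2 : V * ∑ d ∈ Fintype.piFinset D, ∑ i, ∑ j, (if i = j then 0 else ∑ l ∈ PP w y, (if l ∣ d i ∧ l ∣ d j then ∏ r, 1 / (d r : ℝ) else 0)) ≤
      k ^ 2 / w * (2 * u) ^ k := by
    calc _ ≤ V * (k ^ 2 / w * (2 * Mx P) ^ k) := mul_le_mul_of_nonneg_left hnc hV0
      _ ≤ Real.exp (-(k * P)) * (k ^ 2 / w * (2 * Mx P) ^ k) := mul_le_mul_of_nonneg_right hV1 (by positivity)
      _ = k ^ 2 / w * (Real.exp (-(k * P)) * (2 * Mx P) ^ k) := by ring
      _ = _ := by rw [hexpk2]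
  rw [mul_sub] at hsum
  refine le_trans ?_ hsum
  have h3 : 2 ^ k * (k * C1 * E + 3 * k ^ 2 / w) * u ^ k = k * C1 * E * (2 * u) ^ k + 3 * k ^ 2 / w * (2 * u) ^ k := by
    rw [mul_pow]; ring
  rw [h3]
  have h4 : (k : ℝ) * (C1 * E / 2) * (2 * u) ^ k ≤ k * C1 * E * (2 * u) ^ k := by
    have : 0 ≤ (k : ℝ) * (C1 * E) * (2 * u) ^ k := by positivity
    nlinarith
  have h5 : 3 * (k : ℝ) ^ 2 / w * (2 * u) ^ k = 2 * k ^ 2 / w * (2 * u) ^ k + k ^ 2 / w * (2 * u) ^ k := by ring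
  rw [h5]
  linarith

end Pool.Agent.K4H18.LS
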