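import Pool.Agent.K4H18.LS.L8

/-! Cells: the asymptotic formula for one cell -/

set_option autoImplicit false

namespace Pool.Agent.K4H18.LS

open Finset
open ArithmeticFunction (cardFactors)
open Pool.Agent.W208.TL (PP sm)
open Pool.Agent.K4H18.AC (mem_PP psi VV VV_le VV_nonneg dens_le PP_eq Adm sm_sm)

lemma pow_rpow {y : ℕ} (hy : 2 ≤ y) (K1 : ℕ) : (((y ^ K1 : ℕ) : ℝ)) ^ (-(1 / Real.log y)) = Real.exp (-K1) := by
  have hy0 : (0 : ℝ) < y := by exact_mod_cast (by omega : 0 < y)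
  have hly : 0 < Real.log y := Real.log_pos (by exact_mod_cast (by omega : 1 < y))
  rw [Real.rpow_def_of_pos (by exact_mod_cast pow_pos (by omega : 0 < y) _)]
  congr 1
  push_cast
  rw [Real.log_pow]
  field_simp

/-- **the asymptotic formula for one cell** -/
theorem cellA (k : ℕ) (hk : 1 ≤ k) (ε : ℝ) (hε : 0 < ε) : ∃ w0 K K0 : ℕ, 1 ≤ K ∧ ∀ w : ℕ, w0 ≤ w →
    ∀ h : Fin k → ℕ, Adm w h → ∀ K1 : ℕ, K0 ≤ K1 → ∃ y0 : ℕ, ∀ y : ℕ, y0 ≤ y → 1 ≤ PS w y → ∀ (N : ℕ) (m : Fin k → ℕ),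
      |((cellS N w y (y ^ K1) 1 0 h (fun i => {m i})).card : ℝ) - N * ∏ i, po (PS w y) (m i)| ≤
        ε * N * (1 / √(PS w y)) ^ k + (((y ^ K1 : ℕ) : ℝ)) ^ k * ((y : ℝ) ^ K + k + 3) := by
  classical
  obtain ⟨e', he'⟩ : ∃ e' : ℝ, e' = min ε 1 := ⟨_, rfl⟩
  have he0 : 0 < e' := by rw [he']; exact lt_min hε one_pos
  have he1 : e' ≤ 1 := by rw [he']; exact min_le_right _ _
  have heε : e' ≤ ε := by rw [he']; exact min_le_left _ _
  obtain ⟨K, y1, hK, hlaw⟩ := lawQ k hk (e' / 8) (by positivity) (by linarith)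
  obtain ⟨c2, hc20, hge⟩ := dens_sum_ge k hk
  obtain ⟨y2, hy2⟩ := Filter.eventually_atTop.1 ((Real.tendsto_log_atTop.comp
    tendsto_natCast_atTop_atTop).eventually_ge_atTop c2 : ∀ᶠ y : ℕ in Filter.atTop, c2 ≤ Real.log (y : ℝ))
  obtain ⟨w1, hw1⟩ := exists_nat_ge ((8 * (2 ^ k * k * (12 * k + 432)) + 16 * (2 ^ k * (3 * (k : ℝ) ^ 2))) / e')
  obtain ⟨K0, hK0⟩ := exists_nat_ge (16 * (2 ^ k * (k * C1)) / e')
  refine ⟨max w1 (12 * k + 432 + 4 * k ^ 2), K, K0, hK, ?_⟩
  intro w hw h hadm K1 hK1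
  refine ⟨max y1 (max y2 3), ?_⟩
  intro y hy hP N m
  have hyy1 : y1 ≤ y := (le_max_left _ _).trans hy
  have hyy2 : y2 ≤ y := ((le_max_left _ _).trans (le_max_right _ _)).trans hy
  have hy3 : 3 ≤ y := ((le_max_right _ _).trans (le_max_right _ _)).trans hy
  have hww1 : w1 ≤ w := (le_max_left _ _).trans hw
  have hwk : 12 * k + 432 + 4 * k ^ 2 ≤ w := (le_max_right _ _).trans hw
  have hw0 : (0 : ℝ) < w := by exact_mod_cast (by omega : 0 < w)
  have hk0 : (0 : ℝ) ≤ k := Nat.cast_nonneg k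
  set P := PS w y with hPd
  have hP0 : 0 < P := by linarith
  set u := 1 / √P with hu
  have hu0 : 0 < u := by rw [hu]; have := Real.sqrt_pos.2 hP0; positivity
  set Z := y ^ K1 with hZ
  have hZ1 : 1 ≤ Z := Nat.one_le_pow _ _ (by omega)
  set D : Fin k → Finset ℕ := fun i => DZ w y Z (m i) with hD
  set T : (Fin k → ℕ) → Finset ℕ := fun d => (Icc 1 N).filter (fun n => n ≡ 0 [MOD 1] ∧ ∀ i, sm w y (n + h i) = d i)
    with hT
  have heq : cellS N w y Z 1 0 h (fun i => {m i}) = (Fintype.piFinset D).biUnion T := by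
    ext n
    unfold cellS
    rw [mem_filter, mem_biUnion]
    constructor
    · rintro ⟨h1, h2, h3⟩
      refine ⟨fun i => sm w y (n + h i), ?_, ?_⟩
      · rw [Fintype.mem_piFinset]
        intro i
        rw [hD, mem_DZ]
        exact ⟨(h3 i).1, smo_sm sm_sm, mem_singleton.1 (h3 i).2⟩
      · rw [hT]
        simp only [mem_filter]
        exact ⟨h1, h2, fun _ => trivial⟩
    · rintro ⟨d, hd, hn⟩
      rw [Fintype.mem_piFinset] at hd
      rw [hT] at hn
      simp only [mem_filter] at hn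
      refine ⟨hn.1, hn.2.1, fun i => ?_⟩
      have h1 := hd i
      rw [hD, mem_DZ] at h1
      rw [hn.2.2 i]
      exact ⟨h1.1, mem_singleton.2 h1.2.2⟩
  have hcard : ((cellS N w y Z 1 0 h (fun i => {m i})).card : ℝ) = ∑ d ∈ Fintype.piFinset D, ((T d).card : ℝ) := by
    rw [heq, card_biUnion]
    · push_cast
      rfl
    · intro d _ d' _ hne
      rw [Function.onFun, disjoint_left]
      intro n hn hn'
      rw [hT] at hn hn'
      simp only [mem_filter] at hn hn'
      apply hne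
      funext i
      rw [← hn.2.2 i, hn'.2.2 i]
  have hT1 : ∀ d, |((T d).card : ℝ) - N * Pool.Agent.W208.TL.dens w y d| ≤
      e' / 8 * (N * Pool.Agent.W208.TL.dens w y d) + ((y : ℝ) ^ K + k + 3) := by
    intro d
    have h2 := hlaw w h hadm 1 0 le_rfl y N (fun l hl hl1 => by
      rw [Nat.dvd_one] at hl1
      exact absurd hl1 hl.ne_one) hyy1 d
    rw [Nat.cast_one, div_one] at h2
    convert h2 using 2
  have hpc : ((Fintype.piFinset D).card : ℝ) ≤ (Z : ℝ) ^ k := by
    rw [Fintype.card_piFinset]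
    push_cast
    calc ∏ i, ((D i).card : ℝ) ≤ ∏ _i : Fin k, (Z : ℝ) := by
          apply prod_le_prod
          · intro i _; positivity
          · intro i _
            have : (D i).card ≤ Z := by
              rw [hD]
              unfold DZ
              refine (card_filter_le _ _).trans ?_
              simp
            exact_mod_cast this
      _ = _ := by rw [prod_const, card_univ, Fintype.card_fin]
  set S := ∑ d ∈ Fintype.piFinset D, Pool.Agent.W208.TL.dens w y d with hS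
  have hmain : |∑ d ∈ Fintype.piFinset D, ((T d).card : ℝ) - N * S| ≤ e' / 8 * (N * S) + (Z : ℝ) ^ k * ((y : ℝ) ^ K + k + 3) := by
    rw [hS, mul_sum, ← sum_sub_distrib]
    refine (abs_sum_le_sum_abs _ _).trans ?_
    refine (sum_le_sum fun d _ => hT1 d).trans ?_
    rw [sum_add_distrib, ← mul_sum, sum_const, nsmul_eq_mul]
    gcongr
  -- bounds for `S`
  have hup : S ≤ ∏ i, po P (m i) + e' / 8 * u ^ k := by
    refine (dens_sum_le (by omega) D (fun i d hd => (mem_DZ.1 hd).2.1)).trans ?_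
    have hcw : (12 * (k : ℝ) + 432) / w ≤ 1 := by
      rw [div_le_one hw0]
      exact_mod_cast (by omega : 12 * k + 432 ≤ w)
    have hb : ∀ i, VV w y * ∑ d ∈ D i, Fm (ff k w y 0) d ≤ po P (m i) + (12 * k + 432) / w * u := fun i =>
      U1 (by omega) hy3 hP (m i) (D i) (fun d hd => (mem_DZ.1 hd).2)
    have h1 := prod_diff (univ : Finset (Fin k)) (a := fun i => VV w y * ∑ d ∈ D i, Fm (ff k w y 0) d)
      (b := fun i => po P (m i)) (U := 2 * u) (η := (12 * k + 432) / w * u) (by positivity) (by positivity)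
      (fun i _ => po_nonneg hP0.le _) (fun i _ => hb i)
      (fun i _ => mul_nonneg (VV_nonneg _ _) (sum_nonneg fun d _ => Fm_nonneg (ff_nonneg _ _ _ _) d))
      (fun i _ => (hb i).trans (by
        have h2 := po_le hP (m i)
        rw [← hu] at h2
        have h3 : (12 * (k : ℝ) + 432) / w * u ≤ 1 * u := mul_le_mul_of_nonneg_right hcw hu0.le
        linarith))
      (fun i _ => (po_le hP _).trans (by rw [← hu]; linarith))
    rw [card_univ, Fintype.card_fin] at h1
    refine h1.trans ?_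
    have h2 : (k : ℝ) * ((12 * k + 432) / w * u / (2 * u)) * (2 * u) ^ k = (2 ^ k * k * (12 * k + 432)) / w / 2 * u ^ k := by
      rw [mul_pow]
      field_simp
    rw [h2]
    have h3 : (2 ^ k * k * (12 * (k : ℝ) + 432)) / w ≤ e' / 8 := by
      have h4 : (8 * (2 ^ k * k * (12 * k + 432)) + 16 * (2 ^ k * (3 * (k : ℝ) ^ 2))) / e' ≤ w := hw1.trans (by exact_mod_cast hww1)
      rw [div_le_iff₀ he0] at h4
      rw [div_le_iff₀ hw0]
      have : 0 ≤ 16 * (2 ^ k * (3 * (k : ℝ) ^ 2)) := by positivity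
      linarith
    have h5 : 0 ≤ (2 ^ k * k * (12 * (k : ℝ) + 432)) / w := by positivity
    have h6 : (2 ^ k * k * (12 * (k : ℝ) + 432)) / w / 2 ≤ e' / 8 := by linarith
    have h7 := mul_le_mul_of_nonneg_right h6 (show 0 ≤ u ^ k by positivity)
    linarith
  have hlow : ∏ i, po P (m i) - e' / 8 * u ^ k ≤ S := by
    refine le_trans ?_ (hge w y hwk hy3 (hy2 y hyy2) hP Z m hZ1)
    rw [hZ, pow_rpow (by omega)]
    have h1 : 2 ^ k * (k * C1 * Real.exp (-K1) + 3 * (k : ℝ) ^ 2 / w) ≤ e' / 8 := by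
      have hC := C1_pos
      have h2 : 2 ^ k * (k * C1 * Real.exp (-K1)) ≤ e' / 16 := by
        have h3 : Real.exp (-(K1 : ℝ)) ≤ 1 / (K1 + 1) := by
          rw [Real.exp_neg, inv_eq_one_div]
          apply one_div_le_one_div_of_le (by positivity)
          exact Real.add_one_le_exp _
        have h4 : 16 * (2 ^ k * (k * C1)) ≤ e' * (K1 + 1) := by
          rw [div_le_iff₀ he0] at hK0
          have : (K0 : ℝ) ≤ K1 := by exact_mod_cast hK1
          nlinarith
        calc 2 ^ k * (k * C1 * Real.exp (-K1)) ≤ 2 ^ k * (k * C1 * (1 / (K1 + 1))) := by gcongr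
          _ = (2 ^ k * (k * C1)) / (K1 + 1) := by ring
          _ ≤ e' / 16 := by
              rw [div_le_iff₀ (by positivity)]
              linarith
      have h3 : 2 ^ k * (3 * (k : ℝ) ^ 2 / w) ≤ e' / 16 := by
        have h4 : (8 * (2 ^ k * k * (12 * k + 432)) + 16 * (2 ^ k * (3 * (k : ℝ) ^ 2))) / e' ≤ w := hw1.trans (by exact_mod_cast hww1)
        rw [div_le_iff₀ he0] at h4
        rw [← mul_div_assoc, div_le_iff₀ hw0]
        have : 0 ≤ 8 * (2 ^ k * (k : ℝ) * (12 * k + 432)) := by positivity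
        linarith
      rw [mul_add]
      linarith
    have h2 := mul_le_mul_of_nonneg_right h1 (show 0 ≤ u ^ k by positivity)
    linarith
  rw [hcard]
  have hpo : ∏ i, po P (m i) ≤ u ^ k := by
    calc ∏ i, po P (m i) ≤ ∏ _i : Fin k, u := prod_le_prod (fun i _ => po_nonneg hP0.le _) (fun i _ => po_le hP _)
      _ = _ := by rw [prod_const, card_univ, Fintype.card_fin]
  have hN0 : (0 : ℝ) ≤ N := Nat.cast_nonneg N
  have huk : 0 ≤ u ^ k := by positivity
  have hS2 : S ≤ 2 * u ^ k := by nlinarith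
  have h1 : (N : ℝ) * S ≤ N * ∏ i, po P (m i) + e' / 8 * N * u ^ k := by nlinarith
  have h2 : N * ∏ i, po P (m i) - e' / 8 * N * u ^ k ≤ N * S := by nlinarith
  have h3 : e' / 8 * (N * S) ≤ e' / 4 * N * u ^ k := by
    have : (N : ℝ) * S ≤ N * (2 * u ^ k) := mul_le_mul_of_nonneg_left hS2 hN0
    nlinarith
  have h4 : e' * N * u ^ k ≤ ε * N * u ^ k := by gcongr
  have h5 : 0 ≤ e' * N * u ^ k := by positivity
  have h6 := abs_le.1 hmain
  rw [abs_le]
  constructor
  · nlinarith [h6.1]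
  · nlinarith [h6.2]

end Pool.Agent.K4H18.LS
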